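import Mathlib

set_option autoImplicit false

/-!
# Orthonormal bases adapted to a nondegenerate quadratic form on a hyperplane
-/

open Set Filter Topology Metric

open scoped RealInnerProductSpace

namespace Pool.Agent.V5helper34.KC.Mx

/-- A form which is nondegenerate on the kernel of a functional: there is an orthonormal basis
whose first vector is the normal of the kernel, such that the form is negative on the span of the
first group and positive on the span of the second group. -/
theorem spectral {F : Type*} [NormedAddCommGroup F] [InnerProductSpace ℝ F]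
    [FiniteDimensional ℝ F] (l : F →L[ℝ] ℝ) (hl : l ≠ 0) (B : F →L[ℝ] F →L[ℝ] ℝ)
    (hB : ∀ u w, B u w = B w u) (hnd : ∀ u, l u = 0 → u ≠ 0 → ∃ w, l w = 0 ∧ B u w ≠ 0) :
    ∃ (ι₁ ι₂ : Type) (_ : Fintype ι₁) (_ : Fintype ι₂) (_ : DecidableEq ι₁) (_ : DecidableEq ι₂)
      (b : OrthonormalBasis (Option (ι₁ ⊕ ι₂)) ℝ F), 0 < l (b none) ∧ (∀ x, l (b (some x)) = 0) ∧
      (∀ u, (∀ j, ⟪b (some (Sum.inr j)), u⟫ = 0) → l u = 0 → u ≠ 0 → B u u < 0) ∧
      (∀ u, (∀ i, ⟪b (some (Sum.inl i)), u⟫ = 0) → l u = 0 → u ≠ 0 → 0 < B u u) := by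
  classical
  set gr : F := (InnerProductSpace.toDual ℝ F).symm l with hgr
  have hgl : ∀ u, ⟪gr, u⟫ = l u := fun u => by
    rw [hgr, InnerProductSpace.toDual_symm_apply]
  have hgr0 : gr ≠ 0 := by
    intro h0
    apply hl
    ext u
    rw [← hgl, h0]
    simp
  have hgn : 0 < ‖gr‖ := norm_pos_iff.2 hgr0
  set e₀ : F := ‖gr‖⁻¹ • gr with he₀
  have he₀n : ‖e₀‖ = 1 := by
    rw [he₀, norm_smul, norm_inv, norm_norm, inv_mul_cancel₀ hgn.ne']
  have he₀l : ∀ u, ⟪e₀, u⟫ = ‖gr‖⁻¹ * l u := fun u => by
    rw [he₀, real_inner_smul_left, hgl]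
  have hle₀ : l e₀ = ‖gr‖ := by
    rw [← hgl, he₀, real_inner_smul_right, real_inner_self_eq_norm_sq]
    field_simp
  set H : Submodule ℝ F := LinearMap.ker (l : F →ₗ[ℝ] ℝ) with hH
  have hHm : ∀ u, u ∈ H ↔ l u = 0 := fun u => by
    rw [hH, LinearMap.mem_ker]
    rfl
  set A : F → F := fun u => (InnerProductSpace.toDual ℝ F).symm (B u) with hA
  have hAB : ∀ u w, ⟪A u, w⟫ = B u w := fun u w => by
    rw [hA]
    simp only
    rw [InnerProductSpace.toDual_symm_apply]
  set T : H →ₗ[ℝ] H :=
    { toFun := fun u => H.orthogonalProjectionOnto (A (u : F))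
      map_add' := by
        intro u w
        rw [← map_add]
        congr 1
        rw [hA]
        simp only [Submodule.coe_add, map_add]
      map_smul' := by
        intro c u
        rw [RingHom.id_apply, ← map_smul]
        congr 1
        rw [hA]
        simp only [Submodule.coe_smul, map_smul] } with hT
  have hTin : ∀ u w : H, ⟪T u, w⟫ = B (u : F) (w : F) := by
    intro u w
    rw [← hAB]
    change ⟪H.orthogonalProjectionOnto (A (u : F)), w⟫ = _
    rw [Submodule.inner_orthogonalProjectionOnto_eq_of_mem_right]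
  have hsymm : T.IsSymmetric := by
    intro u w
    rw [hTin, real_inner_comm, hTin, hB]
  set m : ℕ := Module.finrank ℝ H with hm
  set ev := hsymm.eigenvectorBasis (n := m) rfl with hev
  set lam := hsymm.eigenvalues (n := m) rfl with hlam
  have hTe : ∀ i, T (ev i) = lam i • ev i := fun i =>
    hsymm.apply_eigenvectorBasis rfl i
  have hBe : ∀ i (w : H), B (ev i : F) (w : F) = lam i * ⟪(ev i : F), (w : F)⟫ := by
    intro i w
    rw [← hTin, hTe, real_inner_smul_left]
    rfl
  have hevn : ∀ i, ‖((ev i : H) : F)‖ = 1 := fun i => by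
    have := ev.norm_eq_one i
    exact this
  have hevo : ∀ i j, i ≠ j → ⟪((ev i : H) : F), ((ev j : H) : F)⟫ = 0 := fun i j hij => by
    have := ev.orthonormal.2 hij
    exact this
  have hlam0 : ∀ i, lam i ≠ 0 := by
    intro i h0
    have h1 : l (ev i : F) = 0 := (hHm _).1 (ev i).2
    have h2 : (ev i : F) ≠ 0 := by
      intro h
      have := hevn i
      rw [h, norm_zero] at this
      exact zero_ne_one this
    obtain ⟨w, hw, hw'⟩ := hnd _ h1 h2
    apply hw'
    have := hBe i ⟨w, (hHm w).2 hw⟩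
    rw [h0, zero_mul] at this
    exact this
  set ι₁ : Type := {i : Fin m // lam i < 0} with hι₁
  set ι₂ : Type := {i : Fin m // 0 < lam i} with hι₂
  set v : Option (ι₁ ⊕ ι₂) → F := fun x => x.elim e₀ (Sum.elim (fun i => ((ev i.1 : H) : F))
    (fun j => ((ev j.1 : H) : F))) with hv
  have hle : ∀ i, l (ev i : F) = 0 := fun i => (hHm _).1 (ev i).2
  have hon : Orthonormal ℝ v := by
    constructor
    · rintro (_ | (i | i))
      · exact he₀n
      · exact hevn i.1
      · exact hevn i.1
    · rintro (_ | (i | i)) (_ | (j | j)) hne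
      · exact absurd rfl hne
      · change ⟪e₀, ((ev j.1 : H) : F)⟫ = 0
        rw [he₀l, hle, mul_zero]
      · change ⟪e₀, ((ev j.1 : H) : F)⟫ = 0
        rw [he₀l, hle, mul_zero]
      · change ⟪((ev i.1 : H) : F), e₀⟫ = 0
        rw [real_inner_comm, he₀l, hle, mul_zero]
      · change ⟪((ev i.1 : H) : F), ((ev j.1 : H) : F)⟫ = 0
        apply hevo
        intro h
        apply hne
        have : i = j := Subtype.ext h
        rw [this]
      · change ⟪((ev i.1 : H) : F), ((ev j.1 : H) : F)⟫ = 0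
        apply hevo
        intro h
        have h1 := i.2
        have h2 := j.2
        rw [h] at h1
        linarith
      · change ⟪((ev i.1 : H) : F), e₀⟫ = 0
        rw [real_inner_comm, he₀l, hle, mul_zero]
      · change ⟪((ev i.1 : H) : F), ((ev j.1 : H) : F)⟫ = 0
        apply hevo
        intro h
        have h1 := i.2
        have h2 := j.2
        rw [h] at h1
        linarith
      · change ⟪((ev i.1 : H) : F), ((ev j.1 : H) : F)⟫ = 0
        apply hevo
        intro h
        apply hne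
        have : i = j := Subtype.ext h
        rw [this]
  have hmem : ∀ i : Fin m, ((ev i : H) : F) ∈ Submodule.span ℝ (Set.range v) := by
    intro i
    rcases lt_or_gt_of_ne (hlam0 i) with h | h
    · exact Submodule.subset_span ⟨some (Sum.inl ⟨i, h⟩), rfl⟩
    · exact Submodule.subset_span ⟨some (Sum.inr ⟨i, h⟩), rfl⟩
  -- the expansion of the vectors of `H`
  have hexp : ∀ w : H, (w : F) = ∑ i, ⟪((ev i : H) : F), (w : F)⟫ • ((ev i : H) : F) := by
    intro w
    have := ev.sum_repr' w
    have h2 : ((∑ i, ⟪ev i, w⟫ • ev i : H) : F) = (w : F) := congrArg (fun z : H => (z : F)) this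
    rw [Submodule.coe_sum] at h2
    exact h2.symm
  have hsp : ⊤ ≤ Submodule.span ℝ (Set.range v) := by
    intro x _
    have h1 : x - ⟪e₀, x⟫ • e₀ ∈ H := by
      rw [hHm, map_sub, map_smul, smul_eq_mul, hle₀, he₀l]
      field_simp
      ring
    have h2 : x - ⟪e₀, x⟫ • e₀ ∈ Submodule.span ℝ (Set.range v) := by
      have h3 := hexp ⟨_, h1⟩
      simp only at h3
      rw [h3]
      exact Submodule.sum_mem _ (fun i _ => Submodule.smul_mem _ _ (hmem i))
    have h3 : ⟪e₀, x⟫ • e₀ ∈ Submodule.span ℝ (Set.range v) :=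
      Submodule.smul_mem _ _ (Submodule.subset_span ⟨none, rfl⟩)
    have h4 := Submodule.add_mem _ h2 h3
    rwa [sub_add_cancel] at h4
  -- the value of the form
  have hval : ∀ u, l u = 0 → B u u = ∑ i, lam i * ⟪((ev i : H) : F), u⟫ ^ 2 := by
    intro u hu
    have h1 := hexp ⟨u, (hHm u).2 hu⟩
    simp only at h1
    have h2 : B u u = ∑ i, ⟪((ev i : H) : F), u⟫ * B ((ev i : H) : F) u := by
      conv_lhs => rw [show B u u = B u u from rfl]
      nth_rewrite 1 [h1]
      rw [map_sum, ContinuousLinearMap.sum_apply]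
      apply Finset.sum_congr rfl
      intro i _
      rw [map_smul, ContinuousLinearMap.smul_apply, smul_eq_mul]
    rw [h2]
    apply Finset.sum_congr rfl
    intro i _
    have h3 := hBe i ⟨u, (hHm u).2 hu⟩
    simp only at h3
    rw [h3]
    ring
  have hnz : ∀ u, l u = 0 → u ≠ 0 → ∃ i, ⟪((ev i : H) : F), u⟫ ≠ 0 := by
    intro u hu hu0
    by_contra hcon
    push Not at hcon
    apply hu0
    have h1 := hexp ⟨u, (hHm u).2 hu⟩
    simp only at h1
    rw [h1]
    apply Finset.sum_eq_zero
    intro i _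
    rw [hcon i, zero_smul]
  refine ⟨ι₁, ι₂, inferInstance, inferInstance, inferInstance, inferInstance,
    OrthonormalBasis.mk hon hsp, ?_, ?_, ?_, ?_⟩
  · rw [OrthonormalBasis.coe_mk]
    change 0 < l e₀
    rw [hle₀]
    exact hgn
  · intro x
    rw [OrthonormalBasis.coe_mk]
    rcases x with i | i
    · exact hle i.1
    · exact hle i.1
  · intro u hu hlu hu0
    rw [OrthonormalBasis.coe_mk] at hu
    rw [hval u hlu]
    obtain ⟨i, hi⟩ := hnz u hlu hu0
    have hz : ∀ j, 0 < lam j → ⟪((ev j : H) : F), u⟫ = 0 := fun j hj => hu ⟨j, hj⟩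
    refine Finset.sum_neg' ?_ ⟨i, Finset.mem_univ i, ?_⟩
    · intro j _
      rcases lt_or_gt_of_ne (hlam0 j) with h | h
      · nlinarith [sq_nonneg ⟪((ev j : H) : F), u⟫]
      · rw [hz j h]
        simp
    · rcases lt_or_gt_of_ne (hlam0 i) with h | h
      · have := sq_pos_of_ne_zero hi
        nlinarith
      · exact absurd (hz i h) hi
  · intro u hu hlu hu0
    rw [OrthonormalBasis.coe_mk] at hu
    rw [hval u hlu]
    obtain ⟨i, hi⟩ := hnz u hlu hu0
    have hz : ∀ j, lam j < 0 → ⟪((ev j : H) : F), u⟫ = 0 := fun j hj => hu ⟨j, hj⟩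
    refine Finset.sum_pos' ?_ ⟨i, Finset.mem_univ i, ?_⟩
    · intro j _
      rcases lt_or_gt_of_ne (hlam0 j) with h | h
      · rw [hz j h]
        simp
      · positivity
    · rcases lt_or_gt_of_ne (hlam0 i) with h | h
      · exact absurd (hz i h) hi
      · have := sq_pos_of_ne_zero hi
        positivity

end Pool.Agent.V5helper34.KC.Mx
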