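import Pool.Agent.V5helper34.KC.SThm
import Pool.Agent.V5helper34.KC.Quad

set_option autoImplicit false

/-!
# Functions of class `C^2`: quasi-convexity and the local data
-/

open MeasureTheory Set Filter Topology ENNReal NNReal Metric

open scoped RealInnerProductSpace

namespace Pool.Agent.V5helper34.KC.Mx

theorem qconv_one {φ φ' φ'' : ℝ → ℝ} (h1 : ∀ t ∈ Icc (0:ℝ) 1, HasDerivAt φ (φ' t) t)
    (h2 : ∀ t ∈ Icc (0:ℝ) 1, HasDerivAt φ' (φ'' t) t)
    (h3 : ∀ t ∈ Icc (0:ℝ) 1, φ' t = 0 → 0 < φ'' t) {t : ℝ} (ht : t ∈ Icc (0:ℝ) 1) :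
    φ t ≤ max (φ 0) (φ 1) := by
  have hc : ContinuousOn φ (Icc 0 1) := fun t ht => (h1 t ht).continuousAt.continuousWithinAt
  obtain ⟨m, hm, hmax⟩ := isCompact_Icc.exists_isMaxOn ⟨0, by simp⟩ hc
  rcases eq_or_lt_of_le hm.1 with h | h
  · exact (hmax ht).trans (by rw [← h]; exact le_max_left _ _)
  rcases eq_or_lt_of_le hm.2 with h' | h'
  · exact (hmax ht).trans (by rw [h']; exact le_max_right _ _)
  exfalso
  have hnb : Icc (0:ℝ) 1 ∈ 𝓝 m := Icc_mem_nhds h h'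
  have hlm : IsLocalMax φ m := hmax.isLocalMax hnb
  have hd0 : φ' m = 0 := hlm.hasDerivAt_eq_zero (h1 m hm)
  have hev : deriv φ =ᶠ[𝓝 m] φ' := by
    filter_upwards [hnb] with x hx
    exact (h1 x hx).deriv
  have hdd : deriv (deriv φ) m = φ'' m := by
    rw [hev.deriv_eq]
    exact (h2 m hm).deriv
  have hmin : IsLocalMin φ m := isLocalMin_of_deriv_deriv_pos
    (by rw [hdd]; exact h3 m hm hd0) (by rw [hev.eq_of_nhds]; exact hd0) (h1 m hm).continuousAt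
  have hconst : φ =ᶠ[𝓝 m] fun _ => φ m := by
    filter_upwards [hlm, hmin] with x hx hx'
    exact le_antisymm hx hx'
  have h4 : deriv φ =ᶠ[𝓝 m] fun _ => 0 := by
    filter_upwards [hconst.eventuallyEq_nhds] with y hy
    rw [hy.deriv_eq]
    simp
  have h5 : deriv (deriv φ) m = 0 := by
    rw [h4.deriv_eq]
    simp
  have h6 := h3 m hm hd0
  rw [← hdd, h5] at h6
  exact lt_irrefl _ h6

section

variable {F : Type*} [NormedAddCommGroup F] [InnerProductSpace ℝ F]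

theorem c2_facts {U : Set F} (hU : IsOpen U) {f : F → ℝ} (hf : ContDiffOn ℝ 2 f U) {x : F}
    (hx : x ∈ U) : DifferentiableAt ℝ f x ∧ DifferentiableAt ℝ (fderiv ℝ f) x ∧
      ContinuousAt (fderiv ℝ (fderiv ℝ f)) x := by
  have h1 : ContDiffAt ℝ 2 f x := hf.contDiffAt (hU.mem_nhds hx)
  have h2 : ContDiffAt ℝ 1 (fderiv ℝ f) x := h1.fderiv_right (by norm_num)
  have h3 : ContDiffAt ℝ 0 (fderiv ℝ (fderiv ℝ f)) x := h2.fderiv_right (by norm_num)
  exact ⟨h1.differentiableAt (by norm_num), h2.differentiableAt (by norm_num), h3.continuousAt⟩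

/-- Quasi-convexity along a segment, with a quadratic perturbation. -/
theorem qconv_seg {U : Set F} (hU : IsOpen U) {f : F → ℝ} (hf : ContDiffOn ℝ 2 f U) {v w : F}
    (hseg : ∀ t ∈ Icc (0:ℝ) 1, v + t • (w - v) ∈ U) (ε : ℝ) (v₀ : F)
    (h : ∀ t ∈ Icc (0:ℝ) 1, fderiv ℝ f (v + t • (w - v)) (w - v) +
        ε * ⟪v + t • (w - v) - v₀, w - v⟫ = 0 →
      0 < fderiv ℝ (fderiv ℝ f) (v + t • (w - v)) (w - v) (w - v) + ε * ⟪w - v, w - v⟫)
    {x y : ℝ} (hx : 0 ≤ x) (hy : 0 ≤ y) (hxy : x + y = 1) :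
    f (x • v + y • w) + ε / 2 * ‖x • v + y • w - v₀‖ ^ 2 ≤
      max (f v + ε / 2 * ‖v - v₀‖ ^ 2) (f w + ε / 2 * ‖w - v₀‖ ^ 2) := by
  set γ : ℝ → F := fun t => v + t • (w - v) with hγ
  have hγd : ∀ t, HasDerivAt γ (w - v) t := by
    intro t
    have h1 : HasDerivAt (fun t : ℝ => t • (w - v)) ((1 : ℝ) • (w - v)) t :=
      (hasDerivAt_id t).smul_const (w - v)
    rw [one_smul] at h1
    exact h1.const_add v
  have hγd' : ∀ t, HasDerivAt (fun t => γ t - v₀) (w - v) t := fun t => (hγd t).sub_const v₀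
  set φ : ℝ → ℝ := fun t => f (γ t) + ε / 2 * ‖γ t - v₀‖ ^ 2 with hφ
  set φ' : ℝ → ℝ := fun t => fderiv ℝ f (γ t) (w - v) + ε * ⟪γ t - v₀, w - v⟫ with hφ'
  set φ'' : ℝ → ℝ := fun t => fderiv ℝ (fderiv ℝ f) (γ t) (w - v) (w - v) +
    ε * ⟪w - v, w - v⟫ with hφ''
  have h1 : ∀ t ∈ Icc (0:ℝ) 1, HasDerivAt φ (φ' t) t := by
    intro t ht
    have e1 := (c2_facts hU hf (hseg t ht)).1.hasFDerivAt.comp_hasDerivAt t (hγd t)
    have e2 := ((hγd' t).norm_sq).const_mul (ε / 2)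
    have e3 := e1.add e2
    have e4 : ε / 2 * (2 * ⟪γ t - v₀, w - v⟫) = ε * ⟪γ t - v₀, w - v⟫ := by ring
    rw [e4] at e3
    exact e3
  have h2 : ∀ t ∈ Icc (0:ℝ) 1, HasDerivAt φ' (φ'' t) t := by
    intro t ht
    have e1 := (c2_facts hU hf (hseg t ht)).2.1.hasFDerivAt.comp_hasDerivAt t (hγd t)
    have e2 : HasDerivAt (fun t => fderiv ℝ f (γ t) (w - v))
        (fderiv ℝ (fderiv ℝ f) (γ t) (w - v) (w - v)) t :=
      (ContinuousLinearMap.apply ℝ ℝ (w - v)).hasFDerivAt.comp_hasDerivAt t e1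
    have e3 : HasDerivAt (fun t => ⟪γ t - v₀, w - v⟫) ⟪w - v, w - v⟫ t := by
      have := (hγd' t).inner ℝ (hasDerivAt_const t (w - v))
      simpa using this
    exact e2.add (e3.const_mul ε)
  have h3 := qconv_one h1 h2 h (t := y) ⟨hy, by linarith⟩
  have e0 : γ 0 = v := by rw [hγ]; simp
  have e1 : γ 1 = w := by rw [hγ]; simp
  have e2 : γ y = x • v + y • w := by
    rw [hγ]
    simp only
    rw [show x = 1 - y by linarith]
    module
  rw [hφ] at h3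
  simp only at h3
  rw [e0, e1, e2] at h3
  exact h3

variable [FiniteDimensional ℝ F]

theorem near_strict {U : Set F} (hU : IsOpen U) {f : F → ℝ} (hf : ContDiffOn ℝ 2 f U) {v₀ : F}
    (hv₀ : v₀ ∈ U) (S : Submodule ℝ F)
    (h : ∀ u ∈ S, u ≠ 0 → fderiv ℝ f v₀ u = 0 → 0 < fderiv ℝ (fderiv ℝ f) v₀ u u) :
    ∀ᶠ v in 𝓝 v₀, ∀ u ∈ S, u ≠ 0 → fderiv ℝ f v u = 0 →
      0 < fderiv ℝ (fderiv ℝ f) v u u := by
  have hK : IsCompact (sphere (0 : F) 1 ∩ (S : Set F)) :=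
    (isCompact_sphere 0 1).inter_right S.closed_of_finiteDimensional
  obtain ⟨_, hd1, hc2⟩ := c2_facts hU hf hv₀
  have h1 := hK.eventually_forall_of_forall_eventually (x₀ := v₀)
    (P := fun v u => fderiv ℝ f v u ≠ 0 ∨ 0 < fderiv ℝ (fderiv ℝ f) v u u) ?_
  · filter_upwards [h1] with v hv u hu hu0 hfu
    have hn : 0 < ‖u‖ := norm_pos_iff.2 hu0
    have hu' : ‖u‖⁻¹ • u ∈ sphere (0 : F) 1 ∩ (S : Set F) := by
      refine ⟨?_, S.smul_mem _ hu⟩
      rw [mem_sphere_zero_iff_norm, norm_smul, norm_inv, norm_norm, inv_mul_cancel₀ hn.ne']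
    rcases hv _ hu' with h2 | h2
    · exact absurd (by rw [map_smul, hfu, smul_zero]) h2
    · have e : fderiv ℝ (fderiv ℝ f) v (‖u‖⁻¹ • u) (‖u‖⁻¹ • u) =
          ‖u‖⁻¹ * (‖u‖⁻¹ * fderiv ℝ (fderiv ℝ f) v u u) := by
        simp
      rw [e] at h2
      have h3 : 0 < ‖u‖⁻¹ := inv_pos.2 hn
      exact (mul_pos_iff_of_pos_left h3).1 ((mul_pos_iff_of_pos_left h3).1 h2)
  · intro y hy
    have hy0 : y ≠ 0 := by
      intro h0
      have := mem_sphere_zero_iff_norm.1 hy.1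
      rw [h0, norm_zero] at this
      exact zero_ne_one this
    have hcf : ContinuousAt (fun z : F × F => fderiv ℝ f z.1 z.2) (v₀, y) :=
      ContinuousAt.clm_apply (ContinuousAt.comp (f := Prod.fst) hd1.continuousAt continuousAt_fst)
        continuousAt_snd
    have hcg : ContinuousAt (fun z : F × F => fderiv ℝ (fderiv ℝ f) z.1 z.2 z.2) (v₀, y) :=
      ContinuousAt.clm_apply (ContinuousAt.clm_apply
        (ContinuousAt.comp (f := Prod.fst) hc2 continuousAt_fst) continuousAt_snd) continuousAt_snd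
    by_cases hz : fderiv ℝ f v₀ y = 0
    · have h2 := h y hy.2 hy0 hz
      filter_upwards [hcg.eventually (lt_mem_nhds h2)] with z hz
      exact Or.inr hz
    · filter_upwards [hcf.eventually_ne hz] with z hz
      exact Or.inl hz

/-- Quasi-convexity near a point in the directions of a subspace on which the form is positive. -/
theorem near_qconv {U : Set F} (hU : IsOpen U) {f : F → ℝ} (hf : ContDiffOn ℝ 2 f U) {v₀ : F}
    (hv₀ : v₀ ∈ U) (S : Submodule ℝ F)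
    (h : ∀ u ∈ S, u ≠ 0 → fderiv ℝ f v₀ u = 0 → 0 < fderiv ℝ (fderiv ℝ f) v₀ u u) :
    ∃ R > 0, ∀ v ∈ closedBall v₀ R, ∀ w ∈ closedBall v₀ R, w - v ∈ S →
      ∀ x y : ℝ, 0 ≤ x → 0 ≤ y → x + y = 1 → f (x • v + y • w) ≤ max (f v) (f w) := by
  have h1 := (near_strict hU hf hv₀ S h).and (hU.mem_nhds hv₀)
  obtain ⟨R, hR, hball⟩ := Metric.nhds_basis_closedBall.mem_iff.1 h1
  refine ⟨R, hR, ?_⟩
  intro v hv w hw hS x y hx hy hxy
  by_cases hvw : w - v = 0
  · have : w = v := sub_eq_zero.1 hvw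
    rw [this, ← add_smul, hxy, one_smul]
    exact le_max_left _ _
  have hseg : ∀ t ∈ Icc (0:ℝ) 1, v + t • (w - v) ∈ closedBall v₀ R := by
    intro t ht
    have := (convex_closedBall v₀ R) hv hw (show 0 ≤ 1 - t by linarith [ht.2]) ht.1 (by ring)
    have e : v + t • (w - v) = (1 - t) • v + t • w := by module
    rw [e]
    exact this
  have h2 := qconv_seg hU hf (fun t ht => (hball (hseg t ht)).2) 0 v₀ (fun t ht h0 => ?_) hx hy hxy
  · simpa using h2
  · rw [zero_mul, add_zero] at h0 ⊢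
    exact (hball (hseg t ht)).1 _ hS hvw h0

end

end Pool.Agent.V5helper34.KC.Mx
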