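import Pool.Agent.V5helper34.KC.C2

set_option autoImplicit false

/-!
# Local data of a function of class `C^2` with a nondegenerate or semidefinite form
-/

open MeasureTheory Set Filter Topology ENNReal NNReal Metric

open scoped RealInnerProductSpace

namespace Pool.Agent.V5helper34.KC.Mx

theorem SaddleData.shrink {ι₁ ι₂ : Type} [Fintype ι₁] [Fintype ι₂] {F : Type*}
    [NormedAddCommGroup F] [InnerProductSpace ℝ F] {f : F → ℝ} {v₀ v : F}
    {b : OrthonormalBasis (Option (ι₁ ⊕ ι₂)) ℝ F} {R L c : ℝ} (h : SaddleData f v₀ b R L c)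
    (hv : v ∈ closedBall v₀ (R / 2)) : SaddleData f v b (R / 2) L c := by
  have hsub : closedBall v (R / 2) ⊆ closedBall v₀ R := by
    apply closedBall_subset_closedBall'
    have : dist v v₀ ≤ R / 2 := hv
    linarith
  exact ⟨half_pos h.hR, h.hL, h.hc, fun v hv w hw => h.lip v (hsub hv) w (hsub hw),
    fun v hv t ht hvt => h.inc v (hsub hv) t ht (hsub hvt),
    fun v hv w hw => h.qc v (hsub hv) w (hsub hw), fun v hv w hw => h.qv v (hsub hv) w (hsub hw)⟩

/-- The existence of local data is an open condition. -/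
theorem HasSaddle.near {d : ℕ} {f : E d → ℝ} {v₀ : E d} (h : HasSaddle f v₀) :
    ∃ r > 0, ∀ v ∈ ball v₀ r, HasSaddle f v := by
  obtain ⟨ι₁, ι₂, i1, i2, i3, i4, b, R, L, c, hd⟩ := h
  exact ⟨R / 2, half_pos hd.hR, fun v hv => ⟨ι₁, ι₂, i1, i2, i3, i4, b, R / 2, L, c,
    hd.shrink (ball_subset_closedBall hv)⟩⟩

theorem near_inc {F : Type*} [NormedAddCommGroup F] [InnerProductSpace ℝ F] {U : Set F}
    (hU : IsOpen U) {f : F → ℝ} (hf : ContDiffOn ℝ 2 f U) {v₀ : F} (hv₀ : v₀ ∈ U) {e : F}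
    (hb : 0 < fderiv ℝ f v₀ e) : ∃ R > 0, ∃ L > 0, ∃ c > 0,
      (∀ v ∈ closedBall v₀ R, ∀ w ∈ closedBall v₀ R, |f v - f w| ≤ L * ‖v - w‖) ∧
      ∀ v ∈ closedBall v₀ R, ∀ h : ℝ, 0 ≤ h → v + h • e ∈ closedBall v₀ R →
        c * h ≤ f (v + h • e) - f v := by
  have h1 : ContDiffAt ℝ 2 f v₀ := hf.contDiffAt (hU.mem_nhds hv₀)
  obtain ⟨K, t, ht, hK⟩ := (h1.of_le (show (1 : WithTop ℕ∞) ≤ 2 by norm_num)).exists_lipschitzOnWith
  set c : ℝ := fderiv ℝ f v₀ e / 2 with hc
  have hc0 : 0 < c := half_pos hb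
  have hcont : ContinuousAt (fun v => fderiv ℝ f v e) v₀ :=
    (c2_facts hU hf hv₀).2.1.continuousAt.clm_apply continuousAt_const
  have hev : ∀ᶠ v in 𝓝 v₀, c < fderiv ℝ f v e :=
    hcont.eventually (lt_mem_nhds (by rw [hc]; linarith))
  have hall := (hev.and (hU.mem_nhds hv₀)).and ht
  obtain ⟨R, hRpos, hball⟩ := Metric.nhds_basis_closedBall.mem_iff.1 hall
  refine ⟨R, hRpos, K + 1, by positivity, c, hc0, ?_, ?_⟩
  · intro v hv w hw
    have h2 := hK.dist_le_mul v (hball hv).2 w (hball hw).2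
    rw [Real.dist_eq, dist_eq_norm] at h2
    refine h2.trans ?_
    apply mul_le_mul_of_nonneg_right _ (norm_nonneg _)
    linarith
  · intro v hv h hh hvh
    have hseg : ∀ s ∈ Icc (0:ℝ) h, v + s • e ∈ closedBall v₀ R := by
      intro s hs
      rcases eq_or_lt_of_le hh with h0 | h0
      · rw [← h0] at hs
        have : s = 0 := le_antisymm hs.2 hs.1
        rw [this, zero_smul, add_zero]
        exact hv
      · have e1 : v + s • e = (1 - s / h) • v + (s / h) • (v + h • e) := by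
          rw [smul_add, smul_smul, div_mul_cancel₀ _ h0.ne']
          module
        rw [e1]
        refine (convex_closedBall v₀ R) hv hvh ?_ (div_nonneg hs.1 hh) (by ring)
        have : s / h ≤ 1 := (div_le_one h0).2 hs.2
        linarith
    have hd : ∀ s ∈ Icc (0:ℝ) h, HasDerivAt (fun s => f (v + s • e))
        (fderiv ℝ f (v + s • e) e) s := by
      intro s hs
      have e1 : HasDerivAt (fun s : ℝ => v + s • e) e s := by
        have h1 : HasDerivAt (fun t : ℝ => t • e) ((1 : ℝ) • e) s :=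
          (hasDerivAt_id s).smul_const e
        rw [one_smul] at h1
        exact h1.const_add v
      exact (c2_facts hU hf (hball (hseg s hs)).1.2).1.hasFDerivAt.comp_hasDerivAt s e1
    have h2 := Convex.mul_sub_le_image_sub_of_le_deriv (convex_Icc 0 h)
      (f := fun s => f (v + s • e))
      (fun s hs => (hd s hs).continuousAt.continuousWithinAt)
      (fun s hs => (hd s (interior_subset hs)).differentiableAt.differentiableWithinAt)
      (C := c) (fun s hs => by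
        rw [(hd s (interior_subset hs)).deriv]
        exact (hball (hseg s (interior_subset hs))).1.1.le) 0 ⟨le_rfl, hh⟩ h ⟨hh, le_rfl⟩ hh
    simpa using h2

theorem hasSaddle_of {d : ℕ} {U : Set (E d)} (hU : IsOpen U) {f : E d → ℝ}
    (hf : ContDiffOn ℝ 2 f U) {v₀ : E d} (hv₀ : v₀ ∈ U) {ι₁ ι₂ : Type} [i1 : Fintype ι₁]
    [i2 : Fintype ι₂] [i3 : DecidableEq ι₁] [i4 : DecidableEq ι₂]
    (b : OrthonormalBasis (Option (ι₁ ⊕ ι₂)) ℝ (E d)) (hb : 0 < fderiv ℝ f v₀ (b none))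
    {R₀ : ℝ} (hR₀ : 0 < R₀)
    (hqc : ∀ v ∈ closedBall v₀ R₀, ∀ w ∈ closedBall v₀ R₀,
      (∀ j, ⟪b (some (Sum.inr j)), w - v⟫ = 0) →
      ∀ x y : ℝ, 0 ≤ x → 0 ≤ y → x + y = 1 → min (f v) (f w) ≤ f (x • v + y • w))
    (hqv : ∀ v ∈ closedBall v₀ R₀, ∀ w ∈ closedBall v₀ R₀,
      (∀ i, ⟪b (some (Sum.inl i)), w - v⟫ = 0) →
      ∀ x y : ℝ, 0 ≤ x → 0 ≤ y → x + y = 1 → f (x • v + y • w) ≤ max (f v) (f w)) :
    HasSaddle f v₀ := by
  obtain ⟨R₁, hR₁, L, hL, c, hc0, hlip, hinc⟩ := near_inc hU hf hv₀ hb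
  set R : ℝ := min R₀ R₁ with hR
  have hRpos : 0 < R := lt_min hR₀ hR₁
  have hs0 : closedBall v₀ R ⊆ closedBall v₀ R₀ := closedBall_subset_closedBall (min_le_left _ _)
  have hs1 : closedBall v₀ R ⊆ closedBall v₀ R₁ := closedBall_subset_closedBall (min_le_right _ _)
  exact ⟨ι₁, ι₂, i1, i2, i3, i4, b, R, L, c, hRpos, hL, hc0,
    fun v hv w hw => hlip v (hs1 hv) w (hs1 hw),
    fun v hv h hh hvh => hinc v (hs1 hv) h hh (hs1 hvh),
    fun v hv w hw => hqc v (hs0 hv) w (hs0 hw), fun v hv w hw => hqv v (hs0 hv) w (hs0 hw)⟩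

/-- Monotonicity on the lines parallel to `e`. -/
theorem near_line {F : Type*} [NormedAddCommGroup F] [InnerProductSpace ℝ F] {U : Set F}
    (hU : IsOpen U) {f : F → ℝ} (hf : ContDiffOn ℝ 2 f U) {v₀ : F} (hv₀ : v₀ ∈ U) {e : F}
    (hb : 0 < fderiv ℝ f v₀ e) : ∃ R > 0, ∀ v ∈ closedBall v₀ R, ∀ w ∈ closedBall v₀ R,
      (∃ s : ℝ, w - v = s • e) → ∀ x y : ℝ, 0 ≤ x → 0 ≤ y → x + y = 1 →
        min (f v) (f w) ≤ f (x • v + y • w) ∧ f (x • v + y • w) ≤ max (f v) (f w) := by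
  obtain ⟨R, hR, L, _, c, hc, _, hinc⟩ := near_inc hU hf hv₀ hb
  have key : ∀ v ∈ closedBall v₀ R, ∀ w ∈ closedBall v₀ R, ∀ s : ℝ, 0 ≤ s → w - v = s • e →
      ∀ x y : ℝ, 0 ≤ x → 0 ≤ y → x + y = 1 → f v ≤ f (x • v + y • w) ∧ f (x • v + y • w) ≤ f w := by
    intro v hv w hw s hs hsw x y hx hy hxy
    have hwv : w = v + s • e := by rw [← hsw]; abel
    have hm := (convex_closedBall v₀ R) hv hw hx hy hxy
    have e1 : x • v + y • w = v + (y * s) • e := by
      rw [hwv, show x = 1 - y by linarith]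
      module
    have e2 : w = (x • v + y • w) + (x * s) • e := by
      rw [hwv, show x = 1 - y by linarith]
      module
    constructor
    · have h1 := hinc v hv (y * s) (by positivity) (by rw [← e1]; exact hm)
      rw [← e1] at h1
      have : 0 ≤ c * (y * s) := by positivity
      linarith
    · have h1 := hinc _ hm (x * s) (by positivity) (by rw [← e2]; exact hw)
      rw [← e2] at h1
      have : 0 ≤ c * (x * s) := by positivity
      linarith
  refine ⟨R, hR, ?_⟩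
  rintro v hv w hw ⟨s, hs⟩ x y hx hy hxy
  rcases le_total 0 s with h | h
  · obtain ⟨h1, h2⟩ := key v hv w hw s h hs x y hx hy hxy
    exact ⟨(min_le_left _ _).trans h1, h2.trans (le_max_right _ _)⟩
  · obtain ⟨h1, h2⟩ := key w hw v hv (-s) (by linarith) (by rw [neg_smul, ← hs]; abel) y x hy hx
      (by linarith)
    rw [add_comm] at h1 h2
    exact ⟨(min_le_right _ _).trans h1, h2.trans (le_max_left _ _)⟩

theorem fderiv_neg_all {F : Type*} [NormedAddCommGroup F] [NormedSpace ℝ F] (f : F → ℝ) (v : F) :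
    fderiv ℝ (fun x => -f x) v = -fderiv ℝ f v ∧
      fderiv ℝ (fderiv ℝ (fun x => -f x)) v = -fderiv ℝ (fderiv ℝ f) v := by
  have h1 : fderiv ℝ (fun x => -f x) = fun v => -fderiv ℝ f v := by
    ext1 v
    exact fderiv_fun_neg
  refine ⟨by rw [h1], ?_⟩
  rw [h1]
  exact fderiv_fun_neg

/-- **Nonzero curvature of the level set gives the local data.** -/
theorem hasSaddle_of_nondeg {d : ℕ} {U : Set (E d)} (hU : IsOpen U) {f : E d → ℝ}
    (hf : ContDiffOn ℝ 2 f U) {v₀ : E d} (hv₀ : v₀ ∈ U) (h0 : fderiv ℝ f v₀ ≠ 0)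
    (hnd : ∀ u, fderiv ℝ f v₀ u = 0 → u ≠ 0 → ∃ w, fderiv ℝ f v₀ w = 0 ∧
      fderiv ℝ (fderiv ℝ f) v₀ u w ≠ 0) : HasSaddle f v₀ := by
  have hsymm : ∀ u w, fderiv ℝ (fderiv ℝ f) v₀ u w = fderiv ℝ (fderiv ℝ f) v₀ w u := by
    have h1 : ContDiffAt ℝ 2 f v₀ := hf.contDiffAt (hU.mem_nhds hv₀)
    exact h1.isSymmSndFDerivAt (by simp)
  obtain ⟨ι₁, ι₂, i1, i2, i3, i4, b, hb, _, hneg, hpos⟩ := spectral _ h0 _ hsymm hnd
  set S₁ : Submodule ℝ (E d) :=
    { carrier := {u | ∀ j, ⟪b (some (Sum.inr j)), u⟫ = 0}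
      add_mem' := by
        intro x y hx hy j
        rw [inner_add_right, hx j, hy j, add_zero]
      zero_mem' := by
        intro j
        rw [inner_zero_right]
      smul_mem' := by
        intro c x hx j
        rw [real_inner_smul_right, hx j, mul_zero] } with hS₁
  set S₂ : Submodule ℝ (E d) :=
    { carrier := {u | ∀ i, ⟪b (some (Sum.inl i)), u⟫ = 0}
      add_mem' := by
        intro x y hx hy j
        rw [inner_add_right, hx j, hy j, add_zero]
      zero_mem' := by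
        intro j
        rw [inner_zero_right]
      smul_mem' := by
        intro c x hx j
        rw [real_inner_smul_right, hx j, mul_zero] } with hS₂
  obtain ⟨R₂, hR₂, h2⟩ := near_qconv hU hf hv₀ S₂ (fun u hu hu0 hfu => hpos u hu hfu hu0)
  obtain ⟨R₁, hR₁, h1⟩ := near_qconv hU hf.neg hv₀ S₁ (fun u hu hu0 hfu => by
    obtain ⟨e1, e2⟩ := fderiv_neg_all f v₀
    change fderiv ℝ (fun x => -f x) v₀ u = 0 at hfu
    change 0 < fderiv ℝ (fderiv ℝ (fun x => -f x)) v₀ u u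
    rw [e1] at hfu
    rw [e2]
    have hfu' : fderiv ℝ f v₀ u = 0 := by
      have : -(fderiv ℝ f v₀ u) = 0 := hfu
      linarith
    have := hneg u hu hfu' hu0
    change 0 < -(fderiv ℝ (fderiv ℝ f) v₀ u u)
    linarith)
  refine hasSaddle_of hU hf hv₀ b hb (lt_min hR₁ hR₂) ?_ ?_
  · intro v hv w hw hp x y hx hy hxy
    have e1 : closedBall v₀ (min R₁ R₂) ⊆ closedBall v₀ R₁ :=
      closedBall_subset_closedBall (min_le_left _ _)
    have e2 := h1 v (e1 hv) w (e1 hw) hp x y hx hy hxy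
    rw [max_neg_neg] at e2
    linarith
  · intro v hv w hw hp x y hx hy hxy
    have e1 : closedBall v₀ (min R₁ R₂) ⊆ closedBall v₀ R₂ :=
      closedBall_subset_closedBall (min_le_right _ _)
    exact h2 v (e1 hv) w (e1 hw) hp x y hx hy hxy

end Pool.Agent.V5helper34.KC.Mx
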