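import Pool.Agent.V5helper34.KC.C2b

set_option autoImplicit false

/-!
# Semidefinite forms
-/

open MeasureTheory Set Filter Topology ENNReal NNReal Metric

open scoped RealInnerProductSpace

namespace Pool.Agent.V5helper34.KC.Mx

/-- Quasi-convexity when the form is positive semidefinite on the kernels near a point. -/
theorem near_semi {F : Type*} [NormedAddCommGroup F] [InnerProductSpace ℝ F] {U : Set F}
    (hU : IsOpen U) {f : F → ℝ} (hf : ContDiffOn ℝ 2 f U) {v₀ : F} (hv₀ : v₀ ∈ U) {e : F}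
    (he : ‖e‖ = 1) (hb : 0 < fderiv ℝ f v₀ e)
    (hs : ∀ᶠ v in 𝓝 v₀, ∀ u, fderiv ℝ f v u = 0 → 0 ≤ fderiv ℝ (fderiv ℝ f) v u u) :
    ∃ R > 0, ∀ v ∈ closedBall v₀ R, ∀ w ∈ closedBall v₀ R,
      ∀ x y : ℝ, 0 ≤ x → 0 ≤ y → x + y = 1 → f (x • v + y • w) ≤ max (f v) (f w) := by
  obtain ⟨_, hd1, hc2⟩ := c2_facts hU hf hv₀
  set c : ℝ := fderiv ℝ f v₀ e / 2 with hc
  have hc0 : 0 < c := half_pos hb
  set M : ℝ := ‖fderiv ℝ (fderiv ℝ f) v₀‖ + 1 with hM
  have hM1 : 1 ≤ M := by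
    have := norm_nonneg (fderiv ℝ (fderiv ℝ f) v₀)
    linarith
  have hM0 : 0 < M := by linarith
  have hcont : ContinuousAt (fun v => fderiv ℝ f v e) v₀ :=
    hd1.continuousAt.clm_apply continuousAt_const
  have hev : ∀ᶠ v in 𝓝 v₀, c < fderiv ℝ f v e :=
    hcont.eventually (lt_mem_nhds (by rw [hc]; linarith))
  have hMlt : ‖fderiv ℝ (fderiv ℝ f) v₀‖ < M := by
    rw [hM]
    linarith
  have hcn : ContinuousAt (fun v => ‖fderiv ℝ (fderiv ℝ f) v‖) v₀ :=
    ContinuousAt.norm (E := F →L[ℝ] F →L[ℝ] ℝ) hc2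
  have hev2 : ∀ᶠ v in 𝓝 v₀, ‖fderiv ℝ (fderiv ℝ f) v‖ < M :=
    hcn.eventually (gt_mem_nhds hMlt)
  have hall := ((hev.and hev2).and (hU.mem_nhds hv₀)).and hs
  obtain ⟨R₁, hR₁, hball⟩ := Metric.nhds_basis_closedBall.mem_iff.1 hall
  set R : ℝ := min R₁ (c / (10 * M)) with hR
  have hRpos : 0 < R := lt_min hR₁ (by positivity)
  have hsub : closedBall v₀ R ⊆ closedBall v₀ R₁ := closedBall_subset_closedBall (min_le_left _ _)
  have hRc : 10 * M * R ≤ c := by
    have : R ≤ c / (10 * M) := min_le_right _ _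
    rw [le_div_iff₀ (by positivity)] at this
    linarith
  refine ⟨R, hRpos, ?_⟩
  intro v hv w hw x y hx hy hxy
  by_cases hvw : w - v = 0
  · have : w = v := sub_eq_zero.1 hvw
    rw [this, ← add_smul, hxy, one_smul]
    exact le_max_left _ _
  have hseg : ∀ t ∈ Icc (0:ℝ) 1, v + t • (w - v) ∈ closedBall v₀ R := by
    intro t ht
    have := (convex_closedBall v₀ R) hv hw (show 0 ≤ 1 - t by linarith [ht.2]) ht.1 (by ring)
    have e : v + t • (w - v) = (1 - t) • v + t • w := by module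
    rw [e]
    exact this
  have hnorm : ∀ p ∈ closedBall v₀ R, ‖p - v₀‖ ≤ R := fun p hp => by
    rw [← dist_eq_norm]
    exact hp
  -- the perturbed inequality
  have hpert : ∀ ε : ℝ, 0 < ε → ε ≤ 1 →
      f (x • v + y • w) ≤ max (f v) (f w) + ε / 2 * R ^ 2 := by
    intro ε hε hε1
    have h2 := qconv_seg hU hf (fun t ht => (hball (hsub (hseg t ht))).1.2) ε v₀
      (fun t ht h0 => ?_) hx hy hxy
    · have e1 : ε / 2 * ‖v - v₀‖ ^ 2 ≤ ε / 2 * R ^ 2 := by
        apply mul_le_mul_of_nonneg_left _ (by positivity)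
        exact pow_le_pow_left₀ (norm_nonneg _) (hnorm v hv) 2
      have e2 : ε / 2 * ‖w - v₀‖ ^ 2 ≤ ε / 2 * R ^ 2 := by
        apply mul_le_mul_of_nonneg_left _ (by positivity)
        exact pow_le_pow_left₀ (norm_nonneg _) (hnorm w hw) 2
      have e3 : 0 ≤ ε / 2 * ‖x • v + y • w - v₀‖ ^ 2 := by positivity
      have e4 : max (f v + ε / 2 * ‖v - v₀‖ ^ 2) (f w + ε / 2 * ‖w - v₀‖ ^ 2) ≤
          max (f v) (f w) + ε / 2 * R ^ 2 :=
        max_le (add_le_add (le_max_left _ _) e1) (add_le_add (le_max_right _ _) e2)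
      linarith
    · set u : F := w - v with hu
      set p : F := v + t • u with hp
      obtain ⟨⟨⟨k1, k2⟩, k3⟩, k4⟩ := hball (hsub (hseg t ht))
      have hpn : ‖p - v₀‖ ≤ R := hnorm p (hseg t ht)
      have hun : 0 < ‖u‖ := norm_pos_iff.2 hvw
      set D := fderiv ℝ f p with hD
      set B := fderiv ℝ (fderiv ℝ f) p with hB
      have hDe : 0 < D e := hc0.trans k1
      set a : ℝ := D u / D e with ha
      have hae : a * D e = D u := div_mul_cancel₀ _ hDe.ne'
      have hDu : |D u| ≤ ε * (R * ‖u‖) := by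
        have e1 : D u = -(ε * ⟪p - v₀, u⟫) := by linarith
        rw [e1, abs_neg, abs_mul, abs_of_pos hε]
        apply mul_le_mul_of_nonneg_left _ hε.le
        exact (abs_real_inner_le_norm _ _).trans (mul_le_mul_of_nonneg_right hpn (norm_nonneg _))
      have hca : c * |a| ≤ ε * (R * ‖u‖) := by
        calc c * |a| ≤ D e * |a| := mul_le_mul_of_nonneg_right k1.le (abs_nonneg _)
          _ = |a * D e| := by rw [abs_mul, abs_of_pos hDe, mul_comm]
          _ = |D u| := by rw [hae]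
          _ ≤ _ := hDu
      set u' : F := u - a • e with hu'
      have hDu' : D u' = 0 := by
        rw [hu', map_sub, map_smul, smul_eq_mul, hae, sub_self]
      have hpos := k4 u' hDu'
      have huu : u = u' + a • e := by rw [hu']; abel
      have hexp : B u u = B u' u' + a * B u' e + a * B e u' + a * a * B e e := by
        conv_lhs => rw [huu]
        simp only [map_add, map_smul, add_apply, smul_apply, smul_eq_mul]
        ring
      have hBn : ∀ p q : F, |B p q| ≤ M * (‖p‖ * ‖q‖) := by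
        intro p q
        have e1 : |B p q| ≤ ‖B p‖ * ‖q‖ := (B p).le_opNorm q
        have e2 : ‖B p‖ ≤ ‖B‖ * ‖p‖ := B.le_opNorm p
        have e3 : ‖B‖ * ‖p‖ ≤ M * ‖p‖ := mul_le_mul_of_nonneg_right k2.le (norm_nonneg _)
        calc |B p q| ≤ ‖B p‖ * ‖q‖ := e1
          _ ≤ (M * ‖p‖) * ‖q‖ := mul_le_mul_of_nonneg_right (e2.trans e3) (norm_nonneg _)
          _ = _ := by ring
      have hu'n : ‖u'‖ ≤ ‖u‖ + |a| := by
        have := norm_sub_le u (a • e)
        rwa [norm_smul, he, mul_one, Real.norm_eq_abs] at this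
      -- |a| ≤ |u| / (10 M) ε
      have ha1 : 10 * M * |a| ≤ ε * ‖u‖ := by
        have e1 : c * (10 * M * |a|) ≤ c * (ε * ‖u‖) := by
          calc c * (10 * M * |a|) = 10 * M * (c * |a|) := by ring
            _ ≤ 10 * M * (ε * (R * ‖u‖)) := mul_le_mul_of_nonneg_left hca (by positivity)
            _ = (10 * M * R) * (ε * ‖u‖) := by ring
            _ ≤ c * (ε * ‖u‖) := mul_le_mul_of_nonneg_right hRc (by positivity)
        exact le_of_mul_le_mul_left e1 hc0
      have ha0 : 0 ≤ |a| := abs_nonneg a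
      have ha2 : |a| ≤ ‖u‖ := by
        have e1 : |a| ≤ 10 * M * |a| := by nlinarith
        have e2 : ε * ‖u‖ ≤ 1 * ‖u‖ := mul_le_mul_of_nonneg_right hε1 hun.le
        linarith
      have t1 : |a * B u' e| ≤ |a| * (M * (2 * ‖u‖)) := by
        rw [abs_mul]
        apply mul_le_mul_of_nonneg_left _ ha0
        refine (hBn u' e).trans ?_
        rw [he, mul_one]
        apply mul_le_mul_of_nonneg_left _ hM0.le
        linarith
      have t2 : |a * B e u'| ≤ |a| * (M * (2 * ‖u‖)) := by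
        rw [abs_mul]
        apply mul_le_mul_of_nonneg_left _ ha0
        refine (hBn e u').trans ?_
        rw [he, one_mul]
        apply mul_le_mul_of_nonneg_left _ hM0.le
        linarith
      have t3 : |a * a * B e e| ≤ |a| * (M * ‖u‖) := by
        rw [abs_mul, abs_mul, mul_assoc]
        apply mul_le_mul_of_nonneg_left _ ha0
        calc |a| * |B e e| ≤ ‖u‖ * (M * (‖e‖ * ‖e‖)) :=
              mul_le_mul ha2 (hBn e e) (abs_nonneg _) hun.le
          _ = M * ‖u‖ := by rw [he]; ring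
      have t4 : 5 * (M * |a|) * ‖u‖ ≤ ε / 2 * (‖u‖ * ‖u‖) := by
        have : 5 * (M * |a|) ≤ ε / 2 * ‖u‖ := by linarith
        calc 5 * (M * |a|) * ‖u‖ ≤ ε / 2 * ‖u‖ * ‖u‖ := mul_le_mul_of_nonneg_right this hun.le
          _ = _ := by ring
      have t5 : 0 < ε * (‖u‖ * ‖u‖) := by positivity
      rw [real_inner_self_eq_norm_mul_norm, hexp]
      have s1 := neg_abs_le (a * B u' e)
      have s2 := neg_abs_le (a * B e u')
      have s3 := neg_abs_le (a * a * B e e)
      nlinarith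
  -- passing to the limit
  apply _root_.le_of_forall_pos_le_add
  intro δ hδ
  set ε : ℝ := min 1 (δ / R ^ 2) with hε
  have hε0 : 0 < ε := lt_min one_pos (by positivity)
  refine (hpert ε hε0 (min_le_left _ _)).trans ?_
  have h1 : ε ≤ δ / R ^ 2 := min_le_right _ _
  rw [le_div_iff₀ (by positivity)] at h1
  have : 0 < R ^ 2 := by positivity
  nlinarith

theorem hasSaddle_of_semi_pos {d : ℕ} {U : Set (E d)} (hU : IsOpen U) {f : E d → ℝ}
    (hf : ContDiffOn ℝ 2 f U) {v₀ : E d} (hv₀ : v₀ ∈ U) (h0 : fderiv ℝ f v₀ ≠ 0)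
    (hs : ∀ᶠ v in 𝓝 v₀, ∀ u, fderiv ℝ f v u = 0 → 0 ≤ fderiv ℝ (fderiv ℝ f) v u u) :
    HasSaddle f v₀ := by
  obtain ⟨ι₁, ι₂, i1, i2, i3, i4, b, hb, hker, hneg, _⟩ := spectral _ h0 (innerSL ℝ)
    (fun u w => by
      change ⟪u, w⟫ = ⟪w, u⟫
      rw [real_inner_comm]) (fun u hu hu0 => ⟨u, hu, by
      change ⟪u, u⟫ ≠ 0
      rw [real_inner_self_eq_norm_sq]
      exact pow_ne_zero 2 (norm_ne_zero_iff.2 hu0)⟩)
  have hemp : IsEmpty ι₁ := by
    constructor
    intro i
    have h1 := hneg (b (some (Sum.inl i))) (fun j => by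
      rw [b.inner_eq_ite]
      simp) (hker _) (b.orthonormal.ne_zero _)
    have h2 : (innerSL ℝ (b (some (Sum.inl i)))) (b (some (Sum.inl i))) =
        ⟪b (some (Sum.inl i)), b (some (Sum.inl i))⟫ := rfl
    rw [h2] at h1
    exact absurd h1 (not_lt.2 real_inner_self_nonneg)
  obtain ⟨R₁, hR₁, h1⟩ := near_semi hU hf hv₀ (b.norm_eq_one none) hb hs
  obtain ⟨R₂, hR₂, h2⟩ := near_line hU hf hv₀ hb
  refine hasSaddle_of hU hf hv₀ b hb (lt_min hR₁ hR₂) ?_ ?_
  · intro v hv w hw hp x y hx hy hxy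
    have e1 : closedBall v₀ (min R₁ R₂) ⊆ closedBall v₀ R₂ :=
      closedBall_subset_closedBall (min_le_right _ _)
    refine (h2 v (e1 hv) w (e1 hw) ⟨⟪b none, w - v⟫, ?_⟩ x y hx hy hxy).1
    have e2 := decomp b (w - v)
    have e3 : Lin b (co b (w - v)) = 0 := by
      unfold Lin co
      simp only [hp, zero_smul, Finset.sum_const_zero, add_zero]
      exact Fintype.sum_empty _
    rw [e3, add_zero] at e2
    exact e2.symm
  · intro v hv w hw _ x y hx hy hxy
    have e1 : closedBall v₀ (min R₁ R₂) ⊆ closedBall v₀ R₁ :=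
      closedBall_subset_closedBall (min_le_left _ _)
    exact h1 v (e1 hv) w (e1 hw) x y hx hy hxy

theorem hasSaddle_of_semi_neg {d : ℕ} {U : Set (E d)} (hU : IsOpen U) {f : E d → ℝ}
    (hf : ContDiffOn ℝ 2 f U) {v₀ : E d} (hv₀ : v₀ ∈ U) (h0 : fderiv ℝ f v₀ ≠ 0)
    (hs : ∀ᶠ v in 𝓝 v₀, ∀ u, fderiv ℝ f v u = 0 → fderiv ℝ (fderiv ℝ f) v u u ≤ 0) :
    HasSaddle f v₀ := by
  obtain ⟨ι₁, ι₂, i1, i2, i3, i4, b, hb, hker, _, hpos⟩ := spectral _ h0 (-innerSL ℝ)
    (fun u w => by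
      change -⟪u, w⟫ = -⟪w, u⟫
      rw [real_inner_comm]) (fun u hu hu0 => ⟨u, hu, by
      change -⟪u, u⟫ ≠ 0
      rw [real_inner_self_eq_norm_sq]
      exact neg_ne_zero.2 (pow_ne_zero 2 (norm_ne_zero_iff.2 hu0))⟩)
  have hemp : IsEmpty ι₂ := by
    constructor
    intro i
    have h1 := hpos (b (some (Sum.inr i))) (fun j => by
      rw [b.inner_eq_ite]
      simp) (hker _) (b.orthonormal.ne_zero _)
    have h2 : ((-innerSL ℝ : E d →L[ℝ] E d →L[ℝ] ℝ) (b (some (Sum.inr i)))) (b (some (Sum.inr i))) =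
        -⟪b (some (Sum.inr i)), b (some (Sum.inr i))⟫ := rfl
    rw [h2] at h1
    have := real_inner_self_nonneg (x := b (some (Sum.inr i)))
    linarith
  obtain ⟨e1, e2⟩ := fderiv_neg_all f v₀
  obtain ⟨R₁, hR₁, h1⟩ := near_semi (e := -b none) hU hf.neg hv₀
    (by rw [norm_neg]; exact b.norm_eq_one none) (by
      change 0 < fderiv ℝ (fun x => -f x) v₀ (-b none)
      rw [e1]
      change 0 < -(fderiv ℝ f v₀ (-b none))
      rw [map_neg, neg_neg]
      exact hb) (by
      filter_upwards [hs] with v hv u hu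
      obtain ⟨k1, k2⟩ := fderiv_neg_all f v
      change fderiv ℝ (fun x => -f x) v u = 0 at hu
      change 0 ≤ fderiv ℝ (fderiv ℝ (fun x => -f x)) v u u
      rw [k1] at hu
      rw [k2]
      have hu' : fderiv ℝ f v u = 0 := by
        have : -(fderiv ℝ f v u) = 0 := hu
        linarith
      have := hv u hu'
      change 0 ≤ -(fderiv ℝ (fderiv ℝ f) v u u)
      linarith)
  obtain ⟨R₂, hR₂, h2⟩ := near_line hU hf hv₀ hb
  refine hasSaddle_of hU hf hv₀ b hb (lt_min hR₁ hR₂) ?_ ?_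
  · intro v hv w hw _ x y hx hy hxy
    have e1 : closedBall v₀ (min R₁ R₂) ⊆ closedBall v₀ R₁ :=
      closedBall_subset_closedBall (min_le_left _ _)
    have e2 := h1 v (e1 hv) w (e1 hw) x y hx hy hxy
    rw [max_neg_neg] at e2
    linarith
  · intro v hv w hw hp x y hx hy hxy
    have e1 : closedBall v₀ (min R₁ R₂) ⊆ closedBall v₀ R₂ :=
      closedBall_subset_closedBall (min_le_right _ _)
    refine (h2 v (e1 hv) w (e1 hw) ⟨⟪b none, w - v⟫, ?_⟩ x y hx hy hxy).2
    have e2 := decomp b (w - v)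
    have e3 : Lin b (co b (w - v)) = 0 := by
      unfold Lin co
      simp only [hp, zero_smul, Finset.sum_const_zero, zero_add]
      exact Fintype.sum_empty _
    rw [e3, add_zero] at e2
    exact e2.symm

end Pool.Agent.V5helper34.KC.Mx
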