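import Pool.Agent.V5helper34.KC.Geo

set_option autoImplicit false

/-!
# Coordinates adapted to the level sets of a convex function
-/

open MeasureTheory Set Filter Topology ENNReal NNReal Metric

open scoped RealInnerProductSpace

namespace Pool.Agent.V5helper34.KC

/-- Euclidean space of dimension `n`. -/
abbrev E (n : ℕ) : Type := EuclideanSpace ℝ (Fin n)

theorem exists_basis {k : ℕ} {e : E (k + 1)} (he : ‖e‖ = 1) :
    ∃ b : OrthonormalBasis (Fin (k + 1)) ℝ (E (k + 1)), b 0 = e := by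
  have hv : Orthonormal ℝ (({0} : Set (Fin (k + 1))).restrict (fun _ => e)) := by
    constructor
    · intro i
      exact he
    · intro i j hij
      exact absurd (Subsingleton.elim i j) hij
  obtain ⟨b, hb⟩ := hv.exists_orthonormalBasis_extension_of_card_eq
    (card_ι := by simp)
  exact ⟨b, hb 0 (mem_singleton _)⟩

/-- the coordinates: the level and the coordinates orthogonal to `b 0` -/
noncomputable def Th {k : ℕ} (f : E (k + 1) → ℝ) (b : OrthonormalBasis (Fin (k + 1)) ℝ (E (k + 1)))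
    (v : E (k + 1)) : ℝ × (Fin k → ℝ) := (f v, fun i => ⟪b i.succ, v⟫)

theorem norm_coord_le {k : ℕ} (b : OrthonormalBasis (Fin (k + 1)) ℝ (E (k + 1)))
    (v : E (k + 1)) (i : Fin (k + 1)) : |⟪b i, v⟫| ≤ ‖v‖ := by
  have := abs_real_inner_le_norm (b i) v
  rwa [b.norm_eq_one, one_mul] at this

theorem anti {k : ℕ} {f : E (k + 1) → ℝ} {b : OrthonormalBasis (Fin (k + 1)) ℝ (E (k + 1))}
    {v0 : E (k + 1)} {R L c : ℝ} (hR : 0 < R) (hc : 0 < c) (hL : 0 < L)
    (hLip : ∀ v ∈ closedBall v0 R, ∀ w ∈ closedBall v0 R, |f v - f w| ≤ L * ‖v - w‖)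
    (hinc : ∀ v ∈ closedBall v0 R, ∀ h : ℝ, 0 ≤ h → v + h • b 0 ∈ closedBall v0 R →
        c * h ≤ f (v + h • b 0) - f v)
    {v w : E (k + 1)} (hv : v ∈ closedBall v0 (R / 4)) (hw : w ∈ closedBall v0 (R / 4)) :
    ‖w - v‖ ≤ (1 / c + (L / c + 1) * k) * dist (Th f b v) (Th f b w) := by
  set h : ℝ := ⟪b 0, w - v⟫ with hh
  set z : E (k + 1) := ∑ i : Fin k, ⟪b i.succ, w - v⟫ • b i.succ with hz
  have hdec : w - v = h • b 0 + z := by
    have := b.sum_repr' (w - v)
    rw [Fin.sum_univ_succ] at this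
    exact this.symm
  set D : ℝ := dist (Th f b v) (Th f b w) with hD
  have hD0 : 0 ≤ D := dist_nonneg
  have hD1 : |f w - f v| ≤ D := by
    rw [hD, Prod.dist_eq, ← Real.dist_eq, dist_comm (f w)]
    exact le_max_left _ _
  have hD2 : ∀ i : Fin k, |⟪b i.succ, w - v⟫| ≤ D := by
    intro i
    have e1 : dist ((Th f b v).2 i) ((Th f b w).2 i) ≤ D := by
      rw [hD, Prod.dist_eq]
      exact (dist_le_pi_dist _ _ i).trans (le_max_right _ _)
    have e2 : (Th f b w).2 i - (Th f b v).2 i = ⟪b i.succ, w - v⟫ := by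
      simp only [Th, inner_sub_right]
    rw [dist_comm, Real.dist_eq, e2] at e1
    exact e1
  have hz1 : ‖z‖ ≤ k * D := by
    calc ‖z‖ ≤ ∑ i : Fin k, ‖⟪b i.succ, w - v⟫ • b i.succ‖ := norm_sum_le _ _
      _ ≤ ∑ _i : Fin k, D := by
          apply Finset.sum_le_sum
          intro i _
          rw [norm_smul, b.norm_eq_one, mul_one, Real.norm_eq_abs]
          exact hD2 i
      _ = k * D := by simp
  have hwv : ‖w - v‖ ≤ R / 2 := by
    rw [← dist_eq_norm]
    calc dist w v ≤ dist w v0 + dist v0 v := dist_triangle _ _ _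
      _ ≤ R / 4 + R / 4 := add_le_add hw (by rw [dist_comm]; exact hv)
      _ = R / 2 := by ring
  have hh1 : |h| ≤ ‖w - v‖ := norm_coord_le b _ 0
  have hsub : closedBall v0 (R / 4) ⊆ closedBall v0 R := closedBall_subset_closedBall (by linarith)
  have hm : w - h • b 0 ∈ closedBall v0 R := by
    rw [mem_closedBall]
    have hwd : dist w v0 ≤ R / 4 := hw
    calc dist (w - h • b 0) v0 ≤ dist (w - h • b 0) w + dist w v0 := dist_triangle _ _ _
      _ ≤ R / 2 + R / 4 := by
          refine add_le_add ?_ hwd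
          rw [dist_eq_norm, sub_sub_cancel_left, norm_neg, norm_smul, b.norm_eq_one, mul_one,
            Real.norm_eq_abs]
          exact hh1.trans hwv
      _ ≤ R := by linarith
  have hvz : w - h • b 0 - v = z := by
    have e : w - h • b 0 - v = (w - v) - h • b 0 := by abel
    rw [e, hdec]
    abel
  have hmain : c * |h| ≤ |f w - f (w - h • b 0)| := by
    rcases le_total 0 h with h0 | h0
    · have e1 := hinc (w - h • b 0) hm h h0 (by
        rw [sub_add_cancel]
        exact hsub hw)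
      rw [sub_add_cancel] at e1
      rw [abs_of_nonneg h0]
      exact e1.trans (le_abs_self _)
    · have e1 := hinc w (hsub hw) (-h) (by linarith) (by
        rw [neg_smul, ← sub_eq_add_neg]
        exact hm)
      rw [neg_smul, ← sub_eq_add_neg] at e1
      rw [abs_of_nonpos h0, abs_sub_comm]
      exact e1.trans (le_abs_self _)
  have h3 : c * |h| ≤ D + L * (k * D) := by
    have e1 : |f w - f (w - h • b 0)| ≤ |f w - f v| + |f v - f (w - h • b 0)| := abs_sub_le _ _ _
    have e2 := hLip v (hsub hv) (w - h • b 0) hm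
    have e3 : ‖v - (w - h • b 0)‖ = ‖z‖ := by
      rw [← hvz, ← norm_neg]
      congr 1
      abel
    rw [e3] at e2
    have e4 : L * ‖z‖ ≤ L * (k * D) := mul_le_mul_of_nonneg_left hz1 hL.le
    linarith
  have h4 : |h| ≤ (D + L * (k * D)) / c := by
    rw [le_div_iff₀ hc]
    linarith
  calc ‖w - v‖ = ‖h • b 0 + z‖ := by rw [← hdec]
    _ ≤ ‖h • b 0‖ + ‖z‖ := norm_add_le _ _
    _ = |h| + ‖z‖ := by rw [norm_smul, b.norm_eq_one, mul_one, Real.norm_eq_abs]
    _ ≤ (D + L * (k * D)) / c + k * D := add_le_add h4 hz1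
    _ = _ := by field_simp; ring

/-- a globally Lipschitz left inverse of the coordinates -/
theorem exists_chart {k : ℕ} {f : E (k + 1) → ℝ}
    {b : OrthonormalBasis (Fin (k + 1)) ℝ (E (k + 1))}
    {v0 : E (k + 1)} {R L c : ℝ} (hR : 0 < R) (hc : 0 < c) (hL : 0 < L)
    (hLip : ∀ v ∈ closedBall v0 R, ∀ w ∈ closedBall v0 R, |f v - f w| ≤ L * ‖v - w‖)
    (hinc : ∀ v ∈ closedBall v0 R, ∀ h : ℝ, 0 ≤ h → v + h • b 0 ∈ closedBall v0 R →
        c * h ≤ f (v + h • b 0) - f v) :
    ∃ (C : ℝ≥0) (Ψ : ℝ × (Fin k → ℝ) → E (k + 1)), LipschitzWith C Ψ ∧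
      ∀ v ∈ closedBall v0 (R / 4), Ψ (Th f b v) = v := by
  classical
  set B : Set (E (k + 1)) := closedBall v0 (R / 4) with hB
  set C0 : ℝ := 1 / c + (L / c + 1) * k with hC0
  have hC00 : 0 ≤ C0 := by positivity
  have hanti : ∀ v ∈ B, ∀ w ∈ B, ‖w - v‖ ≤ C0 * dist (Th f b v) (Th f b w) :=
    fun v hv w hw => anti hR hc hL hLip hinc hv hw
  have hinj : InjOn (Th f b) B := by
    intro v hv w hw h
    have := hanti v hv w hw
    rw [h, dist_self, mul_zero] at this
    have h2 := norm_le_zero_iff.1 this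
    rw [sub_eq_zero] at h2
    exact h2.symm
  set g : ℝ × (Fin k → ℝ) → E (k + 1) := Function.invFunOn (Th f b) B with hg
  have hgB : ∀ v ∈ B, g (Th f b v) = v := fun v hv =>
    (InjOn.leftInvOn_invFunOn hinj) hv
  have hgL : LipschitzOnWith ⟨C0, hC00⟩ g (Th f b '' B) := by
    apply LipschitzOnWith.of_dist_le_mul
    rintro _ ⟨v, hv, rfl⟩ _ ⟨w, hw, rfl⟩
    rw [hgB v hv, hgB w hw, dist_comm, dist_eq_norm]
    exact hanti v hv w hw
  obtain ⟨Ψ, hΨ, heq⟩ := hgL.extend_finite_dimension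
  refine ⟨_, Ψ, hΨ, fun v hv => ?_⟩
  rw [← heq (mem_image_of_mem _ hv), hgB v hv]

end Pool.Agent.V5helper34.KC
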