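import Pool.Agent.H023R3.KakGen

set_option autoImplicit false

/-!
# Dimension bounds from the measure of the close pairs
-/

open MeasureTheory Set Filter Topology ENNReal NNReal Metric

namespace Pool.Agent.V5helper34.KC

/-- Mass distribution principle for an arbitrary set of parameters of positive outer measure. -/
theorem frost {Z X : Type*} [MeasurableSpace Z] [MetricSpace X] [MeasurableSpace X] [BorelSpace X]
    (m : Measure Z) {Φ : Z → X} {s : ℝ} (hs : 0 < s) {M : ℝ≥0∞} (hM : M ≠ ∞) {G : Set Z}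
    {K : Set X}
    (hG : ∀ z ∈ G, ∀ r : ℝ, 0 < r → m {y | dist (Φ z) (Φ y) ≤ r} ≤ M * ENNReal.ofReal (r ^ s))
    (hGK : ∀ z ∈ G, Φ z ∈ K) (hpos : 0 < m G) : μH[s] K ≠ 0 := by
  intro hz
  have hkey : ∀ ε : ℝ, 0 < ε → m G ≤ M * ENNReal.ofReal (2 * ε) := by
    intro ε hε
    obtain ⟨t, r, h1, h2, h3, h4⟩ := Pool.Agent.H023R3.KG.small_cover hs hz hε
    have h5 : ∀ i, m (G ∩ Φ ⁻¹' (t i)) ≤ M * ENNReal.ofReal (r i ^ s) := by
      intro i
      rcases (G ∩ Φ ⁻¹' (t i)).eq_empty_or_nonempty with he | ⟨x, hxG, hxt⟩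
      · rw [he]; simp
      · refine le_trans (measure_mono ?_) (hG x hxG (r i) (h2 i))
        rintro y ⟨_, hy⟩
        exact h3 i _ hxt _ hy
    calc m G ≤ m (⋃ i, G ∩ Φ ⁻¹' (t i)) := by
          apply measure_mono
          intro x hx
          obtain ⟨i, hi⟩ := mem_iUnion.1 (h1 (hGK x hx))
          exact mem_iUnion.2 ⟨i, hx, hi⟩
      _ ≤ ∑' i, m (G ∩ Φ ⁻¹' (t i)) := measure_iUnion_le _
      _ ≤ ∑' i, M * ENNReal.ofReal (r i ^ s) := ENNReal.tsum_le_tsum h5
      _ = M * ∑' i, ENNReal.ofReal (r i ^ s) := ENNReal.tsum_mul_left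
      _ ≤ _ := by gcongr
  have hGt : m G ≠ ∞ := by
    have := hkey 1 one_pos
    exact (this.trans_lt (ENNReal.mul_lt_top hM.lt_top ENNReal.ofReal_lt_top)).ne
  have hg0 : 0 < (m G).toReal := ENNReal.toReal_pos hpos.ne' hGt
  have h8 := hkey ((m G).toReal / (4 * (M.toReal + 1))) (by positivity)
  have h9 : m G = ENNReal.ofReal (m G).toReal := (ENNReal.ofReal_toReal hGt).symm
  have h10 : M = ENNReal.ofReal M.toReal := (ENNReal.ofReal_toReal hM).symm
  rw [h9, h10, ← ENNReal.ofReal_mul ENNReal.toReal_nonneg] at h8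
  have hM0 : 0 ≤ M.toReal := ENNReal.toReal_nonneg
  rw [ENNReal.toReal_ofReal hM0, ENNReal.toReal_ofReal hg0.le,
    ENNReal.ofReal_le_ofReal_iff (by positivity)] at h8
  have h11 : M.toReal * (2 * ((m G).toReal / (4 * (M.toReal + 1)))) ≤ (m G).toReal / 2 := by
    have : M.toReal / (M.toReal + 1) ≤ 1 := by
      rw [div_le_one (by linarith)]
      linarith
    calc M.toReal * (2 * ((m G).toReal / (4 * (M.toReal + 1))))
        = (M.toReal / (M.toReal + 1)) * ((m G).toReal / 2) := by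
          field_simp
          ring
      _ ≤ 1 * ((m G).toReal / 2) := by gcongr
      _ = _ := one_mul _
  linarith

/-- From dyadic radii to all radii. -/
theorem dyadic {s : ℝ} (hs : 0 < s) {N : ℝ → ℝ≥0∞} (hN : Monotone N) {M T : ℝ≥0∞}
    (hT : ∀ r, N r ≤ T)
    (h : ∀ k : ℕ, N ((1 / 2 : ℝ) ^ k) ≤ M * ENNReal.ofReal (((1 / 2 : ℝ) ^ k) ^ s)) (r : ℝ)
    (hr : 0 < r) : N r ≤ (ENNReal.ofReal (2 ^ s) * M + T) * ENNReal.ofReal (r ^ s) := by
  rcases le_or_gt 1 r with h1 | h1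
  · have h2 : (1 : ℝ≥0∞) ≤ ENNReal.ofReal (r ^ s) := by
      rw [← ENNReal.ofReal_one]
      exact ENNReal.ofReal_le_ofReal (Real.one_le_rpow h1 hs.le)
    calc N r ≤ T := hT r
      _ ≤ (ENNReal.ofReal (2 ^ s) * M + T) * 1 := by rw [mul_one]; exact le_add_self
      _ ≤ _ := by gcongr
  · obtain ⟨k, hk1, hk2⟩ := exists_nat_pow_near_of_lt_one hr h1.le
      (by norm_num : (0 : ℝ) < 1 / 2) (by norm_num : (1 / 2 : ℝ) < 1)
    have h3 : ((1 / 2 : ℝ) ^ k) ^ s ≤ 2 ^ s * r ^ s := by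
      rw [← Real.mul_rpow (by norm_num) hr.le]
      apply Real.rpow_le_rpow (by positivity) _ hs.le
      rw [pow_succ] at hk1
      linarith
    calc N r ≤ N ((1 / 2 : ℝ) ^ k) := hN hk2
      _ ≤ M * ENNReal.ofReal (((1 / 2 : ℝ) ^ k) ^ s) := h k
      _ ≤ M * ENNReal.ofReal (2 ^ s * r ^ s) := by gcongr
      _ = (ENNReal.ofReal (2 ^ s) * M) * ENNReal.ofReal (r ^ s) := by
          rw [ENNReal.ofReal_mul (by positivity)]
          ring
      _ ≤ _ := by gcongr; exact le_self_add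

/-- If the pairs of parameters with close images are few, then every set containing the images of a
set of parameters of positive outer measure has positive Hausdorff measure. -/
theorem pair_dim {Z X : Type*} [MeasurableSpace Z] [MetricSpace X] [MeasurableSpace X]
    [BorelSpace X] [SecondCountableTopology X]
    (m : Measure Z) [IsFiniteMeasure m] {Φ : Z → X} (hΦ : Measurable Φ) {s σ : ℝ} (hs : 0 < s)
    (hσ : s < σ) {C : ℝ≥0∞} (hC : C ≠ ∞)
    (hp : ∀ k : ℕ, (m.prod m) {p | dist (Φ p.1) (Φ p.2) ≤ (1 / 2 : ℝ) ^ k} ≤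
      C * ENNReal.ofReal (((1 / 2 : ℝ) ^ k) ^ σ))
    {G : Set Z} {K : Set X} (hGK : ∀ z ∈ G, Φ z ∈ K) (hpos : 0 < m G) : μH[s] K ≠ 0 := by
  set N : Z → ℝ → ℝ≥0∞ := fun z r => m {y | dist (Φ z) (Φ y) ≤ r} with hNdef
  have hmeas : ∀ r : ℝ, MeasurableSet {p : Z × Z | dist (Φ p.1) (Φ p.2) ≤ r} := fun r =>
    measurableSet_le ((hΦ.comp measurable_fst).dist (hΦ.comp measurable_snd)) measurable_const
  have hNm : ∀ r : ℝ, Measurable (fun z => N z r) := by
    intro r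
    exact measurable_measure_prodMk_left (hmeas r)
  have hint : ∀ r : ℝ, ∫⁻ z, N z r ∂m = (m.prod m) {p | dist (Φ p.1) (Φ p.2) ≤ r} := by
    intro r
    rw [Measure.prod_apply (hmeas r)]
    rfl
  set w : ℕ → ℝ≥0∞ := fun k => ENNReal.ofReal (((2 : ℝ) ^ k) ^ s) with hw
  have hsum : ∫⁻ z, ∑' k : ℕ, w k * N z ((1 / 2 : ℝ) ^ k) ∂m < ∞ := by
    rw [lintegral_tsum (fun k => ((hNm _).const_mul _).aemeasurable)]
    have h1 : ∀ k : ℕ, ∫⁻ z, w k * N z ((1 / 2 : ℝ) ^ k) ∂m ≤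
        C * (ENNReal.ofReal ((1 / 2 : ℝ) ^ (σ - s))) ^ k := by
      intro k
      rw [lintegral_const_mul _ (hNm _), hint]
      calc w k * (m.prod m) {p | dist (Φ p.1) (Φ p.2) ≤ (1 / 2 : ℝ) ^ k}
          ≤ w k * (C * ENNReal.ofReal (((1 / 2 : ℝ) ^ k) ^ σ)) := by gcongr; exact hp k
        _ = C * (ENNReal.ofReal (((2 : ℝ) ^ k) ^ s) * ENNReal.ofReal (((1 / 2 : ℝ) ^ k) ^ σ)) := by
            rw [hw]; ring
        _ = C * (ENNReal.ofReal ((1 / 2 : ℝ) ^ (σ - s))) ^ k := by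
            rw [← ENNReal.ofReal_mul (by positivity), ← ENNReal.ofReal_pow (by positivity)]
            congr 2
            rw [← Real.rpow_natCast ((1 / 2 : ℝ) ^ (σ - s)) k, ← Real.rpow_mul (by norm_num),
              ← Real.rpow_natCast (2 : ℝ) k, ← Real.rpow_natCast (1 / 2 : ℝ) k,
              ← Real.rpow_mul (by norm_num), ← Real.rpow_mul (by norm_num)]
            rw [one_div, Real.inv_rpow (by norm_num), Real.inv_rpow (by norm_num),
              ← Real.rpow_neg (by norm_num), ← Real.rpow_neg (by norm_num),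
              ← Real.rpow_add (by norm_num)]
            congr 1
            ring
    refine lt_of_le_of_lt (ENNReal.tsum_le_tsum h1) ?_
    rw [ENNReal.tsum_mul_left, ENNReal.tsum_geometric]
    refine ENNReal.mul_lt_top hC.lt_top ?_
    rw [ENNReal.inv_lt_top, tsub_pos_iff_lt, ← ENNReal.ofReal_one]
    rw [ENNReal.ofReal_lt_ofReal_iff one_pos]
    exact Real.rpow_lt_one (by norm_num) (by norm_num) (by linarith)
  have hae : ∀ᵐ z ∂m, ∑' k : ℕ, w k * N z ((1 / 2 : ℝ) ^ k) < ∞ :=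
    ae_lt_top (Measurable.ennreal_tsum (fun k => (hNm _).const_mul _)) hsum.ne
  set P : Z → ℝ≥0∞ := fun z => ∑' k : ℕ, w k * N z ((1 / 2 : ℝ) ^ k) with hP
  have hM : ∃ M : ℕ, 0 < m (G ∩ {z | P z ≤ M}) := by
    by_contra hcon
    push Not at hcon
    have h1 : m (⋃ M : ℕ, G ∩ {z | P z ≤ M}) = 0 :=
      measure_iUnion_null (fun M => le_antisymm (hcon M) zero_le)
    have h2 : G ⊆ (⋃ M : ℕ, G ∩ {z | P z ≤ M}) ∪ {z | ¬ P z < ∞} := by
      intro x hx
      by_cases hPx : P x < ∞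
      · left
        obtain ⟨M, hM⟩ := ENNReal.exists_nat_gt hPx.ne
        exact mem_iUnion.2 ⟨M, hx, hM.le⟩
      · right; exact hPx
    have h3 : m {z | ¬ P z < ∞} = 0 := ae_iff.1 hae
    exact hpos.ne' (measure_mono_null h2 (measure_union_null h1 h3))
  obtain ⟨M, hM⟩ := hM
  refine frost m hs (M := ENNReal.ofReal (2 ^ s) * M + m univ) ?_ (G := G ∩ {z | P z ≤ M}) ?_
    (fun z hz => hGK z hz.1) hM
  · exact ENNReal.add_ne_top.2 ⟨ENNReal.mul_ne_top ENNReal.ofReal_ne_top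
      (ENNReal.natCast_ne_top M), measure_ne_top m _⟩
  · rintro z ⟨_, hz⟩ r hr
    refine dyadic hs (N := N z) ?_ (fun r => measure_mono (subset_univ _)) ?_ r hr
    · intro a b hab
      exact measure_mono (fun y (hy : dist (Φ z) (Φ y) ≤ a) => hy.trans hab)
    · intro k
      have h1 : w k * N z ((1 / 2 : ℝ) ^ k) ≤ M := (ENNReal.le_tsum k).trans hz
      have h2 : w k * ENNReal.ofReal (((1 / 2 : ℝ) ^ k) ^ s) = 1 := by
        rw [hw]
        simp only
        rw [← ENNReal.ofReal_mul (by positivity), ← Real.mul_rpow (by positivity) (by positivity),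
          ← mul_pow]
        norm_num
      calc N z ((1 / 2 : ℝ) ^ k) = (w k * ENNReal.ofReal (((1 / 2 : ℝ) ^ k) ^ s)) *
            N z ((1 / 2 : ℝ) ^ k) := by rw [h2, one_mul]
        _ = (w k * N z ((1 / 2 : ℝ) ^ k)) * ENNReal.ofReal (((1 / 2 : ℝ) ^ k) ^ s) := by ring
        _ ≤ _ := by gcongr

end Pool.Agent.V5helper34.KC
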