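import Pool.Agent.V5helper34.KC.C2c

set_option autoImplicit false

/-!
# The final theorems on lines which are concurrent along the level sets of a `C^2` function
-/

open MeasureTheory Set Filter Topology ENNReal NNReal Metric

open scoped RealInnerProductSpace

namespace Pool.Agent.V5helper34.KC.Mx

/-- Local data, or locally constant. -/
def Good {d : ℕ} (f : E d → ℝ) (v : E d) : Prop := HasSaddle f v ∨ ∀ᶠ w in 𝓝 v, f w = f v

theorem good_family {d : ℕ} {f : E d → ℝ} {g : ℝ → E d} (hg : Measurable g) {τ : ℝ → ℝ}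
    (hτ : Measurable τ) {V : Set (E d)} (hV : 0 < volume V) (hd : ∀ v ∈ V, Good f v)
    {K : Set (E (d + 1))}
    (hK : ∀ v ∈ V, 0 < volume {r : ℝ | pt (g (f v) + r • v) (τ (f v) + r) ∈ K}) :
    dimH K = (d + 1 : ℕ) := by
  set V1 : Set (E d) := {v ∈ V | HasSaddle f v} with hV1
  set V2 : Set (E d) := {v ∈ V | ∀ᶠ w in 𝓝 v, f w = f v} with hV2
  have hcov : V ⊆ V1 ∪ V2 := by
    intro v hv
    rcases hd v hv with h | h
    · exact Or.inl ⟨hv, h⟩
    · exact Or.inr ⟨hv, h⟩
  have hor : 0 < volume V1 ∨ 0 < volume V2 := by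
    by_contra hcon
    push Not at hcon
    apply hV.ne'
    exact measure_mono_null hcov (measure_union_null (le_antisymm hcon.1 zero_le)
      (le_antisymm hcon.2 zero_le))
  rcases hor with h | h
  · exact bothS hg hτ h (fun v hv => hv.2) (fun v hv => hK v hv.1)
  · obtain ⟨v0, hv0, hnear⟩ := exists_mem_forall_mem_nhdsWithin_pos_measure h.ne'
    obtain ⟨r, hr, hball⟩ := Metric.nhds_basis_ball.mem_iff.1 hv0.2
    have h1 : 0 < volume (V2 ∩ ball v0 r) :=
      hnear _ (inter_mem self_mem_nhdsWithin (mem_nhdsWithin_of_mem_nhds (ball_mem_nhds v0 hr)))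
    refine concurrent (f := fun _ => f v0) isOpen_univ (convexOn_const _ convex_univ) hg hτ
      measurable_const (subset_univ (V2 ∩ ball v0 r)) h1 (fun v hv => ?_)
    have h2 := hK v hv.1.1
    have h3 : f v = f v0 := hball hv.2
    rw [h3] at h2
    exact h2

/-- At `v` the derivative of `f` is nonzero and the second derivative of `f`, restricted to the
kernel of the first, is degenerate and indefinite. -/
def Mixed {d : ℕ} (f : E d → ℝ) (v : E d) : Prop :=
  fderiv ℝ f v ≠ 0 ∧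
  (∃ u, u ≠ 0 ∧ fderiv ℝ f v u = 0 ∧ ∀ w, fderiv ℝ f v w = 0 →
    fderiv ℝ (fderiv ℝ f) v u w = 0) ∧
  (∃ u, fderiv ℝ f v u = 0 ∧ 0 < fderiv ℝ (fderiv ℝ f) v u u) ∧
  (∃ u, fderiv ℝ f v u = 0 ∧ fderiv ℝ (fderiv ℝ f) v u u < 0)

/-- In a neighbourhood of a point at which the form takes a positive value, it does so. -/
theorem pos_near {d : ℕ} {U : Set (E d)} (hU : IsOpen U) {f : E d → ℝ}
    (hf : ContDiffOn ℝ 2 f U) {v₀ : E d} (hv₀ : v₀ ∈ U) (h0 : fderiv ℝ f v₀ ≠ 0) {u : E d}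
    (hu : fderiv ℝ f v₀ u = 0) (hp : 0 < fderiv ℝ (fderiv ℝ f) v₀ u u) :
    ∀ᶠ v in 𝓝 v₀, ∃ w, fderiv ℝ f v w = 0 ∧ 0 < fderiv ℝ (fderiv ℝ f) v w w := by
  obtain ⟨_, hd1, hc2⟩ := c2_facts hU hf hv₀
  obtain ⟨e, he⟩ : ∃ e, fderiv ℝ f v₀ e ≠ 0 := by
    by_contra hcon
    push Not at hcon
    apply h0
    ext x
    simpa using hcon x
  have hcu : ContinuousAt (fun v => fderiv ℝ f v u) v₀ :=
    hd1.continuousAt.clm_apply continuousAt_const
  have hce : ContinuousAt (fun v => fderiv ℝ f v e) v₀ :=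
    hd1.continuousAt.clm_apply continuousAt_const
  have hcw : ContinuousAt (fun v => u - (fderiv ℝ f v u / fderiv ℝ f v e) • e) v₀ :=
    continuousAt_const.sub ((hcu.div hce he).smul continuousAt_const)
  have hcB : ContinuousAt (fun v => fderiv ℝ (fderiv ℝ f) v
      (u - (fderiv ℝ f v u / fderiv ℝ f v e) • e)
      (u - (fderiv ℝ f v u / fderiv ℝ f v e) • e)) v₀ :=
    (hc2.clm_apply hcw).clm_apply hcw
  have hval : fderiv ℝ (fderiv ℝ f) v₀
      (u - (fderiv ℝ f v₀ u / fderiv ℝ f v₀ e) • e)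
      (u - (fderiv ℝ f v₀ u / fderiv ℝ f v₀ e) • e) = fderiv ℝ (fderiv ℝ f) v₀ u u := by
    rw [hu, zero_div, zero_smul, sub_zero]
  have hev := hcB.eventually (lt_mem_nhds (show (0 : ℝ) < fderiv ℝ (fderiv ℝ f) v₀
      (u - (fderiv ℝ f v₀ u / fderiv ℝ f v₀ e) • e)
      (u - (fderiv ℝ f v₀ u / fderiv ℝ f v₀ e) • e) by rw [hval]; exact hp))
  filter_upwards [hev, hce.eventually_ne he] with v hv hev
  refine ⟨_, ?_, hv⟩
  rw [map_sub, map_smul, smul_eq_mul, div_mul_cancel₀ _ hev, sub_self]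

theorem exists_good {d : ℕ} {U : Set (E d)} (hU : IsOpen U) {f : E d → ℝ}
    (hf : ContDiffOn ℝ 2 f U) (hmix : ¬ U ⊆ closure {v ∈ U | Mixed f v}) :
    ∃ v ∈ U, Good f v := by
  obtain ⟨p, hpU, hp⟩ := not_subset.1 hmix
  -- an open set without mixed points
  set O : Set (E d) := U ∩ (closure {v ∈ U | Mixed f v})ᶜ with hO
  have hOo : IsOpen O := hU.inter isClosed_closure.isOpen_compl
  have hOU : O ⊆ U := inter_subset_left
  have hpO : p ∈ O := ⟨hpU, hp⟩
  have hOm : ∀ v ∈ O, ¬ Mixed f v := fun v hv hm => hv.2 (subset_closure ⟨hv.1, hm⟩)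
  have hfO : ContDiffOn ℝ 2 f O := hf.mono hOU
  by_cases hall : ∀ v ∈ O, fderiv ℝ f v = 0
  · -- locally constant
    refine ⟨p, hpU, Or.inr ?_⟩
    obtain ⟨r, hr, hball⟩ := Metric.nhds_basis_ball.mem_iff.1 (hOo.mem_nhds hpO)
    filter_upwards [ball_mem_nhds p hr] with w hw
    exact (convex_ball p r).is_const_of_fderivWithin_eq_zero (𝕜 := ℝ)
      (fun x hx => (c2_facts hU hf (hOU (hball hx))).1.differentiableWithinAt)
      (fun x hx => by
        rw [fderivWithin_of_isOpen isOpen_ball hx]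
        exact hall x (hball hx)) hw (mem_ball_self hr)
  · push Not at hall
    obtain ⟨v₁, hv₁, hd₁⟩ := hall
    -- the open set on which the derivative does not vanish
    have hO1 : ∀ v ∈ O, fderiv ℝ f v ≠ 0 → ∀ᶠ w in 𝓝 v, w ∈ O ∧ fderiv ℝ f w ≠ 0 := by
      intro v hv h
      have hc : ContinuousAt (fderiv ℝ f) v := (c2_facts hU hf (hOU hv)).2.1.continuousAt
      filter_upwards [hOo.mem_nhds hv, hc.eventually_ne h] with w h1 h2
      exact ⟨h1, h2⟩
    by_cases hnd : ∃ v ∈ O, fderiv ℝ f v ≠ 0 ∧ ∀ u, fderiv ℝ f v u = 0 → u ≠ 0 →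
        ∃ w, fderiv ℝ f v w = 0 ∧ fderiv ℝ (fderiv ℝ f) v u w ≠ 0
    · obtain ⟨v, hv, h1, h2⟩ := hnd
      exact ⟨v, hOU hv, Or.inl (hasSaddle_of_nondeg hU hf (hOU hv) h1 h2)⟩
    · push Not at hnd
      -- the form is semidefinite at all points
      have hsd : ∀ v ∈ O, fderiv ℝ f v ≠ 0 →
          (∃ u, fderiv ℝ f v u = 0 ∧ 0 < fderiv ℝ (fderiv ℝ f) v u u) →
          ∀ u, fderiv ℝ f v u = 0 → 0 ≤ fderiv ℝ (fderiv ℝ f) v u u := by
        intro v hv h1 h2 u hu
        by_contra hcon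
        push Not at hcon
        obtain ⟨u', hu', hu0, hdeg⟩ := hnd v hv h1
        exact hOm v hv ⟨h1, ⟨u', hu0, hu', hdeg⟩, h2, ⟨u, hu, hcon⟩⟩
      by_cases hpos : ∃ v ∈ O, fderiv ℝ f v ≠ 0 ∧
          ∃ u, fderiv ℝ f v u = 0 ∧ 0 < fderiv ℝ (fderiv ℝ f) v u u
      · obtain ⟨v, hv, h1, u, hu, hpu⟩ := hpos
        refine ⟨v, hOU hv, Or.inl (hasSaddle_of_semi_pos hU hf (hOU hv) h1 ?_)⟩
        filter_upwards [hO1 v hv h1, pos_near hU hf (hOU hv) h1 hu hpu] with w hw hw2
        exact hsd w hw.1 hw.2 hw2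
      · push Not at hpos
        refine ⟨v₁, hOU hv₁, Or.inl (hasSaddle_of_semi_neg hU hf (hOU hv₁) hd₁ ?_)⟩
        filter_upwards [hO1 v₁ hv₁ hd₁] with w hw u hu
        exact hpos w hw.1 hw.2 u hu

/-- **Lines which are concurrent along the level sets of a `C^2` function.** -/
theorem generic {d : ℕ} {U : Set (E d)} (hU : IsOpen U) {f : E d → ℝ}
    (hf : ContDiffOn ℝ 2 f U) (hmix : ¬ U ⊆ closure {v ∈ U | Mixed f v}) {g : ℝ → E d}
    (hg : Measurable g) {τ : ℝ → ℝ} (hτ : Measurable τ) {K : Set (E (d + 1))}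
    (hK : ∀ᵐ v ∂(volume.restrict U),
      0 < volume {r : ℝ | pt (g (f v) + r • v) (τ (f v) + r) ∈ K}) :
    dimH K = (d + 1 : ℕ) := by
  obtain ⟨v, hv, hgood⟩ := exists_good hU hf hmix
  obtain ⟨r, hr, hball⟩ : ∃ r > 0, ∀ w ∈ ball v r, Good f w := by
    rcases hgood with h | h
    · obtain ⟨r, hr, h1⟩ := h.near
      exact ⟨r, hr, fun w hw => Or.inl (h1 w hw)⟩
    · obtain ⟨r, hr, h1⟩ := Metric.nhds_basis_ball.mem_iff.1 h
      refine ⟨r, hr, fun w hw => Or.inr ?_⟩
      filter_upwards [isOpen_ball.mem_nhds hw] with z hz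
      have e1 : f z = f v := h1 hz
      have e2 : f w = f v := h1 hw
      rw [e1, e2]
  set W : Set (E d) := ball v r ∩ U with hW
  have hWo : IsOpen W := isOpen_ball.inter hU
  have hWp : 0 < volume W := hWo.measure_pos volume ⟨v, mem_ball_self hr, hv⟩
  rw [ae_restrict_iff' hU.measurableSet] at hK
  set V : Set (E d) := {w ∈ W | 0 < volume {r : ℝ | pt (g (f w) + r • w) (τ (f w) + r) ∈ K}}
    with hV
  have hVp : 0 < volume V := by
    rw [pos_iff_ne_zero]
    intro h0
    apply hWp.ne'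
    refine measure_mono_null (t := V ∪ {w | ¬ (w ∈ U →
      0 < volume {r : ℝ | pt (g (f w) + r • w) (τ (f w) + r) ∈ K})}) ?_
      (measure_union_null h0 (ae_iff.1 hK))
    intro w hw
    by_cases h1 : 0 < volume {r : ℝ | pt (g (f w) + r • w) (τ (f w) + r) ∈ K}
    · exact Or.inl ⟨hw, h1⟩
    · right
      intro h2
      exact h1 (h2 hw.2)
  exact good_family hg hτ hVp (fun w hw => hball w hw.1.1) (fun w hw => hw.2)

/-- In dimension at most three there are no mixed points. -/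
theorem not_mixed {d : ℕ} (hd : d ≤ 3) {U : Set (E d)} (hU : IsOpen U) {f : E d → ℝ}
    (hf : ContDiffOn ℝ 2 f U) {v : E d} (hv : v ∈ U) : ¬ Mixed f v := by
  rintro ⟨h0, ⟨z, hz0, hz, hzk⟩, ⟨p, hp, hpp⟩, ⟨q, hq, hqq⟩⟩
  have hsymm : ∀ u w, fderiv ℝ (fderiv ℝ f) v u w = fderiv ℝ (fderiv ℝ f) v w u := by
    have h1 : ContDiffAt ℝ 2 f v := hf.contDiffAt (hU.mem_nhds hv)
    exact h1.isSymmSndFDerivAt (by simp)
  set D := fderiv ℝ f v with hD
  set B := fderiv ℝ (fderiv ℝ f) v with hB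
  set H : Submodule ℝ (E d) := LinearMap.ker (D : E d →ₗ[ℝ] ℝ) with hH
  have hHm : ∀ u, D u = 0 → u ∈ H := fun u hu => by
    rw [hH, LinearMap.mem_ker]
    exact hu
  -- the dimension of the kernel
  have hdim : Module.finrank ℝ H + 1 ≤ 3 := by
    have h1 := LinearMap.finrank_range_add_finrank_ker (D : E d →ₗ[ℝ] ℝ)
    rw [finrank_euclideanSpace_fin] at h1
    have h2 : 0 < Module.finrank ℝ (LinearMap.range (D : E d →ₗ[ℝ] ℝ)) := by
      rw [Module.finrank_pos_iff_exists_ne_zero]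
      by_contra hcon
      push Not at hcon
      apply h0
      ext x
      have h3 := hcon ⟨D x, ⟨x, rfl⟩⟩
      have h4 : D x = 0 := congrArg Subtype.val h3
      rw [h4]
      rfl
    rw [← hH] at h1
    omega
  have hli : LinearIndependent ℝ ![(⟨p, hHm p hp⟩ : H), ⟨q, hHm q hq⟩, ⟨z, hHm z hz⟩] := by
    rw [Fintype.linearIndependent_iff]
    intro c hc
    have hsum : c 0 • p + c 1 • q + c 2 • z = 0 := by
      have := congrArg Subtype.val hc
      simp only [Fin.sum_univ_three, Matrix.cons_val_zero, Matrix.cons_val_one,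
        Matrix.cons_val_two] at this
      exact this
    have hBz : ∀ u, D u = 0 → B u z = 0 := fun u hu => by
      rw [hsymm]
      exact hzk u hu
    have e1 : c 0 * B p p + c 1 * B p q = 0 := by
      have := congrArg (fun x => B p x) hsum
      simp only [map_add, map_smul, smul_eq_mul, map_zero, hBz p hp, mul_zero, add_zero] at this
      exact this
    have e2 : c 0 * B p q + c 1 * B q q = 0 := by
      have := congrArg (fun x => B q x) hsum
      simp only [map_add, map_smul, smul_eq_mul, map_zero, hBz q hq, mul_zero, add_zero] at this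
      rw [hsymm q p] at this
      exact this
    have hdet : B p p * B q q - B p q * B p q < 0 := by nlinarith [mul_self_nonneg (B p q)]
    have c0 : c 0 = 0 := by
      have : c 0 * (B p p * B q q - B p q * B p q) = 0 := by
        linear_combination B q q * e1 - B p q * e2
      rcases mul_eq_zero.1 this with h | h
      · exact h
      · exact absurd h hdet.ne
    have c1 : c 1 = 0 := by
      rw [c0, zero_mul, zero_add] at e2
      rcases mul_eq_zero.1 e2 with h | h
      · exact h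
      · exact absurd h hqq.ne
    have c2 : c 2 = 0 := by
      rw [c0, c1, zero_smul, zero_smul, zero_add, zero_add] at hsum
      exact (smul_eq_zero.1 hsum).resolve_right hz0
    intro i
    fin_cases i
    · exact c0
    · exact c1
    · exact c2
  have h3 := hli.fintype_card_le_finrank
  simp only [Fintype.card_fin] at h3
  omega

theorem low {d : ℕ} (hd : d ≤ 3) {U : Set (E d)} (hU : IsOpen U) (hne : U.Nonempty)
    {f : E d → ℝ} (hf : ContDiffOn ℝ 2 f U) {g : ℝ → E d}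
    (hg : Measurable g) {τ : ℝ → ℝ} (hτ : Measurable τ) {K : Set (E (d + 1))}
    (hK : ∀ᵐ v ∂(volume.restrict U),
      0 < volume {r : ℝ | pt (g (f v) + r • v) (τ (f v) + r) ∈ K}) :
    dimH K = (d + 1 : ℕ) := by
  refine generic hU hf ?_ hg hτ hK
  have h1 : {v ∈ U | Mixed f v} = ∅ := by
    ext v
    constructor
    · rintro ⟨h1, h2⟩
      exact absurd h2 (not_mixed hd hU hf h1)
    · intro h
      exact absurd h (notMem_empty v)
  rw [h1, closure_empty]
  intro h2
  obtain ⟨v, hv⟩ := hne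
  exact h2 hv

end Pool.Agent.V5helper34.KC.Mx
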