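import Pool.Agent.V5helper34.KC.Main
import Pool.Agent.V5helper34.KC.Chart

set_option autoImplicit false

/-!
# Hausdorff dimension of sets containing parts of the rays of a leafwise convex family
-/

open MeasureTheory Set Filter Topology ENNReal NNReal Metric

open scoped RealInnerProductSpace

namespace Pool.Agent.V5helper34.KC

/-- Lipschitz images of null sets between spaces of the same dimension are null sets. -/
theorem null_image {P Q : Type*} [NormedAddCommGroup P] [NormedSpace ℝ P] [FiniteDimensional ℝ P]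
    [MeasurableSpace P] [BorelSpace P] [NormedAddCommGroup Q] [NormedSpace ℝ Q]
    [FiniteDimensional ℝ Q] [MeasurableSpace Q] [BorelSpace Q] (μ : Measure P)
    [μ.IsAddHaarMeasure] (ν : Measure Q) [ν.IsAddHaarMeasure]
    (hd : Module.finrank ℝ P = Module.finrank ℝ Q) {C : ℝ≥0} {Ψ : P → Q} (hΨ : LipschitzWith C Ψ)
    {S : Set P} (hS : μ S = 0) : ν (Ψ '' S) = 0 := by
  have h1 : (μH[Module.finrank ℝ P] : Measure P) ≪ μ :=
    Measure.absolutelyContinuous_isAddHaarMeasure _ _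
  have h2 : ν ≪ (μH[Module.finrank ℝ Q] : Measure Q) :=
    Measure.absolutelyContinuous_isAddHaarMeasure _ _
  apply h2
  have h3 := hΨ.hausdorffMeasure_image_le (d := Module.finrank ℝ P) (by positivity) S
  rw [h1 hS, mul_zero] at h3
  rw [← hd]
  exact le_antisymm h3 zero_le

/-- The dimension of a family in parameter form. -/
theorem dim_of_family {k : ℕ} {F : Type*} [NormedAddCommGroup F] [NormedSpace ℝ F]
    [MeasurableSpace F] [BorelSpace F] [SecondCountableTopology F]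
    {A Ψ : ℝ × (Fin k → ℝ) → F} {τ : ℝ → ℝ} (hA : Measurable A) (hΨ : Measurable Ψ)
    (hτ : Measurable τ) {W : Set (ℝ × (Fin k → ℝ))} (hW : MeasurableSet W) {N0 C1 R : ℝ}
    (hC1 : 0 < C1) (hWN : ∀ q ∈ W, |q.1| ≤ N0 ∧ ∀ i, |q.2 i| ≤ N0) (hWR : ∀ q ∈ W, ‖Ψ q‖ ≤ R)
    (hsep : ∀ ρ : ℝ, 0 < ρ → ∀ s y y', (s, y) ∈ W → (s, y') ∈ W → ∀ t, τ s + ρ ≤ t →
      ρ * ‖y - y'‖ ≤ ‖X A Ψ τ (s, y) t - X A Ψ τ (s, y') t‖)
    (hcross : ∀ q ∈ W, ∀ s', q.1 < s' → ∀ t₁ t₂ y₁ y₂ η, τ s' ≤ t₁ → τ s' ≤ t₂ →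
      (s', y₁) ∈ W → (s', y₂) ∈ W → ‖X A Ψ τ q t₁ - X A Ψ τ (s', y₁) t₁‖ ≤ η →
      ‖X A Ψ τ q t₂ - X A Ψ τ (s', y₂) t₂‖ ≤ η → |t₁ - t₂| * (s' - q.1) ≤ C1 * η)
    {G : Set ((ℝ × (Fin k → ℝ)) × ℝ)} {K : Set (F × ℝ)} (hG : ∀ z ∈ G, z.1 ∈ W ∧ τ z.1.1 < z.2)
    (hGK : ∀ z ∈ G, Phi A Ψ τ z ∈ K) (hpos : 0 < volume G) :
    ((k + 2 : ℕ) : ℝ≥0∞) ≤ dimH K := by
  -- a piece of the parameter set
  obtain ⟨n, hn0, hn⟩ : ∃ n : ℕ, 0 < n ∧ 0 < volume (G ∩ Om τ W (N0 + n) (1 / (n : ℝ))) := by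
    by_contra hcon
    push Not at hcon
    apply hpos.ne'
    refine measure_mono_null (t := ⋃ n : ℕ, G ∩ Om τ W (N0 + ((n + 1 : ℕ) : ℝ))
      (1 / ((n + 1 : ℕ) : ℝ))) ?_ (measure_iUnion_null (fun n =>
        le_antisymm (hcon (n + 1) (Nat.succ_pos n)) zero_le))
    intro z hz
    obtain ⟨h1, h2⟩ := hG z hz
    obtain ⟨n1, hn1⟩ := exists_nat_ge |z.2|
    obtain ⟨n2, hn2⟩ := exists_nat_gt (1 / (z.2 - τ z.1.1))
    have hN0 : 0 ≤ N0 := (abs_nonneg _).trans (hWN _ h1).1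
    refine mem_iUnion.2 ⟨max n1 n2, hz, h1, ?_, ?_⟩
    · have h3 : (n1 : ℝ) ≤ ((max n1 n2 + 1 : ℕ) : ℝ) := by
        exact_mod_cast (le_max_left n1 n2).trans (Nat.le_succ _)
      linarith
    · have hd : 0 < z.2 - τ z.1.1 := sub_pos.2 h2
      have h3 : (n2 : ℝ) ≤ ((max n1 n2 + 1 : ℕ) : ℝ) := by
        exact_mod_cast (le_max_right n1 n2).trans (Nat.le_succ _)
      have h4 : 1 / (z.2 - τ z.1.1) < ((max n1 n2 + 1 : ℕ) : ℝ) := hn2.trans_le h3
      have h5 : (0 : ℝ) < ((max n1 n2 + 1 : ℕ) : ℝ) := by positivity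
      have h6 : 1 / ((max n1 n2 + 1 : ℕ) : ℝ) ≤ z.2 - τ z.1.1 := by
        rw [div_lt_iff₀ hd] at h4
        rw [div_le_iff₀ h5]
        linarith
      linarith
  have hn0' : (0 : ℝ) < n := by exact_mod_cast hn0
  obtain ⟨z0, hz0⟩ : (G ∩ Om τ W (N0 + n) (1 / (n : ℝ))).Nonempty := by
    by_contra hcon
    rw [not_nonempty_iff_eq_empty] at hcon
    rw [hcon, measure_empty] at hn
    exact lt_irrefl _ hn
  have hN0 : 0 ≤ N0 := (abs_nonneg _).trans (hWN _ (hG z0 hz0.1).1).1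
  have hR0 : 0 ≤ R := (norm_nonneg _).trans (hWR _ (hG z0 hz0.1).1)
  set N : ℝ := N0 + n with hN
  set ρ : ℝ := 1 / (n : ℝ) with hρ
  have hρ0 : 0 < ρ := by positivity
  have hNpos : 0 < N := by positivity
  have hOm := measurableSet_Om (τ := τ) hτ hW N ρ
  set m : Measure ((ℝ × (Fin k → ℝ)) × ℝ) := volume.restrict (Om τ W N ρ) with hm
  have hfm : IsFiniteMeasure m := by
    constructor
    rw [hm, Measure.restrict_apply_univ]
    have hsub : Om τ W N ρ ⊆ ((Icc (-N) N) ×ˢ (univ.pi fun _ : Fin k => Icc (-N) N)) ×ˢ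
        (Icc (-N) N) := by
      rintro z ⟨h1, h2, _⟩
      obtain ⟨h3, h4⟩ := hWN _ h1
      refine ⟨⟨abs_le.1 (h3.trans (by rw [hN]; linarith)), ?_⟩, abs_le.1 h2⟩
      rw [mem_univ_pi]
      intro i
      exact abs_le.1 ((h4 i).trans (by rw [hN]; linarith))
    refine (measure_mono hsub).trans_lt ?_
    rw [Measure.volume_eq_prod, Measure.prod_prod, Measure.volume_eq_prod, Measure.prod_prod,
      volume_pi, Measure.pi_pi]
    refine ENNReal.mul_lt_top (ENNReal.mul_lt_top measure_Icc_lt_top ?_) measure_Icc_lt_top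
    exact (ENNReal.prod_ne_top (fun _ _ => measure_Icc_lt_top.ne)).lt_top
  have hmG : 0 < m (G ∩ Om τ W N ρ) := by
    rw [hm, Measure.restrict_eq_self _ inter_subset_right]
    exact hn
  have hΦ := measurable_Phi hA hΨ hτ
  by_contra hlt
  push Not at hlt
  obtain ⟨s, hs1, hs2⟩ := ENNReal.lt_iff_exists_nnreal_btwn.1 hlt
  have hs2' : (s : ℝ) < (k : ℝ) + 2 := by
    have : s < ((k + 2 : ℕ) : ℝ≥0) := by exact_mod_cast hs2
    exact_mod_cast this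
  -- the exponents
  set s1 : ℝ≥0 := max s (k + 1) with hs1def
  have hs1lt : (s1 : ℝ) < (k : ℝ) + 2 := by
    rw [hs1def]
    push_cast
    exact max_lt hs2' (by linarith)
  have hs1ge : (k : ℝ) + 1 ≤ s1 := by
    rw [hs1def]
    push_cast
    exact le_max_right _ _
  set p : ℝ := ((s1 : ℝ) - (k + 1) + 1) / 2 with hp
  have hp0 : 0 < p := by rw [hp]; linarith
  have hp1 : p < 1 := by rw [hp]; linarith
  have hσ : (s1 : ℝ) < (k : ℝ) + 1 + p := by rw [hp]; linarith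
  obtain ⟨C, hC, hb⟩ := pair_bound hA hΨ hτ hW hNpos hρ0 hρ0 hC1 hR0 hp0 hp1
    (fun q hq => ⟨(hWN q hq).1.trans (by rw [hN]; linarith),
      fun i => ((hWN q hq).2 i).trans (by rw [hN]; linarith)⟩) hWR (hsep ρ hρ0) hcross
  have hne := pair_dim m hΦ (s := (s1 : ℝ)) (σ := (k : ℝ) + 1 + p) (by linarith) hσ hC
    (fun j => hb _ (by positivity)) (G := G ∩ Om τ W N ρ) (K := K) (fun z hz => hGK z hz.1) hmG
  have h7 := le_dimH_of_hausdorffMeasure_ne_zero hne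
  have h8 : (s : ℝ≥0∞) ≤ (s1 : ℝ≥0∞) := ENNReal.coe_le_coe.2 (le_max_left _ _)
  exact absurd hs1 (not_lt.2 (h8.trans h7))

/-- The point `(x, t)` of `ℝ^(d+1)`. -/
noncomputable def pt {d : ℕ} (x : E d) (t : ℝ) : E (d + 1) :=
  WithLp.toLp 2 (Fin.snoc x t : Fin (d + 1) → ℝ)

/-- the two parts of a point -/
noncomputable def proj {d : ℕ} (z : E (d + 1)) : E d × ℝ :=
  (WithLp.toLp 2 (fun i => z (Fin.castSucc i)), z (Fin.last d))

theorem proj_pt {d : ℕ} (x : E d) (t : ℝ) : proj (pt x t) = (x, t) := by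
  unfold proj pt
  ext i
  · simp
  · simp

theorem lipschitz_proj {d : ℕ} : LipschitzWith 1 (proj : E (d + 1) → E d × ℝ) := by
  apply LipschitzWith.of_dist_le_mul
  intro z w
  rw [NNReal.coe_one, one_mul, Prod.dist_eq]
  apply max_le
  · rw [EuclideanSpace.dist_eq, EuclideanSpace.dist_eq]
    apply Real.sqrt_le_sqrt
    rw [Fin.sum_univ_castSucc (n := d)]
    simp only [proj]
    linarith [sq_nonneg (dist (z (Fin.last d)) (w (Fin.last d)))]
  · simp only [proj]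
    rw [EuclideanSpace.dist_eq]
    apply Real.le_sqrt_of_sq_le
    rw [Fin.sum_univ_castSucc (n := d)]
    have : 0 ≤ ∑ i : Fin d, dist (z i.castSucc) (w i.castSucc) ^ 2 :=
      Finset.sum_nonneg (fun i _ => sq_nonneg _)
    linarith

/-- The part of the slopes at which `f` is not minimal, upper rays. -/
theorem upper {k : ℕ} {U : Set (E (k + 1))} (hU : IsOpen U) {f : E (k + 1) → ℝ}
    (hf : ConvexOn ℝ U f) {a : E (k + 1) → E (k + 1)} (ha : Measurable a) {τ : ℝ → ℝ}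
    (hτ : Measurable τ)
    (h1 : ∀ v ∈ U, ∀ w ∈ U, f v = f w → 0 ≤ ⟪a v - a w, v - w⟫)
    (h2 : ∀ v ∈ U, (∃ u ∈ U, f u < f v) → ∃ ν : E (k + 1), ν ≠ 0 ∧
      (∀ u ∈ U, f u ≤ f v → ⟪ν, u⟫ ≤ ⟪ν, v⟫) ∧ ∀ w ∈ U, f w = f v → ⟪ν, a w⟫ ≤ ⟪ν, a v⟫)
    {V : Set (E (k + 1))} (hVU : V ⊆ U) (hVm : ∀ v ∈ V, ∃ u ∈ U, f u < f v) (hV : 0 < volume V)
    {K : Set (E (k + 2))}
    (hK : ∀ v ∈ V, 0 < volume {r : ℝ | 0 < r ∧ pt (a v + r • v) (τ (f v) + r) ∈ K}) :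
    ((k + 2 : ℕ) : ℝ≥0∞) ≤ dimH K := by
  obtain ⟨v0, hv0, hnear⟩ := exists_mem_forall_mem_nhdsWithin_pos_measure hV.ne'
  obtain ⟨u0, hu0, hlt⟩ := hVm v0 hv0
  obtain ⟨R, hR, L, hL, c, hc, e, he, hRU, hLip, hinc⟩ :=
    local_data hU hf (hVU hv0) hu0 hlt
  obtain ⟨b, hb⟩ := exists_basis he
  rw [← hb] at hinc
  obtain ⟨C, Ψ, hΨL, hΨ⟩ := exists_chart (b := b) hR hc hL hLip hinc
  set B : Set (E (k + 1)) := closedBall v0 (R / 4) with hB
  have hBR : B ⊆ closedBall v0 R := closedBall_subset_closedBall (by linarith)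
  have hThc : ContinuousOn (Th f b) B := by
    apply ContinuousOn.prodMk
    · exact (hf.continuousOn hU).mono (hBR.trans hRU)
    · apply Continuous.continuousOn
      apply continuous_pi
      intro i
      exact Continuous.inner continuous_const continuous_id
  set W : Set (ℝ × (Fin k → ℝ)) := Th f b '' B with hWdef
  have hWc : IsCompact W := (isCompact_closedBall v0 (R / 4)).image_of_continuousOn hThc
  have hW : MeasurableSet W := hWc.measurableSet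
  have hWv : ∀ q ∈ W, Ψ q ∈ B ∧ Th f b (Ψ q) = q := by
    rintro _ ⟨v, hv, rfl⟩
    rw [hΨ v hv]
    exact ⟨hv, rfl⟩
  have hWf : ∀ q ∈ W, f (Ψ q) = q.1 := by
    intro q hq
    have := congrArg Prod.fst (hWv q hq).2
    exact this
  have hWi : ∀ q ∈ W, ∀ i, ⟪b i.succ, Ψ q⟫ = q.2 i := by
    intro q hq i
    have := congrArg (fun p : ℝ × (Fin k → ℝ) => p.2 i) (hWv q hq).2
    exact this
  set A : ℝ × (Fin k → ℝ) → E (k + 1) := fun q => a (Ψ q) with hAdef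
  have hΨm : Measurable Ψ := hΨL.continuous.measurable
  have hA : Measurable A := ha.comp hΨm
  set R1 : ℝ := ‖v0‖ + R / 4 with hR1
  have hBn : ∀ v ∈ B, ‖v‖ ≤ R1 := by
    intro v hv
    have h3 : dist v v0 ≤ R / 4 := hv
    rw [dist_eq_norm] at h3
    calc ‖v‖ = ‖v0 + (v - v0)‖ := by congr 1; abel
      _ ≤ ‖v0‖ + ‖v - v0‖ := norm_add_le _ _
      _ ≤ R1 := by rw [hR1]; linarith
  set N0 : ℝ := R1 + (|f v0| + L * R) with hN0
  have hR1n : 0 ≤ R1 := by positivity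
  have hv0B : v0 ∈ closedBall v0 R := mem_closedBall_self hR.le
  have hWN : ∀ q ∈ W, |q.1| ≤ N0 ∧ ∀ i, |q.2 i| ≤ N0 := by
    intro q hq
    obtain ⟨h3, _⟩ := hWv q hq
    constructor
    · rw [← hWf q hq]
      have h4 := hLip _ (hBR h3) v0 hv0B
      have h5 : ‖Ψ q - v0‖ ≤ R := by
        rw [← dist_eq_norm]
        exact hBR h3
      have h6 : |f (Ψ q)| ≤ |f (Ψ q) - f v0| + |f v0| := by
        have := abs_add_le (f (Ψ q) - f v0) (f v0)
        rwa [sub_add_cancel] at this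
      have h7 : L * ‖Ψ q - v0‖ ≤ L * R := mul_le_mul_of_nonneg_left h5 hL.le
      rw [hN0]
      linarith
    · intro i
      rw [← hWi q hq i]
      have h4 := (norm_coord_le b (Ψ q) i.succ).trans (hBn _ h3)
      have h5 : 0 ≤ |f v0| + L * R := by positivity
      rw [hN0]
      linarith
  have hWR : ∀ q ∈ W, ‖Ψ q‖ ≤ R1 := fun q hq => hBn _ (hWv q hq).1
  have hX : ∀ q ∈ W, ∀ t, X A Ψ τ q t = a (Ψ q) + (t - τ q.1) • Ψ q := fun q _ t => rfl
  have hsep : ∀ ρ : ℝ, 0 < ρ → ∀ s y y', (s, y) ∈ W → (s, y') ∈ W → ∀ t, τ s + ρ ≤ t →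
      ρ * ‖y - y'‖ ≤ ‖X A Ψ τ (s, y) t - X A Ψ τ (s, y') t‖ := by
    intro ρ hρ s y y' hy hy' t ht
    have h3 : 0 ≤ ⟪a (Ψ (s, y)) - a (Ψ (s, y')), Ψ (s, y) - Ψ (s, y')⟫ :=
      h1 _ (hRU (hBR (hWv _ hy).1)) _ (hRU (hBR (hWv _ hy').1))
        ((hWf _ hy).trans (hWf _ hy').symm)
    have h4 := sep h3 hρ.le (show ρ ≤ t - τ s by linarith)
    have h5 : ‖y - y'‖ ≤ ‖Ψ (s, y) - Ψ (s, y')‖ := by
      rw [pi_norm_le_iff_of_nonneg (norm_nonneg _)]
      intro i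
      have h6 : (y - y') i = ⟪b i.succ, Ψ (s, y) - Ψ (s, y')⟫ := by
        rw [inner_sub_right, hWi _ hy, hWi _ hy']
        rfl
      rw [h6, Real.norm_eq_abs]
      exact norm_coord_le b _ _
    exact (mul_le_mul_of_nonneg_left h5 hρ.le).trans h4
  have hcross : ∀ q ∈ W, ∀ s', q.1 < s' → ∀ t₁ t₂ y₁ y₂ η, τ s' ≤ t₁ → τ s' ≤ t₂ →
      (s', y₁) ∈ W → (s', y₂) ∈ W → ‖X A Ψ τ q t₁ - X A Ψ τ (s', y₁) t₁‖ ≤ η →
      ‖X A Ψ τ q t₂ - X A Ψ τ (s', y₂) t₂‖ ≤ η → |t₁ - t₂| * (s' - q.1) ≤ (2 * L) * η := by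
    intro q hq s' hqs t₁ t₂ y₁ y₂ η ht₁ ht₂ hy₁ hy₂ hc₁ hc₂
    have h3 := cross hR hL hRU hLip h2 (hWv _ hq).1 (hWv _ hy₁).1 (hWv _ hy₂).1
      (hWf _ hy₁) (hWf _ hy₂) (by rw [hWf _ hq]; exact hqs) ht₁ ht₂ (τ := τ q.1) hc₁ hc₂
    rw [hWf _ hq] at h3
    exact h3
  -- the set of parameters
  set V1 : Set (E (k + 1)) := V ∩ B with hV1
  have hV1pos : 0 < volume V1 := by
    apply hnear
    rw [hV1]
    exact inter_mem self_mem_nhdsWithin (mem_nhdsWithin_of_mem_nhds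
      (closedBall_mem_nhds v0 (by positivity)))
  set G : Set ((ℝ × (Fin k → ℝ)) × ℝ) :=
    {z | z.1 ∈ Th f b '' V1 ∧ τ z.1.1 < z.2 ∧ Phi A Ψ τ z ∈ proj '' K} with hGdef
  have hG : ∀ z ∈ G, z.1 ∈ W ∧ τ z.1.1 < z.2 := by
    rintro z ⟨h3, h4, _⟩
    exact ⟨image_mono inter_subset_right h3, h4⟩
  have hsec : ∀ q ∈ Th f b '' V1, 0 < volume (Prod.mk q ⁻¹' G) := by
    rintro _ ⟨v, ⟨hvV, hvB⟩, rfl⟩
    have h3 : {r : ℝ | 0 < r ∧ pt (a v + r • v) (τ (f v) + r) ∈ K} ⊆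
        (fun r => r + τ (f v)) ⁻¹' (Prod.mk (Th f b v) ⁻¹' G) := by
      rintro r ⟨hr, hrK⟩
      refine ⟨mem_image_of_mem _ ⟨hvV, hvB⟩, ?_, ?_⟩
      · change τ (f v) < r + τ (f v)
        linarith
      · refine ⟨_, hrK, ?_⟩
        rw [proj_pt]
        have e1 : Phi A Ψ τ (Th f b v, r + τ (f v)) =
            (a (Ψ (Th f b v)) + (r + τ (f v) - τ (f v)) • Ψ (Th f b v), r + τ (f v)) := rfl
        rw [e1, hΨ v hvB, add_sub_cancel_right, add_comm r]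
    have h4 := (hK v hvV).trans_le (measure_mono h3)
    rwa [measure_preimage_add_right] at h4
  have hGpos : 0 < volume G := by
    rw [pos_iff_ne_zero]
    intro h0
    rw [Measure.volume_eq_prod] at h0
    have h3 := Measure.measure_ae_null_of_prod_null h0
    rw [Filter.EventuallyEq, ae_iff] at h3
    have h4 : volume (Th f b '' V1) = 0 := by
      refine measure_mono_null ?_ h3
      intro q hq
      exact (hsec q hq).ne'
    have hH : (volume : Measure (ℝ × (Fin k → ℝ))).IsAddHaarMeasure := by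
      rw [Measure.volume_eq_prod]
      infer_instance
    have h5 : volume (Ψ '' (Th f b '' V1)) = 0 :=
      null_image volume volume (by simp [add_comm]) hΨL h4
    have h6 : Ψ '' (Th f b '' V1) = V1 := by
      rw [image_image]
      ext v
      constructor
      · rintro ⟨w, hw, rfl⟩
        change Ψ (Th f b w) ∈ V1
        rw [hΨ w hw.2]
        exact hw
      · intro hv
        exact ⟨v, hv, hΨ v hv.2⟩
    rw [h6] at h5
    exact hV1pos.ne' h5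
  have hfin := dim_of_family hA hΨm hτ hW (by positivity : 0 < 2 * L) hWN hWR hsep hcross
    (G := G) (K := proj '' K) hG (fun z hz => hz.2.2) hGpos
  exact hfin.trans (lipschitz_proj.dimH_image_le K)

end Pool.Agent.V5helper34.KC
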