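import Mathlib

set_option autoImplicit false

/-!
# Local geometry of a convex function near a point which is not a minimum, and the crossing lemma
-/

open MeasureTheory Set Filter Topology ENNReal NNReal Metric

open scoped RealInnerProductSpace

namespace Pool.Agent.V5helper34.KC

section

variable {F : Type*} [NormedAddCommGroup F] [InnerProductSpace ℝ F]

/-- Near a point which is not a minimum a convex function is Lipschitz and increases with a positive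
rate in a fixed direction. -/
theorem local_data [FiniteDimensional ℝ F] {U : Set F} (hU : IsOpen U) {f : F → ℝ} (hf : ConvexOn ℝ U f) {v0 u0 : F}
    (hv0 : v0 ∈ U) (hu0 : u0 ∈ U) (hlt : f u0 < f v0) :
    ∃ R : ℝ, 0 < R ∧ ∃ L : ℝ, 0 < L ∧ ∃ c : ℝ, 0 < c ∧ ∃ e : F, ‖e‖ = 1 ∧ closedBall v0 R ⊆ U ∧
      (∀ v ∈ closedBall v0 R, ∀ w ∈ closedBall v0 R, |f v - f w| ≤ L * ‖v - w‖) ∧
      ∀ v ∈ closedBall v0 R, ∀ h : ℝ, 0 ≤ h → v + h • e ∈ closedBall v0 R →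
        c * h ≤ f (v + h • e) - f v := by
  have hne : v0 - u0 ≠ 0 := by
    intro h
    rw [sub_eq_zero] at h
    rw [h] at hlt
    exact lt_irrefl _ hlt
  set l : ℝ := ‖v0 - u0‖ with hl
  have hl0 : 0 < l := norm_pos_iff.2 hne
  set g : ℝ := f v0 - f u0 with hg
  have hg0 : 0 < g := by rw [hg]; linarith
  have hcont : ContinuousOn f U := hf.continuousOn hU
  have hc1 : ∀ᶠ v in 𝓝 v0, v ∈ U ∧ f v0 - g / 4 < f v :=
    Filter.Eventually.and (hU.mem_nhds hv0) ((hcont.continuousAt (hU.mem_nhds hv0)).eventually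
      (lt_mem_nhds (by linarith)))
  have hc2 : ∀ᶠ u in 𝓝 u0, u ∈ U ∧ f u < f u0 + g / 4 :=
    Filter.Eventually.and (hU.mem_nhds hu0) ((hcont.continuousAt (hU.mem_nhds hu0)).eventually
      (gt_mem_nhds (by linarith)))
  obtain ⟨r1, hr1, h1⟩ := Metric.eventually_nhds_iff_ball.1 hc1
  obtain ⟨r2, hr2, h2⟩ := Metric.eventually_nhds_iff_ball.1 hc2
  obtain ⟨Kc, t, ht, hLip⟩ := hf.locallyLipschitzOn hU hv0
  rw [nhdsWithin_eq_nhds.2 (hU.mem_nhds hv0)] at ht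
  obtain ⟨r3, hr3, h3⟩ := Metric.mem_nhds_iff.1 ht
  set R : ℝ := min r1 (min r2 r3) / 2 with hR
  have hR0 : 0 < R := by
    rw [hR]
    exact half_pos (lt_min hr1 (lt_min hr2 hr3))
  have hR1 : R < r1 := by
    have := min_le_left r1 (min r2 r3)
    have h4 : 0 < min r1 (min r2 r3) := lt_min hr1 (lt_min hr2 hr3)
    rw [hR]
    linarith
  have hR2 : R < r2 := by
    have := (min_le_right r1 (min r2 r3)).trans (min_le_left _ _)
    have h4 : 0 < min r1 (min r2 r3) := lt_min hr1 (lt_min hr2 hr3)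
    rw [hR]
    linarith
  have hR3 : R < r3 := by
    have := (min_le_right r1 (min r2 r3)).trans (min_le_right _ _)
    have h4 : 0 < min r1 (min r2 r3) := lt_min hr1 (lt_min hr2 hr3)
    rw [hR]
    linarith
  refine ⟨R, hR0, Kc + 1, by positivity, g / (2 * l), by positivity, l⁻¹ • (v0 - u0), ?_, ?_, ?_, ?_⟩
  · rw [norm_smul, norm_inv, Real.norm_eq_abs, abs_of_pos hl0, ← hl, inv_mul_cancel₀ hl0.ne']
  · intro v hv
    exact (h1 v (closedBall_subset_ball hR1 hv)).1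
  · intro v hv w hw
    have h4 := hLip.dist_le_mul v (h3 (closedBall_subset_ball hR3 hv)) w
      (h3 (closedBall_subset_ball hR3 hw))
    rw [Real.dist_eq, dist_eq_norm] at h4
    have := norm_nonneg (v - w)
    nlinarith
  · intro v hv h hh hv'
    have hvU := h1 v (closedBall_subset_ball hR1 hv)
    have hv'U := h1 _ (closedBall_subset_ball hR1 hv')
    set u : F := v - (v0 - u0) with hu
    have huB : u ∈ ball u0 r2 := by
      rw [mem_ball, dist_eq_norm]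
      have e1 : u - u0 = v - v0 := by rw [hu]; abel
      rw [e1, ← dist_eq_norm]
      exact lt_of_le_of_lt hv hR2
    have huU := h2 u huB
    have hsum : 0 < l + h := by linarith
    have hcomb : v = (h / (l + h)) • u + (l / (l + h)) • (v + h • l⁻¹ • (v0 - u0)) := by
      have e2 : (h / (l + h)) • u + (l / (l + h)) • (v + h • l⁻¹ • (v0 - u0)) =
          (h / (l + h) + l / (l + h)) • v +
            ((l / (l + h)) * h * l⁻¹ - h / (l + h)) • (v0 - u0) := by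
        rw [hu]
        module
      rw [e2]
      have e3 : h / (l + h) + l / (l + h) = 1 := by field_simp; ring
      have e4 : (l / (l + h)) * h * l⁻¹ - h / (l + h) = 0 := by field_simp; ring
      rw [e3, e4, one_smul, zero_smul, add_zero]
    have hconv := hf.2 huU.1 hv'U.1 (show 0 ≤ h / (l + h) by positivity)
      (show 0 ≤ l / (l + h) by positivity) (by field_simp; ring)
    rw [← hcomb] at hconv
    simp only [smul_eq_mul] at hconv
    have h5 : (l + h) * f v ≤ h * f u + l * f (v + h • l⁻¹ • (v0 - u0)) := by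
      have := mul_le_mul_of_nonneg_left hconv hsum.le
      have e5 : (l + h) * (h / (l + h) * f u + l / (l + h) * f (v + h • l⁻¹ • (v0 - u0))) =
          h * f u + l * f (v + h • l⁻¹ • (v0 - u0)) := by field_simp
      linarith
    have h6 : g / 2 ≤ f v - f u := by
      have := hvU.2
      have := huU.2
      rw [hg] at *
      linarith
    have h7 : h * (g / 2) ≤ l * (f (v + h • l⁻¹ • (v0 - u0)) - f v) := by nlinarith
    rw [div_mul_eq_mul_div, div_le_iff₀ (by positivity)]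
    nlinarith

/-- **The crossing lemma**, one order of the heights. -/
theorem cross_aux {U : Set F} {f : F → ℝ} {v0 : F} {R L : ℝ} (hR : 0 < R) (hL : 0 < L)
    (hRU : closedBall v0 R ⊆ U)
    (hLip : ∀ v ∈ closedBall v0 R, ∀ w ∈ closedBall v0 R, |f v - f w| ≤ L * ‖v - w‖)
    {a : F → F}
    (h2 : ∀ v ∈ U, (∃ u ∈ U, f u < f v) → ∃ ν : F, ν ≠ 0 ∧
      (∀ u ∈ U, f u ≤ f v → ⟪ν, u⟫ ≤ ⟪ν, v⟫) ∧ ∀ w ∈ U, f w = f v → ⟪ν, a w⟫ ≤ ⟪ν, a v⟫)
    {v w₁ w₂ : F} (hv : v ∈ closedBall v0 (R / 4)) (hw₁ : w₁ ∈ closedBall v0 (R / 4))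
    (hw₂ : w₂ ∈ closedBall v0 (R / 4)) (h12 : f w₁ = f w₂) (hlt : f v < f w₂) {η t₁ t₂ τ τ' : ℝ}
    (ht : t₁ ≤ t₂) (ht1 : τ' ≤ t₁)
    (hc1 : ‖(a v + (t₁ - τ) • v) - (a w₁ + (t₁ - τ') • w₁)‖ ≤ η)
    (hc2 : ‖(a v + (t₂ - τ) • v) - (a w₂ + (t₂ - τ') • w₂)‖ ≤ η) :
    (t₂ - t₁) * (f w₂ - f v) ≤ 2 * L * η := by
  have hsub : closedBall v0 (R / 4) ⊆ closedBall v0 R := closedBall_subset_closedBall (by linarith)
  obtain ⟨ν', hν0, hνs', hνa'⟩ := h2 w₂ (hRU (hsub hw₂)) ⟨v, hRU (hsub hv), hlt⟩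
  -- the unit normal
  set ν : F := ‖ν'‖⁻¹ • ν' with hν
  have hn0 : 0 < ‖ν'‖ := norm_pos_iff.2 hν0
  have hn1 : ‖ν‖ = 1 := by
    rw [hν, norm_smul, norm_inv, norm_norm, inv_mul_cancel₀ hn0.ne']
  have hνs : ∀ u ∈ U, f u ≤ f w₂ → ⟪ν, u⟫ ≤ ⟪ν, w₂⟫ := by
    intro u hu hfu
    rw [hν, real_inner_smul_left, real_inner_smul_left]
    exact mul_le_mul_of_nonneg_left (hνs' u hu hfu) (by positivity)
  have hνa : ∀ w ∈ U, f w = f w₂ → ⟪ν, a w⟫ ≤ ⟪ν, a w₂⟫ := by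
    intro w hw hfw
    rw [hν, real_inner_smul_left, real_inner_smul_left]
    exact mul_le_mul_of_nonneg_left (hνa' w hw hfw) (by positivity)
  -- the gap
  set κ : ℝ := (f w₂ - f v) / L with hκ
  have hκ0 : 0 < κ := div_pos (by linarith) hL
  have hvv : dist v v0 ≤ R / 4 := hv
  have hww : dist w₂ v0 ≤ R / 4 := hw₂
  have hκR : κ ≤ R / 2 := by
    rw [hκ, div_le_iff₀ hL]
    have e1 := hLip w₂ (hsub hw₂) v (hsub hv)
    have e2 : ‖w₂ - v‖ ≤ R / 2 := by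
      rw [← dist_eq_norm]
      calc dist w₂ v ≤ dist w₂ v0 + dist v0 v := dist_triangle _ _ _
        _ ≤ R / 4 + R / 4 := add_le_add hww (by rw [dist_comm]; exact hvv)
        _ = R / 2 := by ring
    have e3 := le_abs_self (f w₂ - f v)
    nlinarith
  have hmem : v + κ • ν ∈ closedBall v0 R := by
    rw [mem_closedBall]
    calc dist (v + κ • ν) v0 ≤ dist (v + κ • ν) v + dist v v0 := dist_triangle _ _ _
      _ ≤ κ + R / 4 := by
          refine add_le_add ?_ hvv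
          rw [dist_eq_norm, add_sub_cancel_left, norm_smul, hn1, Real.norm_eq_abs,
            abs_of_pos hκ0, mul_one]
      _ ≤ R := by linarith
  have hgap : ⟪ν, v⟫ + κ ≤ ⟪ν, w₂⟫ := by
    have e1 := hLip (v + κ • ν) hmem v (hsub hv)
    rw [add_sub_cancel_left, norm_smul, hn1, Real.norm_eq_abs, abs_of_pos hκ0, mul_one] at e1
    have e2 : L * κ = f w₂ - f v := by rw [hκ]; field_simp
    have e3 := hνs (v + κ • ν) (hRU hmem) (by
      have := le_abs_self (f (v + κ • ν) - f v)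
      linarith)
    rw [inner_add_right, real_inner_smul_right, real_inner_self_eq_norm_sq, hn1] at e3
    linarith
  -- the two inequalities
  have hin : ∀ x : F, |⟪ν, x⟫| ≤ ‖x‖ := by
    intro x
    have := abs_real_inner_le_norm ν x
    rwa [hn1, one_mul] at this
  have i1 : -η ≤ ⟪ν, (a v + (t₂ - τ) • v) - (a w₂ + (t₂ - τ') • w₂)⟫ := by
    have := hin ((a v + (t₂ - τ) • v) - (a w₂ + (t₂ - τ') • w₂))
    have := neg_abs_le ⟪ν, (a v + (t₂ - τ) • v) - (a w₂ + (t₂ - τ') • w₂)⟫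
    linarith
  have i2 : ⟪ν, (a v + (t₁ - τ) • v) - (a w₁ + (t₁ - τ') • w₁)⟫ ≤ η := by
    have := hin ((a v + (t₁ - τ) • v) - (a w₁ + (t₁ - τ') • w₁))
    have := le_abs_self ⟪ν, (a v + (t₁ - τ) • v) - (a w₁ + (t₁ - τ') • w₁)⟫
    linarith
  simp only [inner_add_right, inner_sub_right, real_inner_smul_right] at i1 i2
  have i3 := hνa w₁ (hRU (hsub hw₁)) h12
  have i4 := hνs w₁ (hRU (hsub hw₁)) h12.le
  have i5 : (t₁ - τ') * ⟪ν, w₁⟫ ≤ (t₁ - τ') * ⟪ν, w₂⟫ :=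
    mul_le_mul_of_nonneg_left i4 (by linarith)
  have i6 : (t₂ - t₁) * κ ≤ 2 * η := by
    have i7 : (t₂ - t₁) * (⟪ν, v⟫ + κ) ≤ (t₂ - t₁) * ⟪ν, w₂⟫ :=
      mul_le_mul_of_nonneg_left hgap (by linarith)
    nlinarith
  have e2 : f w₂ - f v = L * κ := by rw [hκ]; field_simp
  rw [e2]
  nlinarith

/-- **The crossing lemma.** -/
theorem cross {U : Set F} {f : F → ℝ} {v0 : F} {R L : ℝ} (hR : 0 < R) (hL : 0 < L)
    (hRU : closedBall v0 R ⊆ U)
    (hLip : ∀ v ∈ closedBall v0 R, ∀ w ∈ closedBall v0 R, |f v - f w| ≤ L * ‖v - w‖)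
    {a : F → F}
    (h2 : ∀ v ∈ U, (∃ u ∈ U, f u < f v) → ∃ ν : F, ν ≠ 0 ∧
      (∀ u ∈ U, f u ≤ f v → ⟪ν, u⟫ ≤ ⟪ν, v⟫) ∧ ∀ w ∈ U, f w = f v → ⟪ν, a w⟫ ≤ ⟪ν, a v⟫)
    {v w₁ w₂ : F} (hv : v ∈ closedBall v0 (R / 4)) (hw₁ : w₁ ∈ closedBall v0 (R / 4))
    (hw₂ : w₂ ∈ closedBall v0 (R / 4)) {s' : ℝ} (hs1 : f w₁ = s') (hs2 : f w₂ = s')
    (hlt : f v < s') {η t₁ t₂ τ τ' : ℝ}
    (ht1 : τ' ≤ t₁) (ht2 : τ' ≤ t₂)
    (hc1 : ‖(a v + (t₁ - τ) • v) - (a w₁ + (t₁ - τ') • w₁)‖ ≤ η)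
    (hc2 : ‖(a v + (t₂ - τ) • v) - (a w₂ + (t₂ - τ') • w₂)‖ ≤ η) :
    |t₁ - t₂| * (s' - f v) ≤ 2 * L * η := by
  rcases le_total t₁ t₂ with h | h
  · have := cross_aux hR hL hRU hLip h2 hv hw₁ hw₂ (hs1.trans hs2.symm) (hs2 ▸ hlt) h ht1 hc1 hc2
    rw [hs2] at this
    rw [abs_sub_comm, abs_of_nonneg (by linarith)]
    exact this
  · have := cross_aux hR hL hRU hLip h2 hv hw₂ hw₁ (hs2.trans hs1.symm) (hs1 ▸ hlt) h ht2 hc2 hc1
    rw [hs1] at this
    rw [abs_of_nonneg (by linarith)]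
    exact this

theorem le_of_sq_le_sq' {x y : ℝ} (h : x ^ 2 ≤ y ^ 2) (hy : 0 ≤ y) : x ≤ y :=
  (le_abs_self x).trans (by rw [← abs_of_nonneg hy]; exact sq_le_sq.1 h)

/-- Rays of one leaf diverge. -/
theorem sep {a : F → F} {v w : F} (h : 0 ≤ ⟪a v - a w, v - w⟫) {r ρ : ℝ} (hρ : 0 ≤ ρ) (hr : ρ ≤ r) :
    ρ * ‖v - w‖ ≤ ‖(a v + r • v) - (a w + r • w)‖ := by
  have e1 : (a v + r • v) - (a w + r • w) = (a v - a w) + r • (v - w) := by module
  rw [e1]
  have hr0 : 0 ≤ r := hρ.trans hr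
  have e2 : (r * ‖v - w‖) ^ 2 ≤ ‖(a v - a w) + r • (v - w)‖ ^ 2 := by
    rw [norm_add_sq_real, norm_smul, Real.norm_eq_abs, abs_of_nonneg hr0, real_inner_smul_right]
    have := sq_nonneg ‖a v - a w‖
    have := mul_nonneg hr0 h
    nlinarith
  have e3 : r * ‖v - w‖ ≤ ‖(a v - a w) + r • (v - w)‖ := by
    exact le_of_sq_le_sq' e2 (norm_nonneg _)
  exact (mul_le_mul_of_nonneg_right hr (norm_nonneg _)).trans e3

end

end Pool.Agent.V5helper34.KC
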