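import Pool.Agent.V5helper34.KC.Pair

set_option autoImplicit false

/-!
# Close pairs in families of rays with the crossing property: the estimate
-/

open MeasureTheory Set Filter Topology ENNReal NNReal Metric

namespace Pool.Agent.V5helper34.KC

section

variable {k : ℕ} {F : Type*} [NormedAddCommGroup F] [NormedSpace ℝ F] [MeasurableSpace F]
  [BorelSpace F] [SecondCountableTopology F]
  {A Ψ : ℝ × (Fin k → ℝ) → F} {τ : ℝ → ℝ}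

/-- the reordered integral -/
theorem reorder (hA : Measurable A) (hΨ : Measurable Ψ) (hτ : Measurable τ)
    {W : Set (ℝ × (Fin k → ℝ))} (hW : MeasurableSet W) (N ρ η : ℝ) :
    ∫⁻ z : (ℝ × (Fin k → ℝ)) × ℝ, ∫⁻ q : ℝ × (Fin k → ℝ),
        gBad A Ψ τ W N ρ η q z.1.1 z.2 z.1.2 =
      ∫⁻ s' : ℝ, ∫⁻ q : ℝ × (Fin k → ℝ), ∫⁻ t' : ℝ, ∫⁻ y' : Fin k → ℝ,
        gBad A Ψ τ W N ρ η q s' t' y' := by
  have hg := measurable_gBad hA hΨ hτ hW N ρ η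
  have m0 : Measurable (fun p : ((ℝ × (Fin k → ℝ)) × ℝ) × (ℝ × (Fin k → ℝ)) =>
      gBad A Ψ τ W N ρ η p.2 p.1.1.1 p.1.2 p.1.1.2) :=
    hg.comp (by fun_prop : Measurable (fun p : ((ℝ × (Fin k → ℝ)) × ℝ) × (ℝ × (Fin k → ℝ)) =>
      ((p.2, p.1.1.1, p.1.2, p.1.1.2) : (ℝ × (Fin k → ℝ)) × ℝ × ℝ × (Fin k → ℝ))))
  have m1 : Measurable (fun z : (ℝ × (Fin k → ℝ)) × ℝ => ∫⁻ q : ℝ × (Fin k → ℝ),
      gBad A Ψ τ W N ρ η q z.1.1 z.2 z.1.2) := m0.lintegral_prod_right'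
  have s1 : ∫⁻ z : (ℝ × (Fin k → ℝ)) × ℝ, ∫⁻ q : ℝ × (Fin k → ℝ),
        gBad A Ψ τ W N ρ η q z.1.1 z.2 z.1.2 =
      ∫⁻ x : ℝ × (Fin k → ℝ), ∫⁻ t' : ℝ, ∫⁻ q : ℝ × (Fin k → ℝ),
        gBad A Ψ τ W N ρ η q x.1 t' x.2 := by
    rw [Measure.volume_eq_prod (ℝ × (Fin k → ℝ)) ℝ]
    exact lintegral_prod _ m1.aemeasurable
  have m2 : Measurable (fun x : ℝ × (Fin k → ℝ) => ∫⁻ t' : ℝ, ∫⁻ q : ℝ × (Fin k → ℝ),
      gBad A Ψ τ W N ρ η q x.1 t' x.2) := m1.lintegral_prod_right'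
  have s2 : ∫⁻ x : ℝ × (Fin k → ℝ), ∫⁻ t' : ℝ, ∫⁻ q : ℝ × (Fin k → ℝ),
        gBad A Ψ τ W N ρ η q x.1 t' x.2 =
      ∫⁻ s' : ℝ, ∫⁻ y' : Fin k → ℝ, ∫⁻ t' : ℝ, ∫⁻ q : ℝ × (Fin k → ℝ),
        gBad A Ψ τ W N ρ η q s' t' y' :=
    lintegral_prod (μ := (volume : Measure ℝ)) (ν := (volume : Measure (Fin k → ℝ)))
      (fun x : ℝ × (Fin k → ℝ) => ∫⁻ t' : ℝ, ∫⁻ q : ℝ × (Fin k → ℝ),
        gBad A Ψ τ W N ρ η q x.1 t' x.2) m2.aemeasurable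
  rw [s1, s2]
  apply lintegral_congr
  intro s'
  have m3 : Measurable (fun p : (Fin k → ℝ) × ℝ => ∫⁻ q : ℝ × (Fin k → ℝ),
      gBad A Ψ τ W N ρ η q s' p.2 p.1) :=
    m1.comp (by fun_prop : Measurable (fun p : (Fin k → ℝ) × ℝ =>
      (((s', p.1), p.2) : (ℝ × (Fin k → ℝ)) × ℝ)))
  have e1 : ∫⁻ y' : Fin k → ℝ, ∫⁻ t' : ℝ, ∫⁻ q : ℝ × (Fin k → ℝ),
        gBad A Ψ τ W N ρ η q s' t' y' =
      ∫⁻ t' : ℝ, ∫⁻ y' : Fin k → ℝ, ∫⁻ q : ℝ × (Fin k → ℝ),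
        gBad A Ψ τ W N ρ η q s' t' y' :=
    lintegral_lintegral_swap (f := fun y' t' => ∫⁻ q : ℝ × (Fin k → ℝ),
      gBad A Ψ τ W N ρ η q s' t' y') m3.aemeasurable
  have e2 : ∀ t' : ℝ, ∫⁻ y' : Fin k → ℝ, ∫⁻ q : ℝ × (Fin k → ℝ),
        gBad A Ψ τ W N ρ η q s' t' y' =
      ∫⁻ q : ℝ × (Fin k → ℝ), ∫⁻ y' : Fin k → ℝ, gBad A Ψ τ W N ρ η q s' t' y' := by
    intro t'
    have m4 : Measurable (fun p : (Fin k → ℝ) × (ℝ × (Fin k → ℝ)) =>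
        gBad A Ψ τ W N ρ η p.2 s' t' p.1) :=
      hg.comp (by fun_prop : Measurable (fun p : (Fin k → ℝ) × (ℝ × (Fin k → ℝ)) =>
        ((p.2, s', t', p.1) : (ℝ × (Fin k → ℝ)) × ℝ × ℝ × (Fin k → ℝ))))
    exact lintegral_lintegral_swap (f := fun y' q => gBad A Ψ τ W N ρ η q s' t' y') m4.aemeasurable
  have m6 : Measurable (fun p : (ℝ × (ℝ × (Fin k → ℝ))) × (Fin k → ℝ) =>
        gBad A Ψ τ W N ρ η p.1.2 s' p.1.1 p.2) :=
      hg.comp (by fun_prop : Measurable (fun p : (ℝ × (ℝ × (Fin k → ℝ))) × (Fin k → ℝ) =>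
        ((p.1.2, s', p.1.1, p.2) : (ℝ × (Fin k → ℝ)) × ℝ × ℝ × (Fin k → ℝ))))
  have m5 : Measurable (fun p : ℝ × (ℝ × (Fin k → ℝ)) => ∫⁻ y' : Fin k → ℝ,
      gBad A Ψ τ W N ρ η p.2 s' p.1 y') := m6.lintegral_prod_right'
  have e3 : ∫⁻ t' : ℝ, ∫⁻ q : ℝ × (Fin k → ℝ), ∫⁻ y' : Fin k → ℝ,
        gBad A Ψ τ W N ρ η q s' t' y' =
      ∫⁻ q : ℝ × (Fin k → ℝ), ∫⁻ t' : ℝ, ∫⁻ y' : Fin k → ℝ,
        gBad A Ψ τ W N ρ η q s' t' y' :=
    lintegral_lintegral_swap (f := fun t' q => ∫⁻ y' : Fin k → ℝ,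
      gBad A Ψ τ W N ρ η q s' t' y') m5.aemeasurable
  rw [e1, ← e3]
  apply lintegral_congr
  exact e2

/-- The total integral of the bad configurations. -/
theorem outer_bound {W : Set (ℝ × (Fin k → ℝ))} {N ρ c C1 p : ℝ} (hN : 0 < N) (hρ : 0 < ρ)
    (hc : 0 < c) (hC1 : 0 < C1) (hp0 : 0 < p) (hp : p < 1)
    (hWN : ∀ q ∈ W, |q.1| ≤ N ∧ ∀ i, |q.2 i| ≤ N)
    (hsep : ∀ s y y', (s, y) ∈ W → (s, y') ∈ W → ∀ t, τ s + ρ ≤ t →
      c * ‖y - y'‖ ≤ ‖X A Ψ τ (s, y) t - X A Ψ τ (s, y') t‖)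
    (hcross : ∀ q ∈ W, ∀ s', q.1 < s' → ∀ t₁ t₂ y₁ y₂ η, τ s' ≤ t₁ → τ s' ≤ t₂ →
      (s', y₁) ∈ W → (s', y₂) ∈ W → ‖X A Ψ τ q t₁ - X A Ψ τ (s', y₁) t₁‖ ≤ η →
      ‖X A Ψ τ q t₂ - X A Ψ τ (s', y₂) t₂‖ ≤ η → |t₁ - t₂| * (s' - q.1) ≤ C1 * η) :
    ∃ C : ℝ≥0∞, C ≠ ∞ ∧ ∀ η : ℝ, 0 < η →
      ∫⁻ s' : ℝ, ∫⁻ q : ℝ × (Fin k → ℝ), ∫⁻ t' : ℝ, ∫⁻ y' : Fin k → ℝ,
        gBad A Ψ τ W N ρ η q s' t' y' ≤ C * ENNReal.ofReal (η ^ ((k : ℝ) + p)) := by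
  classical
  obtain ⟨D, hD, h1⟩ := Pool.Agent.H023R3.KG.one_dim hp0 hp N
  set V0 : ℝ≥0∞ := volume (univ.pi fun _ : Fin k => Icc (-N) N) with hV0
  have hV0t : V0 ≠ ∞ := by
    rw [hV0, volume_pi, Measure.pi_pi]
    exact ENNReal.prod_ne_top (fun _ _ => measure_Icc_lt_top.ne)
  set K0 : ℝ := (4 / c) ^ k * ((2 * C1) ^ p * (2 * N) ^ (1 - p)) with hK0
  refine ⟨ENNReal.ofReal K0 * (D * V0) * volume (Icc (-N) N), ?_, ?_⟩
  · exact ENNReal.mul_ne_top (ENNReal.mul_ne_top ENNReal.ofReal_ne_top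
      (ENNReal.mul_ne_top hD hV0t)) measure_Icc_lt_top.ne
  intro η hη
  set H : ℝ≥0∞ := ENNReal.ofReal ((4 * η / c) ^ k * ((2 * C1 * η) ^ p * (2 * N) ^ (1 - p))) with hH
  have hHK : H = ENNReal.ofReal K0 * ENNReal.ofReal (η ^ ((k : ℝ) + p)) := by
    rw [hH, hK0, ← ENNReal.ofReal_mul (by positivity)]
    congr 1
    rw [Real.rpow_add hη, Real.rpow_natCast, Real.mul_rpow (by positivity) hη.le,
      show 4 * η / c = (4 / c) * η by ring, mul_pow]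
    ring
  set B : Set (ℝ × (Fin k → ℝ)) := Icc (-N) N ×ˢ (univ.pi fun _ : Fin k => Icc (-N) N) with hB
  have hBm : MeasurableSet B := measurableSet_Icc.prod (MeasurableSet.univ_pi
    (fun _ => measurableSet_Icc))
  have hWB : W ⊆ B := by
    intro q hq
    obtain ⟨h2, h3⟩ := hWN q hq
    refine ⟨abs_le.1 h2, ?_⟩
    rw [mem_univ_pi]
    intro i
    exact abs_le.1 (h3 i)
  have hb : ∀ (s' : ℝ) (q : ℝ × (Fin k → ℝ)), ∫⁻ t' : ℝ, ∫⁻ y' : Fin k → ℝ,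
      gBad A Ψ τ W N ρ η q s' t' y' ≤
      (Icc (-N) N).indicator (fun _ => B.indicator
        (fun q => H * (ENNReal.ofReal |s' - q.1|) ^ (-p)) q) s' := by
    intro s' q
    by_cases hne : ∃ t' y', Bad A Ψ τ W N ρ η q s' t' y'
    · obtain ⟨t', y', h⟩ := hne
      have hs' : s' ∈ Icc (-N) N := abs_le.1 (hWN _ h.2.1).1
      rw [indicator_of_mem hs', indicator_of_mem (hWB h.1)]
      exact inner_bound hN hρ hc hC1 hp0 hp hsep hcross hη q s'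
    · push Not at hne
      have h2 : ∀ t' y', gBad A Ψ τ W N ρ η q s' t' y' = 0 := by
        intro t' y'
        unfold gBad
        rw [if_neg (hne t' y')]
      simp [h2]
  have hq : ∀ s' : ℝ, ∫⁻ q : ℝ × (Fin k → ℝ), B.indicator
      (fun q => H * (ENNReal.ofReal |s' - q.1|) ^ (-p)) q ≤ H * (D * V0) := by
    intro s'
    rw [lintegral_indicator hBm, hB, Measure.volume_eq_prod, ← Measure.prod_restrict]
    have hm : Measurable (fun q : ℝ × (Fin k → ℝ) => H * (ENNReal.ofReal |s' - q.1|) ^ (-p)) := by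
      refine Measurable.const_mul ?_ _
      refine Measurable.pow_const ?_ _
      fun_prop
    rw [lintegral_prod _ hm.aemeasurable]
    simp only [lintegral_const, Measure.restrict_apply_univ]
    rw [lintegral_mul_const _ (by
      refine Measurable.const_mul ?_ _
      refine Measurable.pow_const ?_ _
      fun_prop), lintegral_const_mul _ (by
      refine Measurable.pow_const ?_ _
      fun_prop), mul_assoc]
    gcongr
    have h2 := h1 s' (-1)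
    simp only [abs_neg, abs_one, ENNReal.ofReal_one, ENNReal.one_rpow, mul_one] at h2
    refine le_trans (le_of_eq ?_) h2
    apply lintegral_congr
    intro u
    congr 3
    ring
  calc ∫⁻ s' : ℝ, ∫⁻ q : ℝ × (Fin k → ℝ), ∫⁻ t' : ℝ, ∫⁻ y' : Fin k → ℝ,
        gBad A Ψ τ W N ρ η q s' t' y'
      ≤ ∫⁻ s' : ℝ, (Icc (-N) N).indicator (fun _ => H * (D * V0)) s' := by
        apply lintegral_mono
        intro s'
        refine (lintegral_mono (hb s')).trans ?_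
        by_cases hs : s' ∈ Icc (-N) N
        · simp only [indicator_of_mem hs]
          exact hq s'
        · simp only [indicator_of_notMem hs]
          simp
    _ = H * (D * V0) * volume (Icc (-N) N) := by
        rw [lintegral_indicator measurableSet_Icc, lintegral_const, Measure.restrict_apply_univ]
    _ = _ := by
        rw [hHK]
        ring

/-- the region of parameters -/
def Om (τ : ℝ → ℝ) (W : Set (ℝ × (Fin k → ℝ))) (N ρ : ℝ) : Set ((ℝ × (Fin k → ℝ)) × ℝ) :=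
  {z | z.1 ∈ W ∧ |z.2| ≤ N ∧ τ z.1.1 + ρ ≤ z.2}

theorem measurableSet_Om (hτ : Measurable τ) {W : Set (ℝ × (Fin k → ℝ))} (hW : MeasurableSet W)
    (N ρ : ℝ) : MeasurableSet (Om τ W N ρ) := by
  unfold Om
  refine (measurable_fst hW).inter (MeasurableSet.inter ?_ ?_)
  · exact measurableSet_le (f := fun z : (ℝ × (Fin k → ℝ)) × ℝ => |z.2|) (by fun_prop)
      measurable_const
  · exact measurableSet_le (f := fun z : (ℝ × (Fin k → ℝ)) × ℝ => τ z.1.1 + ρ)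
      (g := fun z => z.2) ((hτ.comp (measurable_fst.comp measurable_fst)).add_const _)
      measurable_snd

/-- the map -/
noncomputable def Phi (A Ψ : ℝ × (Fin k → ℝ) → F) (τ : ℝ → ℝ) (z : (ℝ × (Fin k → ℝ)) × ℝ) :
    F × ℝ := (X A Ψ τ z.1 z.2, z.2)

theorem measurable_Phi (hA : Measurable A) (hΨ : Measurable Ψ) (hτ : Measurable τ) :
    Measurable (Phi A Ψ τ) := (measurable_X hA hΨ hτ).prodMk measurable_snd

/-- the close pairs, the first one on the smaller level -/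
def Cl (A Ψ : ℝ × (Fin k → ℝ) → F) (τ : ℝ → ℝ) (W : Set (ℝ × (Fin k → ℝ))) (N ρ δ : ℝ) :
    Set (((ℝ × (Fin k → ℝ)) × ℝ) × ((ℝ × (Fin k → ℝ)) × ℝ)) :=
  {p | p.1 ∈ Om τ W N ρ ∧ p.2 ∈ Om τ W N ρ ∧ p.1.1.1 < p.2.1.1 ∧
        dist (Phi A Ψ τ p.1) (Phi A Ψ τ p.2) ≤ δ}

theorem measurableSet_Cl (hA : Measurable A) (hΨ : Measurable Ψ) (hτ : Measurable τ)
    {W : Set (ℝ × (Fin k → ℝ))} (hW : MeasurableSet W) (N ρ δ : ℝ) :
    MeasurableSet (Cl A Ψ τ W N ρ δ) := by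
  have hΦ := measurable_Phi hA hΨ hτ
  have hOm := measurableSet_Om (τ := τ) hτ hW N ρ
  refine (measurable_fst hOm).inter ((measurable_snd hOm).inter (MeasurableSet.inter ?_ ?_))
  · exact measurableSet_lt (f := fun p : ((ℝ × (Fin k → ℝ)) × ℝ) × ((ℝ × (Fin k → ℝ)) × ℝ) =>
      p.1.1.1) (g := fun p => p.2.1.1) (by fun_prop) (by fun_prop)
  · exact measurableSet_le ((hΦ.comp measurable_fst).dist (hΦ.comp measurable_snd))
      measurable_const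

/-- half of the pairs -/
theorem half_bound (hA : Measurable A) (hΨ : Measurable Ψ) (hτ : Measurable τ)
    {W : Set (ℝ × (Fin k → ℝ))} (hW : MeasurableSet W) {N ρ R : ℝ}
    (hWR : ∀ q ∈ W, ‖Ψ q‖ ≤ R) {δ : ℝ} (hδ : 0 < δ) :
    ((volume : Measure ((ℝ × (Fin k → ℝ)) × ℝ)).prod volume) (Cl A Ψ τ W N ρ δ) ≤
      ENNReal.ofReal (2 * δ) * ∫⁻ s' : ℝ, ∫⁻ q : ℝ × (Fin k → ℝ), ∫⁻ t' : ℝ, ∫⁻ y' : Fin k → ℝ,
        gBad A Ψ τ W N ρ ((1 + R) * δ) q s' t' y' := by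
  classical
  have hS := measurableSet_Cl hA hΨ hτ hW N ρ δ
  rw [Measure.prod_apply_symm hS]
  have key : ∀ z' : (ℝ × (Fin k → ℝ)) × ℝ,
      volume ((fun z => (z, z')) ⁻¹' (Cl A Ψ τ W N ρ δ)) ≤
      ∫⁻ q : ℝ × (Fin k → ℝ), ENNReal.ofReal (2 * δ) *
        gBad A Ψ τ W N ρ ((1 + R) * δ) q z'.1.1 z'.2 z'.1.2 := by
    intro z'
    have hm1 : MeasurableSet ((fun z => (z, z')) ⁻¹' (Cl A Ψ τ W N ρ δ)) := (by fun_prop :
      Measurable (fun z : (ℝ × (Fin k → ℝ)) × ℝ => (z, z'))) hS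
    rw [Measure.volume_eq_prod (ℝ × (Fin k → ℝ)) ℝ, Measure.prod_apply hm1]
    apply lintegral_mono
    intro q
    change volume (Prod.mk q ⁻¹' ((fun z => (z, z')) ⁻¹' (Cl A Ψ τ W N ρ δ))) ≤
      ENNReal.ofReal (2 * δ) * gBad A Ψ τ W N ρ ((1 + R) * δ) q z'.1.1 z'.2 z'.1.2
    by_cases hne : ∃ t, (q, t) ∈ (fun z => (z, z')) ⁻¹' (Cl A Ψ τ W N ρ δ)
    · obtain ⟨t, h1, h2, h3, h4⟩ := hne
      have hd : dist (Phi A Ψ τ (q, t)) (Phi A Ψ τ z') ≤ δ := h4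
      rw [Prod.dist_eq, max_le_iff] at hd
      have hbad : Bad A Ψ τ W N ρ ((1 + R) * δ) q z'.1.1 z'.2 z'.1.2 := by
        refine ⟨h1.1, h2.1, h2.2.1, h2.2.2, h3, ?_⟩
        have e1 : ‖X A Ψ τ q t - X A Ψ τ z'.1 z'.2‖ ≤ δ := by
          have := hd.1
          rwa [dist_eq_norm] at this
        have e2 : |t - z'.2| ≤ δ := by
          have := hd.2
          rwa [Real.dist_eq] at this
        have e3 : X A Ψ τ q z'.2 - X A Ψ τ z'.1 z'.2 =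
            (X A Ψ τ q t - X A Ψ τ z'.1 z'.2) - (t - z'.2) • Ψ q := by
          unfold X
          module
        have e4 : ‖(t - z'.2) • Ψ q‖ ≤ δ * R := by
          rw [norm_smul, Real.norm_eq_abs]
          exact mul_le_mul e2 (hWR q h1.1) (norm_nonneg _) hδ.le
        change ‖X A Ψ τ q z'.2 - X A Ψ τ z'.1 z'.2‖ ≤ (1 + R) * δ
        rw [e3]
        calc _ ≤ ‖X A Ψ τ q t - X A Ψ τ z'.1 z'.2‖ + ‖(t - z'.2) • Ψ q‖ := norm_sub_le _ _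
          _ ≤ δ + δ * R := add_le_add e1 e4
          _ = (1 + R) * δ := by ring
      unfold gBad
      rw [if_pos hbad, mul_one]
      calc volume (Prod.mk q ⁻¹' _) ≤ volume (Icc (z'.2 - δ) (z'.2 + δ)) := by
            apply measure_mono
            rintro u ⟨_, _, _, hu⟩
            have hu' : dist (Phi A Ψ τ (q, u)) (Phi A Ψ τ z') ≤ δ := hu
            rw [Prod.dist_eq, max_le_iff] at hu'
            have hu2 : |u - z'.2| ≤ δ := by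
              have := hu'.2
              rwa [Real.dist_eq] at this
            rw [abs_le] at hu2
            exact ⟨by linarith, by linarith⟩
        _ = ENNReal.ofReal (2 * δ) := by
            rw [Real.volume_Icc]
            congr 1
            ring
    · push Not at hne
      have : Prod.mk q ⁻¹' ((fun z => (z, z')) ⁻¹' (Cl A Ψ τ W N ρ δ)) = ∅ := by
        rw [eq_empty_iff_forall_notMem]
        intro t ht
        exact hne t ht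
      rw [this, measure_empty]
      exact zero_le
  refine (lintegral_mono key).trans (le_of_eq ?_)
  have hg := measurable_gBad hA hΨ hτ hW N ρ ((1 + R) * δ)
  have e1 : ∀ z' : (ℝ × (Fin k → ℝ)) × ℝ, ∫⁻ q : ℝ × (Fin k → ℝ), ENNReal.ofReal (2 * δ) *
        gBad A Ψ τ W N ρ ((1 + R) * δ) q z'.1.1 z'.2 z'.1.2 =
      ENNReal.ofReal (2 * δ) * ∫⁻ q : ℝ × (Fin k → ℝ),
        gBad A Ψ τ W N ρ ((1 + R) * δ) q z'.1.1 z'.2 z'.1.2 := by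
    intro z'
    rw [lintegral_const_mul' _ _ ENNReal.ofReal_ne_top]
  simp_rw [e1]
  rw [lintegral_const_mul' _ _ ENNReal.ofReal_ne_top, reorder hA hΨ hτ hW]

/-- **The measure of the close pairs.** -/
theorem pair_bound (hA : Measurable A) (hΨ : Measurable Ψ) (hτ : Measurable τ)
    {W : Set (ℝ × (Fin k → ℝ))} (hW : MeasurableSet W) {N ρ c C1 R p : ℝ} (hN : 0 < N) (hρ : 0 < ρ)
    (hc : 0 < c) (hC1 : 0 < C1) (hR : 0 ≤ R) (hp0 : 0 < p) (hp : p < 1)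
    (hWN : ∀ q ∈ W, |q.1| ≤ N ∧ ∀ i, |q.2 i| ≤ N) (hWR : ∀ q ∈ W, ‖Ψ q‖ ≤ R)
    (hsep : ∀ s y y', (s, y) ∈ W → (s, y') ∈ W → ∀ t, τ s + ρ ≤ t →
      c * ‖y - y'‖ ≤ ‖X A Ψ τ (s, y) t - X A Ψ τ (s, y') t‖)
    (hcross : ∀ q ∈ W, ∀ s', q.1 < s' → ∀ t₁ t₂ y₁ y₂ η, τ s' ≤ t₁ → τ s' ≤ t₂ →
      (s', y₁) ∈ W → (s', y₂) ∈ W → ‖X A Ψ τ q t₁ - X A Ψ τ (s', y₁) t₁‖ ≤ η →
      ‖X A Ψ τ q t₂ - X A Ψ τ (s', y₂) t₂‖ ≤ η → |t₁ - t₂| * (s' - q.1) ≤ C1 * η) :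
    ∃ C : ℝ≥0∞, C ≠ ∞ ∧ ∀ δ : ℝ, 0 < δ →
      (((volume : Measure ((ℝ × (Fin k → ℝ)) × ℝ)).restrict (Om τ W N ρ)).prod
        ((volume : Measure ((ℝ × (Fin k → ℝ)) × ℝ)).restrict (Om τ W N ρ)))
        {p | dist (Phi A Ψ τ p.1) (Phi A Ψ τ p.2) ≤ δ} ≤
        C * ENNReal.ofReal (δ ^ ((k : ℝ) + 1 + p)) := by
  obtain ⟨C, hC, h1⟩ := outer_bound hN hρ hc hC1 hp0 hp hWN hsep hcross
  have hΦ := measurable_Phi hA hΨ hτ
  have hOm := measurableSet_Om (τ := τ) hτ hW N ρ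
  refine ⟨2 * (ENNReal.ofReal (2 * (1 + R) ^ ((k : ℝ) + p)) * C), ?_, ?_⟩
  · exact ENNReal.mul_ne_top (by norm_num) (ENNReal.mul_ne_top ENNReal.ofReal_ne_top hC)
  intro δ hδ
  set S : Set (((ℝ × (Fin k → ℝ)) × ℝ) × ((ℝ × (Fin k → ℝ)) × ℝ)) :=
    Cl A Ψ τ W N ρ δ with hSdef
  have hS : MeasurableSet S := measurableSet_Cl hA hΨ hτ hW N ρ δ
  have hpm : MeasurableSet {p : ((ℝ × (Fin k → ℝ)) × ℝ) × ((ℝ × (Fin k → ℝ)) × ℝ) |
      dist (Phi A Ψ τ p.1) (Phi A Ψ τ p.2) ≤ δ} :=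
    measurableSet_le ((hΦ.comp measurable_fst).dist (hΦ.comp measurable_snd)) measurable_const
  have hb : ((volume : Measure ((ℝ × (Fin k → ℝ)) × ℝ)).prod volume) S ≤
      (ENNReal.ofReal (2 * (1 + R) ^ ((k : ℝ) + p)) * C) *
        ENNReal.ofReal (δ ^ ((k : ℝ) + 1 + p)) := by
    refine (half_bound hA hΨ hτ hW hWR hδ).trans ?_
    calc ENNReal.ofReal (2 * δ) * ∫⁻ s' : ℝ, ∫⁻ q : ℝ × (Fin k → ℝ), ∫⁻ t' : ℝ,
          ∫⁻ y' : Fin k → ℝ, gBad A Ψ τ W N ρ ((1 + R) * δ) q s' t' y'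
        ≤ ENNReal.ofReal (2 * δ) * (C * ENNReal.ofReal (((1 + R) * δ) ^ ((k : ℝ) + p))) := by
          gcongr
          exact h1 _ (by positivity)
      _ = C * (ENNReal.ofReal (2 * δ) * ENNReal.ofReal (((1 + R) * δ) ^ ((k : ℝ) + p))) := by ring
      _ = C * (ENNReal.ofReal (2 * (1 + R) ^ ((k : ℝ) + p)) *
            ENNReal.ofReal (δ ^ ((k : ℝ) + 1 + p))) := by
          rw [← ENNReal.ofReal_mul (by positivity), ← ENNReal.ofReal_mul (by positivity)]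
          congr 2
          rw [Real.mul_rpow (by positivity) hδ.le, show (k : ℝ) + 1 + p = ((k : ℝ) + p) + 1 by ring,
            Real.rpow_add hδ ((k : ℝ) + p) 1, Real.rpow_one]
          ring
      _ = _ := by ring
  rw [Measure.prod_restrict, Measure.restrict_apply hpm]
  have hsub : {p : ((ℝ × (Fin k → ℝ)) × ℝ) × ((ℝ × (Fin k → ℝ)) × ℝ) |
      dist (Phi A Ψ τ p.1) (Phi A Ψ τ p.2) ≤ δ} ∩ (Om τ W N ρ ×ˢ Om τ W N ρ) ⊆
      S ∪ (Prod.swap ⁻¹' S ∪ {p : ((ℝ × (Fin k → ℝ)) × ℝ) × ((ℝ × (Fin k → ℝ)) × ℝ) |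
        p.1.1.1 = p.2.1.1}) := by
    rintro p ⟨h2, h3, h4⟩
    rcases lt_trichotomy p.1.1.1 p.2.1.1 with h | h | h
    · left
      exact ⟨h3, h4, h, h2⟩
    · right; right
      exact h
    · right; left
      refine ⟨h4, h3, h, ?_⟩
      change dist (Phi A Ψ τ p.2) (Phi A Ψ τ p.1) ≤ δ
      rw [dist_comm]
      exact h2
  have hswap : ((volume : Measure ((ℝ × (Fin k → ℝ)) × ℝ)).prod volume) (Prod.swap ⁻¹' S) =
      ((volume : Measure ((ℝ × (Fin k → ℝ)) × ℝ)).prod volume) S :=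
    Measure.measurePreserving_swap.measure_preimage hS.nullMeasurableSet
  have hzero : ((volume : Measure ((ℝ × (Fin k → ℝ)) × ℝ)).prod volume)
      {p : ((ℝ × (Fin k → ℝ)) × ℝ) × ((ℝ × (Fin k → ℝ)) × ℝ) | p.1.1.1 = p.2.1.1} = 0 := by
    have hm : MeasurableSet {p : ((ℝ × (Fin k → ℝ)) × ℝ) × ((ℝ × (Fin k → ℝ)) × ℝ) |
        p.1.1.1 = p.2.1.1} := measurableSet_eq_fun
          (f := fun p : ((ℝ × (Fin k → ℝ)) × ℝ) × ((ℝ × (Fin k → ℝ)) × ℝ) => p.1.1.1)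
          (g := fun p => p.2.1.1) (by fun_prop) (by fun_prop)
    rw [Measure.measure_prod_null hm]
    filter_upwards with z
    have h2 : Prod.mk z ⁻¹' {p : ((ℝ × (Fin k → ℝ)) × ℝ) × ((ℝ × (Fin k → ℝ)) × ℝ) |
        p.1.1.1 = p.2.1.1} = (({z.1.1} : Set ℝ) ×ˢ (univ : Set (Fin k → ℝ))) ×ˢ (univ : Set ℝ) := by
      ext w
      simp [eq_comm]
    rw [h2, Measure.volume_eq_prod, Measure.prod_prod, Measure.volume_eq_prod, Measure.prod_prod]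
    simp
  calc ((volume : Measure ((ℝ × (Fin k → ℝ)) × ℝ)).prod volume) _
      ≤ ((volume : Measure ((ℝ × (Fin k → ℝ)) × ℝ)).prod volume)
        (S ∪ (Prod.swap ⁻¹' S ∪ {p : ((ℝ × (Fin k → ℝ)) × ℝ) × ((ℝ × (Fin k → ℝ)) × ℝ) |
        p.1.1.1 = p.2.1.1})) := measure_mono hsub
    _ ≤ ((volume : Measure ((ℝ × (Fin k → ℝ)) × ℝ)).prod volume) S +
        (((volume : Measure ((ℝ × (Fin k → ℝ)) × ℝ)).prod volume) (Prod.swap ⁻¹' S) +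
        ((volume : Measure ((ℝ × (Fin k → ℝ)) × ℝ)).prod volume)
          {p : ((ℝ × (Fin k → ℝ)) × ℝ) × ((ℝ × (Fin k → ℝ)) × ℝ) | p.1.1.1 = p.2.1.1}) :=
        (measure_union_le _ _).trans (add_le_add le_rfl (measure_union_le _ _))
    _ = 2 * ((volume : Measure ((ℝ × (Fin k → ℝ)) × ℝ)).prod volume) S := by
        rw [hswap, hzero]
        ring
    _ ≤ 2 * ((ENNReal.ofReal (2 * (1 + R) ^ ((k : ℝ) + p)) * C) *
        ENNReal.ofReal (δ ^ ((k : ℝ) + 1 + p))) := by gcongr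
    _ = _ := by ring

end

end Pool.Agent.V5helper34.KC
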