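import Pool.Agent.V5helper34.KC.Pair

set_option autoImplicit false

/-!
# Close pairs in families of rays with the mixed crossing property
-/

open MeasureTheory Set Filter Topology ENNReal NNReal Metric

namespace Pool.Agent.V5helper34.KC.Mx

section

variable {ι₁ ι₂ : Type} {F : Type*} [NormedAddCommGroup F] [NormedSpace ℝ F]

/-- The parameters: the level, and two groups of coordinates. -/
abbrev Q (ι₁ ι₂ : Type) : Type := ℝ × ((ι₁ → ℝ) × (ι₂ → ℝ))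

/-- The point at height `t` of the ray with the parameter `q`. -/
noncomputable def X (A Ψ : Q ι₁ ι₂ → F) (τ : ℝ → ℝ) (q : Q ι₁ ι₂) (t : ℝ) : F :=
  A q + (t - τ q.1) • Ψ q

/-- two rays, the second one of smaller level, are close at the height `t` -/
def Bad (A Ψ : Q ι₁ ι₂ → F) (τ : ℝ → ℝ) (W : Set (Q ι₁ ι₂)) (N ρ η : ℝ)
    (q q' : Q ι₁ ι₂) (t : ℝ) : Prop :=
  q ∈ W ∧ q' ∈ W ∧ |t| ≤ N ∧ τ q.1 + ρ ≤ t ∧ τ q'.1 + ρ ≤ t ∧ q'.1 < q.1 ∧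
    ‖X A Ψ τ q t - X A Ψ τ q' t‖ ≤ η

open scoped Classical in
/-- its indicator function -/
noncomputable def gBad (A Ψ : Q ι₁ ι₂ → F) (τ : ℝ → ℝ) (W : Set (Q ι₁ ι₂)) (N ρ η : ℝ)
    (q q' : Q ι₁ ι₂) (t : ℝ) : ℝ≥0∞ :=
  if Bad A Ψ τ W N ρ η q q' t then 1 else 0

/-- The general inner estimate. -/
theorem inner_gen {Z : Type*} [MeasureSpace Z] (B : ℝ → Z → Prop) {Vm : ℝ≥0∞} {D N : ℝ}
    (g : ℝ → Z → ℝ≥0∞) (hg1 : ∀ t z, g t z ≤ 1) (hg0 : ∀ t z, ¬ B t z → g t z = 0)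
    (hV : ∀ t z₀, B t z₀ → volume {z | B t z} ≤ Vm)
    (hN : ∀ t z, B t z → |t| ≤ N)
    (hD : ∀ t₁ z₁ t₂ z₂, B t₁ z₁ → B t₂ z₂ → |t₁ - t₂| ≤ D) :
    ∫⁻ t : ℝ, ∫⁻ z : Z, g t z ≤ Vm * ENNReal.ofReal (min (2 * D) (2 * N)) := by
  classical
  have hsec : ∀ t : ℝ, ∫⁻ z : Z, g t z ≤ Vm := by
    intro t
    by_cases hne : ∃ z₀, B t z₀
    · obtain ⟨z₀, hz₀⟩ := hne
      calc ∫⁻ z : Z, g t z ≤ ∫⁻ z : Z, (toMeasurable volume {z | B t z}).indicator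
            (fun _ => (1 : ℝ≥0∞)) z := by
            apply lintegral_mono
            intro z
            by_cases hz : B t z
            · have hz' : z ∈ toMeasurable volume {z | B t z} :=
                subset_toMeasurable volume {z | B t z} hz
              simp only [indicator_of_mem hz']
              exact hg1 t z
            · simp only [hg0 t z hz]
              exact zero_le
        _ = volume {z | B t z} := by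
            rw [lintegral_indicator (measurableSet_toMeasurable _ _), lintegral_const,
              Measure.restrict_apply_univ, one_mul, measure_toMeasurable]
        _ ≤ Vm := hV t z₀ hz₀
    · push Not at hne
      have h1 : ∀ z, g t z = 0 := fun z => hg0 t z (hne z)
      simp [h1]
  by_cases hne : ∃ t₀ z₀, B t₀ z₀
  · obtain ⟨t₀, z₀, h0⟩ := hne
    have h1 : ∀ t, ∫⁻ z : Z, g t z ≤
        (Icc (t₀ - D) (t₀ + D) ∩ Icc (-N) N).indicator (fun _ => Vm) t := by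
      intro t
      by_cases ht : ∃ z, B t z
      · obtain ⟨z, h⟩ := ht
        rw [indicator_of_mem]
        · exact hsec t
        · have h2 := hD t z t₀ z₀ h h0
          rw [abs_le] at h2
          exact ⟨⟨by linarith, by linarith⟩, abs_le.1 (hN t z h)⟩
      · push Not at ht
        have h2 : ∀ z, g t z = 0 := fun z => hg0 t z (ht z)
        simp [h2]
    have h4 : volume (Icc (t₀ - D) (t₀ + D) ∩ Icc (-N) N) ≤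
        ENNReal.ofReal (min (2 * D) (2 * N)) := by
      rw [ENNReal.ofReal_min]
      refine le_min ?_ ?_
      · refine (measure_mono inter_subset_left).trans ?_
        rw [Real.volume_Icc]
        apply ENNReal.ofReal_le_ofReal
        linarith
      · refine (measure_mono inter_subset_right).trans ?_
        rw [Real.volume_Icc]
        apply ENNReal.ofReal_le_ofReal
        linarith
    calc ∫⁻ t : ℝ, ∫⁻ z : Z, g t z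
        ≤ ∫⁻ t : ℝ, (Icc (t₀ - D) (t₀ + D) ∩ Icc (-N) N).indicator (fun _ => Vm) t :=
          lintegral_mono h1
      _ = Vm * volume (Icc (t₀ - D) (t₀ + D) ∩ Icc (-N) N) := by
          rw [lintegral_indicator (measurableSet_Icc.inter measurableSet_Icc), lintegral_const,
            Measure.restrict_apply_univ]
      _ ≤ _ := by gcongr
  · push Not at hne
    have h1 : ∀ t z, g t z = 0 := fun t z => hg0 t z (hne t z)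
    simp [h1]

/-- The inner integral. -/
theorem inner_bound [Fintype ι₁] [Fintype ι₂] {A Ψ : Q ι₁ ι₂ → F} {τ : ℝ → ℝ} {W : Set (Q ι₁ ι₂)} {N ρ c C1 p : ℝ}
    (hN : 0 < N) (hc : 0 < c) (hC1 : 0 < C1) (hp0 : 0 < p) (hp : p < 1) {η : ℝ} (hη : 0 < η)
    (hsep : ∀ s y z₁ z₂ s' y₁ y₂ z' t, Bad A Ψ τ W N ρ η (s, (y, z₁)) (s', (y₁, z')) t →
      Bad A Ψ τ W N ρ η (s, (y, z₂)) (s', (y₂, z')) t → c * ‖z₁ - z₂‖ ≤ 2 * η ∧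
      c * ‖y₁ - y₂‖ ≤ 2 * η)
    (hcross : ∀ s y z₁ z₂ s' y₁ y₂ z' t₁ t₂, Bad A Ψ τ W N ρ η (s, (y, z₁)) (s', (y₁, z')) t₁ →
      Bad A Ψ τ W N ρ η (s, (y, z₂)) (s', (y₂, z')) t₂ → |t₁ - t₂| * (s - s') ≤ C1 * η)
    (α : ℝ × (ι₁ → ℝ)) (β : ℝ × (ι₂ → ℝ)) :
    ∫⁻ t : ℝ, ∫⁻ ζ : (ι₂ → ℝ) × (ι₁ → ℝ),
      gBad A Ψ τ W N ρ η (α.1, (α.2, ζ.1)) (β.1, (ζ.2, β.2)) t ≤
      ENNReal.ofReal ((4 * η / c) ^ (Fintype.card ι₂ + Fintype.card ι₁) *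
        ((2 * C1 * η) ^ p * (2 * N) ^ (1 - p))) * (ENNReal.ofReal |α.1 - β.1|) ^ (-p) := by
  classical
  set B : ℝ → (ι₂ → ℝ) × (ι₁ → ℝ) → Prop := fun t ζ =>
    Bad A Ψ τ W N ρ η (α.1, (α.2, ζ.1)) (β.1, (ζ.2, β.2)) t with hB
  by_cases hex : ∃ t ζ, B t ζ
  · obtain ⟨t₀, ζ₀, h₀⟩ := hex
    have hss : 0 < α.1 - β.1 := sub_pos.2 h₀.2.2.2.2.2.1
    set D : ℝ := C1 * η / (α.1 - β.1) with hD
    have hD0 : 0 < D := by positivity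
    have hmain := inner_gen B (Vm := ENNReal.ofReal ((4 * η / c) ^
        (Fintype.card ι₂ + Fintype.card ι₁))) (D := D) (N := N)
      (fun t ζ => gBad A Ψ τ W N ρ η (α.1, (α.2, ζ.1)) (β.1, (ζ.2, β.2)) t)
      (fun t ζ => by unfold gBad; split_ifs <;> simp)
      (fun t ζ h => by unfold gBad; rw [if_neg h])
      (fun t ζ₁ h => by
        have hsub : {ζ | B t ζ} ⊆ closedBall ζ₁.1 (2 * η / c) ×ˢ closedBall ζ₁.2 (2 * η / c) := by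
          intro ζ hζ
          obtain ⟨h1, h2⟩ := hsep _ _ _ _ _ _ _ _ _ hζ h
          refine ⟨?_, ?_⟩
          · rw [mem_closedBall, dist_eq_norm, le_div_iff₀ hc]
            linarith
          · rw [mem_closedBall, dist_eq_norm, le_div_iff₀ hc]
            linarith
        refine (measure_mono hsub).trans ?_
        rw [Measure.volume_eq_prod, Measure.prod_prod, Real.volume_pi_closedBall _ (by positivity),
          Real.volume_pi_closedBall _ (by positivity), ← ENNReal.ofReal_mul (by positivity),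
          ← pow_add]
        apply ENNReal.ofReal_le_ofReal
        apply le_of_eq
        congr 1
        ring)
      (fun t ζ h => h.2.2.1)
      (fun t₁ ζ₁ t₂ ζ₂ h₁ h₂ => by
        have := hcross _ _ _ _ _ _ _ _ _ _ h₁ h₂
        rw [hD, le_div_iff₀ hss]
        exact this)
    refine hmain.trans ?_
    calc ENNReal.ofReal ((4 * η / c) ^ (Fintype.card ι₂ + Fintype.card ι₁)) *
          ENNReal.ofReal (min (2 * D) (2 * N))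
        ≤ ENNReal.ofReal ((4 * η / c) ^ (Fintype.card ι₂ + Fintype.card ι₁)) *
          ENNReal.ofReal ((2 * D) ^ p * (2 * N) ^ (1 - p)) := by
          gcongr
          exact min_le_rpow (by positivity) (by positivity) hp0 hp
      _ = _ := by
          rw [abs_of_pos hss, ENNReal.ofReal_rpow_of_pos hss, ← ENNReal.ofReal_mul (by positivity),
            ← ENNReal.ofReal_mul (by positivity)]
          congr 1
          have h5 : (2 * D) ^ p = (2 * C1 * η) ^ p * (α.1 - β.1) ^ (-p) := by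
            rw [hD, show 2 * (C1 * η / (α.1 - β.1)) = (2 * C1 * η) / (α.1 - β.1) by ring,
              Real.div_rpow (by positivity) hss.le, Real.rpow_neg hss.le]
            rfl
          rw [h5]
          ring
  · push Not at hex
    have h1 : ∀ t (ζ : (ι₂ → ℝ) × (ι₁ → ℝ)),
        gBad A Ψ τ W N ρ η (α.1, (α.2, ζ.1)) (β.1, (ζ.2, β.2)) t = 0 := by
      intro t ζ
      unfold gBad
      rw [if_neg (hex t ζ)]
    simp [h1]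

variable [MeasurableSpace F] [BorelSpace F] [SecondCountableTopology F]

theorem measurable_X {A Ψ : Q ι₁ ι₂ → F} {τ : ℝ → ℝ} (hA : Measurable A) (hΨ : Measurable Ψ)
    (hτ : Measurable τ) : Measurable (fun z : Q ι₁ ι₂ × ℝ => X A Ψ τ z.1 z.2) := by
  unfold X
  exact (hA.comp measurable_fst).add
    ((measurable_snd.sub (hτ.comp (measurable_fst.comp measurable_fst))).smul
      (hΨ.comp measurable_fst))

theorem measurable_gBad [Fintype ι₁] [Fintype ι₂] {A Ψ : Q ι₁ ι₂ → F} {τ : ℝ → ℝ} (hA : Measurable A) (hΨ : Measurable Ψ)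
    (hτ : Measurable τ) {W : Set (Q ι₁ ι₂)} (hW : MeasurableSet W) (N ρ η : ℝ) :
    Measurable (fun p : (Q ι₁ ι₂ × Q ι₁ ι₂) × ℝ =>
      gBad A Ψ τ W N ρ η p.1.1 p.1.2 p.2) := by
  classical
  have h1 : MeasurableSet {p : (Q ι₁ ι₂ × Q ι₁ ι₂) × ℝ | p.1.1 ∈ W} :=
    (measurable_fst.comp measurable_fst) hW
  have h2 : MeasurableSet {p : (Q ι₁ ι₂ × Q ι₁ ι₂) × ℝ | p.1.2 ∈ W} :=
    (measurable_snd.comp measurable_fst) hW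
  have h3 : MeasurableSet {p : (Q ι₁ ι₂ × Q ι₁ ι₂) × ℝ | |p.2| ≤ N} :=
    measurableSet_le (by fun_prop) measurable_const
  have h4 : MeasurableSet {p : (Q ι₁ ι₂ × Q ι₁ ι₂) × ℝ | τ p.1.1.1 + ρ ≤ p.2} :=
    measurableSet_le ((hτ.comp (by fun_prop)).add_const _) (by fun_prop)
  have h4' : MeasurableSet {p : (Q ι₁ ι₂ × Q ι₁ ι₂) × ℝ | τ p.1.2.1 + ρ ≤ p.2} :=
    measurableSet_le ((hτ.comp (by fun_prop)).add_const _) (by fun_prop)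
  have h5 : MeasurableSet {p : (Q ι₁ ι₂ × Q ι₁ ι₂) × ℝ | p.1.2.1 < p.1.1.1} :=
    measurableSet_lt (by fun_prop) (by fun_prop)
  have h6 : MeasurableSet {p : (Q ι₁ ι₂ × Q ι₁ ι₂) × ℝ |
      ‖X A Ψ τ p.1.1 p.2 - X A Ψ τ p.1.2 p.2‖ ≤ η} := by
    refine measurableSet_le ?_ measurable_const
    have e1 : Measurable (fun p : (Q ι₁ ι₂ × Q ι₁ ι₂) × ℝ => X A Ψ τ p.1.1 p.2) :=
      (measurable_X hA hΨ hτ).comp (Measurable.prodMk (by fun_prop) (by fun_prop))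
    have e2 : Measurable (fun p : (Q ι₁ ι₂ × Q ι₁ ι₂) × ℝ => X A Ψ τ p.1.2 p.2) :=
      (measurable_X hA hΨ hτ).comp (Measurable.prodMk (by fun_prop) (by fun_prop))
    exact (e1.sub e2).norm
  unfold gBad
  refine Measurable.ite ?_ measurable_const measurable_const
  exact h1.inter (h2.inter (h3.inter (h4.inter (h4'.inter (h5.inter h6)))))

/-- the reordered integral -/
theorem reorder [Fintype ι₁] [Fintype ι₂] {A Ψ : Q ι₁ ι₂ → F} {τ : ℝ → ℝ} (hA : Measurable A) (hΨ : Measurable Ψ)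
    (hτ : Measurable τ) {W : Set (Q ι₁ ι₂)} (hW : MeasurableSet W) (N ρ η : ℝ) :
    ∫⁻ x : Q ι₁ ι₂ × ℝ, ∫⁻ q : Q ι₁ ι₂, gBad A Ψ τ W N ρ η q x.1 x.2 =
      ∫⁻ β : ℝ × (ι₂ → ℝ), ∫⁻ α : ℝ × (ι₁ → ℝ), ∫⁻ t : ℝ, ∫⁻ ζ : (ι₂ → ℝ) × (ι₁ → ℝ),
        gBad A Ψ τ W N ρ η (α.1, (α.2, ζ.1)) (β.1, (ζ.2, β.2)) t := by
  have hg := measurable_gBad hA hΨ hτ hW N ρ η
  -- the function of seven variables
  set G : ℝ → (ι₁ → ℝ) → (ι₂ → ℝ) → ℝ → (ι₁ → ℝ) → (ι₂ → ℝ) → ℝ → ℝ≥0∞ :=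
    fun s y z s' y' z' t => gBad A Ψ τ W N ρ η (s, (y, z)) (s', (y', z')) t with hG
  have comp : ∀ {P : Type} [MeasurableSpace P] {f1 : P → ℝ} {f2 : P → ι₁ → ℝ} {f3 : P → ι₂ → ℝ}
      {f4 : P → ℝ} {f5 : P → ι₁ → ℝ} {f6 : P → ι₂ → ℝ} {f7 : P → ℝ}, Measurable f1 →
      Measurable f2 → Measurable f3 → Measurable f4 → Measurable f5 → Measurable f6 →
      Measurable f7 → Measurable (fun x => G (f1 x) (f2 x) (f3 x) (f4 x) (f5 x) (f6 x) (f7 x)) := by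
    intro P _ f1 f2 f3 f4 f5 f6 f7 h1 h2 h3 h4 h5 h6 h7
    exact hg.comp (((h1.prodMk (h2.prodMk h3)).prodMk (h4.prodMk (h5.prodMk h6))).prodMk h7)
  -- the innermost integral over `q`
  have s0 : ∀ x : Q ι₁ ι₂ × ℝ, ∫⁻ q : Q ι₁ ι₂, gBad A Ψ τ W N ρ η q x.1 x.2 =
      ∫⁻ α : ℝ × (ι₁ → ℝ), ∫⁻ z : ι₂ → ℝ, G α.1 α.2 z x.1.1 x.1.2.1 x.1.2.2 x.2 := by
    intro x
    have m1 : Measurable (fun q : Q ι₁ ι₂ => G q.1 q.2.1 q.2.2 x.1.1 x.1.2.1 x.1.2.2 x.2) :=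
      comp (by fun_prop) (by fun_prop) (by fun_prop) (by fun_prop) (by fun_prop) (by fun_prop)
        (by fun_prop)
    have e1 : ∫⁻ q : Q ι₁ ι₂, gBad A Ψ τ W N ρ η q x.1 x.2 =
        ∫⁻ s : ℝ, ∫⁻ w : (ι₁ → ℝ) × (ι₂ → ℝ), G s w.1 w.2 x.1.1 x.1.2.1 x.1.2.2 x.2 :=
      lintegral_prod (μ := (volume : Measure ℝ)) (ν := (volume : Measure ((ι₁ → ℝ) × (ι₂ → ℝ))))
        (fun q : Q ι₁ ι₂ => G q.1 q.2.1 q.2.2 x.1.1 x.1.2.1 x.1.2.2 x.2) m1.aemeasurable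
    have e2 : ∀ s : ℝ, ∫⁻ w : (ι₁ → ℝ) × (ι₂ → ℝ), G s w.1 w.2 x.1.1 x.1.2.1 x.1.2.2 x.2 =
        ∫⁻ y : ι₁ → ℝ, ∫⁻ z : ι₂ → ℝ, G s y z x.1.1 x.1.2.1 x.1.2.2 x.2 := by
      intro s
      have m2 : Measurable (fun w : (ι₁ → ℝ) × (ι₂ → ℝ) =>
          G s w.1 w.2 x.1.1 x.1.2.1 x.1.2.2 x.2) :=
        comp (by fun_prop) (by fun_prop) (by fun_prop) (by fun_prop) (by fun_prop) (by fun_prop)
          (by fun_prop)
      exact lintegral_prod (μ := (volume : Measure (ι₁ → ℝ))) (ν := (volume : Measure (ι₂ → ℝ)))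
        _ m2.aemeasurable
    have m3 : Measurable (fun p : (ℝ × (ι₁ → ℝ)) × (ι₂ → ℝ) =>
        G p.1.1 p.1.2 p.2 x.1.1 x.1.2.1 x.1.2.2 x.2) :=
      comp (by fun_prop) (by fun_prop) (by fun_prop) (by fun_prop) (by fun_prop) (by fun_prop)
          (by fun_prop)
    have e3 : ∫⁻ α : ℝ × (ι₁ → ℝ), ∫⁻ z : ι₂ → ℝ, G α.1 α.2 z x.1.1 x.1.2.1 x.1.2.2 x.2 =
        ∫⁻ s : ℝ, ∫⁻ y : ι₁ → ℝ, ∫⁻ z : ι₂ → ℝ, G s y z x.1.1 x.1.2.1 x.1.2.2 x.2 :=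
      lintegral_prod (μ := (volume : Measure ℝ)) (ν := (volume : Measure (ι₁ → ℝ)))
        (fun α : ℝ × (ι₁ → ℝ) => ∫⁻ z : ι₂ → ℝ, G α.1 α.2 z x.1.1 x.1.2.1 x.1.2.2 x.2)
        m3.lintegral_prod_right'.aemeasurable
    rw [e1, e3]
    exact lintegral_congr e2
  simp_rw [s0]
  -- the integral over `x`
  have m4 : Measurable (fun p : ((Q ι₁ ι₂ × ℝ) × (ℝ × (ι₁ → ℝ))) × (ι₂ → ℝ) =>
      G p.1.2.1 p.1.2.2 p.2 p.1.1.1.1 p.1.1.1.2.1 p.1.1.1.2.2 p.1.1.2) :=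
    comp (by fun_prop) (by fun_prop) (by fun_prop) (by fun_prop) (by fun_prop) (by fun_prop)
      (by fun_prop)
  have m5 : Measurable (fun p : (Q ι₁ ι₂ × ℝ) × (ℝ × (ι₁ → ℝ)) => ∫⁻ z : ι₂ → ℝ,
      G p.2.1 p.2.2 z p.1.1.1 p.1.1.2.1 p.1.1.2.2 p.1.2) := m4.lintegral_prod_right'
  have m6 : Measurable (fun x : Q ι₁ ι₂ × ℝ => ∫⁻ α : ℝ × (ι₁ → ℝ), ∫⁻ z : ι₂ → ℝ,
      G α.1 α.2 z x.1.1 x.1.2.1 x.1.2.2 x.2) := m5.lintegral_prod_right'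
  set I : ℝ → (ι₁ → ℝ) → (ι₂ → ℝ) → ℝ → ℝ≥0∞ := fun s' y' z' t =>
    ∫⁻ α : ℝ × (ι₁ → ℝ), ∫⁻ z : ι₂ → ℝ, G α.1 α.2 z s' y' z' t with hI
  have mI : Measurable (fun x : Q ι₁ ι₂ × ℝ => I x.1.1 x.1.2.1 x.1.2.2 x.2) := m6
  have t1 : ∫⁻ x : Q ι₁ ι₂ × ℝ, I x.1.1 x.1.2.1 x.1.2.2 x.2 =
      ∫⁻ q' : Q ι₁ ι₂, ∫⁻ t : ℝ, I q'.1 q'.2.1 q'.2.2 t := by
    rw [Measure.volume_eq_prod (Q ι₁ ι₂) ℝ]
    exact lintegral_prod _ mI.aemeasurable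
  have mJ : Measurable (fun q' : Q ι₁ ι₂ => ∫⁻ t : ℝ, I q'.1 q'.2.1 q'.2.2 t) :=
    mI.lintegral_prod_right'
  have t2 : ∫⁻ q' : Q ι₁ ι₂, ∫⁻ t : ℝ, I q'.1 q'.2.1 q'.2.2 t =
      ∫⁻ s' : ℝ, ∫⁻ w : (ι₁ → ℝ) × (ι₂ → ℝ), ∫⁻ t : ℝ, I s' w.1 w.2 t :=
    lintegral_prod (μ := (volume : Measure ℝ)) (ν := (volume : Measure ((ι₁ → ℝ) × (ι₂ → ℝ))))
      (fun q' : Q ι₁ ι₂ => ∫⁻ t : ℝ, I q'.1 q'.2.1 q'.2.2 t) mJ.aemeasurable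
  have t3 : ∀ s' : ℝ, ∫⁻ w : (ι₁ → ℝ) × (ι₂ → ℝ), ∫⁻ t : ℝ, I s' w.1 w.2 t =
      ∫⁻ z' : ι₂ → ℝ, ∫⁻ y' : ι₁ → ℝ, ∫⁻ t : ℝ, I s' y' z' t := by
    intro s'
    have m7 : Measurable (fun w : (ι₁ → ℝ) × (ι₂ → ℝ) => ∫⁻ t : ℝ, I s' w.1 w.2 t) :=
      mJ.comp (by fun_prop : Measurable (fun w : (ι₁ → ℝ) × (ι₂ → ℝ) => ((s', w) : Q ι₁ ι₂)))
    exact lintegral_prod_symm (μ := (volume : Measure (ι₁ → ℝ)))
      (ν := (volume : Measure (ι₂ → ℝ))) _ m7.aemeasurable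
  have m8 : Measurable (fun p : (ℝ × (ι₂ → ℝ)) × (ι₁ → ℝ) => ∫⁻ t : ℝ, I p.1.1 p.2 p.1.2 t) :=
    mJ.comp (by fun_prop : Measurable (fun p : (ℝ × (ι₂ → ℝ)) × (ι₁ → ℝ) =>
      ((p.1.1, (p.2, p.1.2)) : Q ι₁ ι₂)))
  have t4 : ∫⁻ β : ℝ × (ι₂ → ℝ), ∫⁻ y' : ι₁ → ℝ, ∫⁻ t : ℝ, I β.1 y' β.2 t =
      ∫⁻ s' : ℝ, ∫⁻ z' : ι₂ → ℝ, ∫⁻ y' : ι₁ → ℝ, ∫⁻ t : ℝ, I s' y' z' t :=
    lintegral_prod (μ := (volume : Measure ℝ)) (ν := (volume : Measure (ι₂ → ℝ)))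
      (fun β : ℝ × (ι₂ → ℝ) => ∫⁻ y' : ι₁ → ℝ, ∫⁻ t : ℝ, I β.1 y' β.2 t)
      m8.lintegral_prod_right'.aemeasurable
  have t5 : ∫⁻ x : Q ι₁ ι₂ × ℝ, I x.1.1 x.1.2.1 x.1.2.2 x.2 =
      ∫⁻ β : ℝ × (ι₂ → ℝ), ∫⁻ y' : ι₁ → ℝ, ∫⁻ t : ℝ, I β.1 y' β.2 t := by
    rw [t1, t2, t4]
    exact lintegral_congr t3
  change ∫⁻ x : Q ι₁ ι₂ × ℝ, I x.1.1 x.1.2.1 x.1.2.2 x.2 = _
  rw [t5]
  apply lintegral_congr
  intro β
  -- for fixed `β`: move `y'` inside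
  have m9 : Measurable (fun p : ((ι₁ → ℝ) × ℝ) × ((ℝ × (ι₁ → ℝ)) × (ι₂ → ℝ)) =>
      G p.2.1.1 p.2.1.2 p.2.2 β.1 p.1.1 β.2 p.1.2) :=
    comp (by fun_prop) (by fun_prop) (by fun_prop) (by fun_prop) (by fun_prop) (by fun_prop)
      (by fun_prop)
  have u1 : ∀ (y' : ι₁ → ℝ) (t : ℝ), I β.1 y' β.2 t =
      ∫⁻ w : (ℝ × (ι₁ → ℝ)) × (ι₂ → ℝ), G w.1.1 w.1.2 w.2 β.1 y' β.2 t := by
    intro y' t
    have m10 : Measurable (fun w : (ℝ × (ι₁ → ℝ)) × (ι₂ → ℝ) =>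
        G w.1.1 w.1.2 w.2 β.1 y' β.2 t) :=
      comp (by fun_prop) (by fun_prop) (by fun_prop) (by fun_prop) (by fun_prop) (by fun_prop)
        (by fun_prop)
    exact (lintegral_prod (μ := (volume : Measure (ℝ × (ι₁ → ℝ))))
      (ν := (volume : Measure (ι₂ → ℝ))) _ m10.aemeasurable).symm
  simp_rw [u1]
  have m11 : Measurable (fun p : (ι₁ → ℝ) × ℝ => ∫⁻ w : (ℝ × (ι₁ → ℝ)) × (ι₂ → ℝ),
      G w.1.1 w.1.2 w.2 β.1 p.1 β.2 p.2) := m9.lintegral_prod_right'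
  have u2 : ∫⁻ y' : ι₁ → ℝ, ∫⁻ t : ℝ, ∫⁻ w : (ℝ × (ι₁ → ℝ)) × (ι₂ → ℝ),
        G w.1.1 w.1.2 w.2 β.1 y' β.2 t =
      ∫⁻ t : ℝ, ∫⁻ y' : ι₁ → ℝ, ∫⁻ w : (ℝ × (ι₁ → ℝ)) × (ι₂ → ℝ),
        G w.1.1 w.1.2 w.2 β.1 y' β.2 t :=
    lintegral_lintegral_swap (f := fun y' t => ∫⁻ w : (ℝ × (ι₁ → ℝ)) × (ι₂ → ℝ),
        G w.1.1 w.1.2 w.2 β.1 y' β.2 t) m11.aemeasurable
  rw [u2]
  have u3 : ∀ t : ℝ, ∫⁻ y' : ι₁ → ℝ, ∫⁻ w : (ℝ × (ι₁ → ℝ)) × (ι₂ → ℝ),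
        G w.1.1 w.1.2 w.2 β.1 y' β.2 t =
      ∫⁻ α : ℝ × (ι₁ → ℝ), ∫⁻ ζ : (ι₂ → ℝ) × (ι₁ → ℝ), G α.1 α.2 ζ.1 β.1 ζ.2 β.2 t := by
    intro t
    have m12 : Measurable (fun p : (ι₁ → ℝ) × ((ℝ × (ι₁ → ℝ)) × (ι₂ → ℝ)) =>
        G p.2.1.1 p.2.1.2 p.2.2 β.1 p.1 β.2 t) :=
      comp (by fun_prop) (by fun_prop) (by fun_prop) (by fun_prop) (by fun_prop) (by fun_prop)
        (by fun_prop)
    have v1 : ∫⁻ y' : ι₁ → ℝ, ∫⁻ w : (ℝ × (ι₁ → ℝ)) × (ι₂ → ℝ),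
        G w.1.1 w.1.2 w.2 β.1 y' β.2 t =
        ∫⁻ w : (ℝ × (ι₁ → ℝ)) × (ι₂ → ℝ), ∫⁻ y' : ι₁ → ℝ,
        G w.1.1 w.1.2 w.2 β.1 y' β.2 t :=
      lintegral_lintegral_swap (f := fun (y' : ι₁ → ℝ) (w : (ℝ × (ι₁ → ℝ)) × (ι₂ → ℝ)) =>
        G w.1.1 w.1.2 w.2 β.1 y' β.2 t) m12.aemeasurable
    have m13 : Measurable (fun p : ((ℝ × (ι₁ → ℝ)) × (ι₂ → ℝ)) × (ι₁ → ℝ) =>
        G p.1.1.1 p.1.1.2 p.1.2 β.1 p.2 β.2 t) :=
      comp (by fun_prop) (by fun_prop) (by fun_prop) (by fun_prop) (by fun_prop) (by fun_prop)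
        (by fun_prop)
    have v2 : ∫⁻ w : (ℝ × (ι₁ → ℝ)) × (ι₂ → ℝ), ∫⁻ y' : ι₁ → ℝ,
        G w.1.1 w.1.2 w.2 β.1 y' β.2 t =
        ∫⁻ α : ℝ × (ι₁ → ℝ), ∫⁻ z : ι₂ → ℝ, ∫⁻ y' : ι₁ → ℝ, G α.1 α.2 z β.1 y' β.2 t :=
      lintegral_prod (μ := (volume : Measure (ℝ × (ι₁ → ℝ)))) (ν := (volume : Measure (ι₂ → ℝ)))
        _ m13.lintegral_prod_right'.aemeasurable
    have v3 : ∀ α : ℝ × (ι₁ → ℝ), ∫⁻ z : ι₂ → ℝ, ∫⁻ y' : ι₁ → ℝ, G α.1 α.2 z β.1 y' β.2 t =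
        ∫⁻ ζ : (ι₂ → ℝ) × (ι₁ → ℝ), G α.1 α.2 ζ.1 β.1 ζ.2 β.2 t := by
      intro α
      have m14 : Measurable (fun ζ : (ι₂ → ℝ) × (ι₁ → ℝ) => G α.1 α.2 ζ.1 β.1 ζ.2 β.2 t) :=
        comp (by fun_prop) (by fun_prop) (by fun_prop) (by fun_prop) (by fun_prop) (by fun_prop)
          (by fun_prop)
      exact (lintegral_prod (μ := (volume : Measure (ι₂ → ℝ))) (ν := (volume : Measure (ι₁ → ℝ)))
        _ m14.aemeasurable).symm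
    rw [v1, v2]
    exact lintegral_congr v3
  rw [lintegral_congr u3]
  have m15 : Measurable (fun p : (ℝ × (ℝ × (ι₁ → ℝ))) × ((ι₂ → ℝ) × (ι₁ → ℝ)) =>
      G p.1.2.1 p.1.2.2 p.2.1 β.1 p.2.2 β.2 p.1.1) :=
    comp (by fun_prop) (by fun_prop) (by fun_prop) (by fun_prop) (by fun_prop) (by fun_prop)
      (by fun_prop)
  have m16 : Measurable (fun p : ℝ × (ℝ × (ι₁ → ℝ)) => ∫⁻ ζ : (ι₂ → ℝ) × (ι₁ → ℝ),
      G p.2.1 p.2.2 ζ.1 β.1 ζ.2 β.2 p.1) := m15.lintegral_prod_right'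
  exact lintegral_lintegral_swap (f := fun (t : ℝ) (α : ℝ × (ι₁ → ℝ)) =>
      ∫⁻ ζ : (ι₂ → ℝ) × (ι₁ → ℝ), G α.1 α.2 ζ.1 β.1 ζ.2 β.2 t) m16.aemeasurable

end

end Pool.Agent.V5helper34.KC.Mx
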