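import Pool.Agent.V5helper34.KC.Mix

set_option autoImplicit false

/-!
# Close pairs in families of rays with the mixed crossing property: the estimate
-/

open MeasureTheory Set Filter Topology ENNReal NNReal Metric

namespace Pool.Agent.V5helper34.KC.Mx

section

variable {ι₁ ι₂ : Type} [Fintype ι₁] [Fintype ι₂] {F : Type*} [NormedAddCommGroup F]
  [NormedSpace ℝ F] [MeasurableSpace F] [BorelSpace F] [SecondCountableTopology F]
  {A Ψ : Q ι₁ ι₂ → F} {τ : ℝ → ℝ}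

/-- separation and crossing of a family of rays -/
def Crossing (A Ψ : Q ι₁ ι₂ → F) (τ : ℝ → ℝ) (W : Set (Q ι₁ ι₂)) (N ρ c C1 : ℝ) : Prop :=
  ∀ η : ℝ, 0 < η → ∀ s y z₁ z₂ s' y₁ y₂ z' t₁ t₂,
    Bad A Ψ τ W N ρ η (s, (y, z₁)) (s', (y₁, z')) t₁ →
    Bad A Ψ τ W N ρ η (s, (y, z₂)) (s', (y₂, z')) t₂ →
      |t₁ - t₂| * (s - s') ≤ C1 * η ∧ (t₁ = t₂ → c * ‖z₁ - z₂‖ ≤ 2 * η ∧ c * ‖y₁ - y₂‖ ≤ 2 * η)

omit [MeasurableSpace F] [BorelSpace F] [SecondCountableTopology F] in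
/-- The total integral of the bad configurations. -/
theorem outer_bound {W : Set (Q ι₁ ι₂)} {N ρ c C1 p : ℝ} (hN : 0 < N)
    (hc : 0 < c) (hC1 : 0 < C1) (hp0 : 0 < p) (hp : p < 1)
    (hWN : ∀ q ∈ W, |q.1| ≤ N ∧ (∀ i, |q.2.1 i| ≤ N) ∧ ∀ i, |q.2.2 i| ≤ N)
    (hcr : Crossing A Ψ τ W N ρ c C1) :
    ∃ C : ℝ≥0∞, C ≠ ∞ ∧ ∀ η : ℝ, 0 < η →
      ∫⁻ β : ℝ × (ι₂ → ℝ), ∫⁻ α : ℝ × (ι₁ → ℝ), ∫⁻ t : ℝ, ∫⁻ ζ : (ι₂ → ℝ) × (ι₁ → ℝ),
        gBad A Ψ τ W N ρ η (α.1, (α.2, ζ.1)) (β.1, (ζ.2, β.2)) t ≤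
        C * ENNReal.ofReal (η ^ (((Fintype.card ι₂ + Fintype.card ι₁ : ℕ) : ℝ) + p)) := by
  classical
  obtain ⟨D, hD, h1⟩ := Pool.Agent.H023R3.KG.one_dim hp0 hp N
  set V1 : ℝ≥0∞ := volume (univ.pi fun _ : ι₁ => Icc (-N) N) with hV1
  have hV1t : V1 ≠ ∞ := by
    rw [hV1, volume_pi, Measure.pi_pi]
    exact ENNReal.prod_ne_top (fun _ _ => measure_Icc_lt_top.ne)
  set V2 : ℝ≥0∞ := volume (univ.pi fun _ : ι₂ => Icc (-N) N) with hV2
  have hV2t : V2 ≠ ∞ := by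
    rw [hV2, volume_pi, Measure.pi_pi]
    exact ENNReal.prod_ne_top (fun _ _ => measure_Icc_lt_top.ne)
  set m : ℕ := Fintype.card ι₂ + Fintype.card ι₁ with hm
  set K0 : ℝ := (4 / c) ^ m * ((2 * C1) ^ p * (2 * N) ^ (1 - p)) with hK0
  refine ⟨ENNReal.ofReal K0 * (D * V1) * (volume (Icc (-N) N) * V2), ?_, ?_⟩
  · exact ENNReal.mul_ne_top (ENNReal.mul_ne_top ENNReal.ofReal_ne_top
      (ENNReal.mul_ne_top hD hV1t)) (ENNReal.mul_ne_top measure_Icc_lt_top.ne hV2t)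
  intro η hη
  set H : ℝ≥0∞ := ENNReal.ofReal ((4 * η / c) ^ m * ((2 * C1 * η) ^ p * (2 * N) ^ (1 - p))) with hH
  have hHK : H = ENNReal.ofReal K0 * ENNReal.ofReal (η ^ ((m : ℝ) + p)) := by
    rw [hH, hK0, ← ENNReal.ofReal_mul (by positivity)]
    congr 1
    rw [Real.rpow_add hη, Real.rpow_natCast, Real.mul_rpow (by positivity) hη.le,
      show 4 * η / c = (4 / c) * η by ring, mul_pow]
    ring
  set B1 : Set (ℝ × (ι₁ → ℝ)) := Icc (-N) N ×ˢ (univ.pi fun _ : ι₁ => Icc (-N) N) with hB1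
  have hB1m : MeasurableSet B1 := measurableSet_Icc.prod (MeasurableSet.univ_pi
    (fun _ => measurableSet_Icc))
  set B2 : Set (ℝ × (ι₂ → ℝ)) := Icc (-N) N ×ˢ (univ.pi fun _ : ι₂ => Icc (-N) N) with hB2
  have hB2m : MeasurableSet B2 := measurableSet_Icc.prod (MeasurableSet.univ_pi
    (fun _ => measurableSet_Icc))
  have hb : ∀ (β : ℝ × (ι₂ → ℝ)) (α : ℝ × (ι₁ → ℝ)), ∫⁻ t : ℝ, ∫⁻ ζ : (ι₂ → ℝ) × (ι₁ → ℝ),
      gBad A Ψ τ W N ρ η (α.1, (α.2, ζ.1)) (β.1, (ζ.2, β.2)) t ≤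
      B2.indicator (fun β => B1.indicator
        (fun α => H * (ENNReal.ofReal |β.1 - α.1|) ^ (-p)) α) β := by
    intro β α
    by_cases hne : ∃ (t : ℝ) (ζ : (ι₂ → ℝ) × (ι₁ → ℝ)),
        Bad A Ψ τ W N ρ η (α.1, (α.2, ζ.1)) (β.1, (ζ.2, β.2)) t
    · obtain ⟨t, ζ, h⟩ := hne
      have hα : α ∈ B1 := by
        obtain ⟨h2, h3, _⟩ := hWN _ h.1
        refine ⟨abs_le.1 h2, ?_⟩
        rw [mem_univ_pi]
        intro i
        exact abs_le.1 (h3 i)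
      have hβ : β ∈ B2 := by
        obtain ⟨h2, _, h3⟩ := hWN _ h.2.1
        refine ⟨abs_le.1 h2, ?_⟩
        rw [mem_univ_pi]
        intro i
        exact abs_le.1 (h3 i)
      rw [indicator_of_mem hβ, indicator_of_mem hα, abs_sub_comm]
      exact inner_bound hN hc hC1 hp0 hp hη
        (fun s y z₁ z₂ s' y₁ y₂ z' t h1 h2 => (hcr η hη _ _ _ _ _ _ _ _ _ _ h1 h2).2 rfl)
        (fun s y z₁ z₂ s' y₁ y₂ z' t₁ t₂ h1 h2 => (hcr η hη _ _ _ _ _ _ _ _ _ _ h1 h2).1) α β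
    · push Not at hne
      have h2 : ∀ t (ζ : (ι₂ → ℝ) × (ι₁ → ℝ)),
          gBad A Ψ τ W N ρ η (α.1, (α.2, ζ.1)) (β.1, (ζ.2, β.2)) t = 0 := by
        intro t ζ
        unfold gBad
        rw [if_neg (hne t ζ)]
      simp [h2]
  have hq : ∀ β : ℝ × (ι₂ → ℝ), ∫⁻ α : ℝ × (ι₁ → ℝ), B1.indicator
      (fun α => H * (ENNReal.ofReal |β.1 - α.1|) ^ (-p)) α ≤ H * (D * V1) := by
    intro β
    rw [lintegral_indicator hB1m, hB1, Measure.volume_eq_prod, ← Measure.prod_restrict]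
    have hm : Measurable (fun α : ℝ × (ι₁ → ℝ) => H * (ENNReal.ofReal |β.1 - α.1|) ^ (-p)) := by
      refine Measurable.const_mul ?_ _
      refine Measurable.pow_const ?_ _
      fun_prop
    rw [lintegral_prod _ hm.aemeasurable]
    simp only [lintegral_const, Measure.restrict_apply_univ]
    rw [lintegral_mul_const _ (by
      refine Measurable.const_mul ?_ _
      refine Measurable.pow_const ?_ _
      fun_prop), lintegral_const_mul _ (by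
      refine Measurable.pow_const ?_ _
      fun_prop), mul_assoc]
    gcongr
    have h2 := h1 β.1 (-1)
    simp only [abs_neg, abs_one, ENNReal.ofReal_one, ENNReal.one_rpow, mul_one] at h2
    refine le_trans (le_of_eq ?_) h2
    apply lintegral_congr
    intro u
    congr 3
    ring
  calc ∫⁻ β : ℝ × (ι₂ → ℝ), ∫⁻ α : ℝ × (ι₁ → ℝ), ∫⁻ t : ℝ, ∫⁻ ζ : (ι₂ → ℝ) × (ι₁ → ℝ),
        gBad A Ψ τ W N ρ η (α.1, (α.2, ζ.1)) (β.1, (ζ.2, β.2)) t
      ≤ ∫⁻ β : ℝ × (ι₂ → ℝ), B2.indicator (fun _ => H * (D * V1)) β := by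
        apply lintegral_mono
        intro β
        refine (lintegral_mono (hb β)).trans ?_
        by_cases hs : β ∈ B2
        · simp only [indicator_of_mem hs]
          exact hq β
        · simp only [indicator_of_notMem hs]
          simp
    _ = H * (D * V1) * (volume (Icc (-N) N) * V2) := by
        rw [lintegral_indicator hB2m, lintegral_const, Measure.restrict_apply_univ, hB2,
          Measure.volume_eq_prod, Measure.prod_prod]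
    _ = _ := by
        rw [hHK]
        ring

/-- the region of parameters -/
def Om (τ : ℝ → ℝ) (W : Set (Q ι₁ ι₂)) (N ρ : ℝ) : Set (Q ι₁ ι₂ × ℝ) :=
  {z | z.1 ∈ W ∧ |z.2| ≤ N ∧ τ z.1.1 + ρ ≤ z.2}

omit [Fintype ι₁] [Fintype ι₂] in
theorem measurableSet_Om (hτ : Measurable τ) {W : Set (Q ι₁ ι₂)} (hW : MeasurableSet W)
    (N ρ : ℝ) : MeasurableSet (Om τ W N ρ) := by
  unfold Om
  refine (measurable_fst hW).inter (MeasurableSet.inter ?_ ?_)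
  · exact measurableSet_le (f := fun z : Q ι₁ ι₂ × ℝ => |z.2|) (by fun_prop)
      measurable_const
  · exact measurableSet_le (f := fun z : Q ι₁ ι₂ × ℝ => τ z.1.1 + ρ)
      (g := fun z => z.2) ((hτ.comp (measurable_fst.comp measurable_fst)).add_const _)
      measurable_snd

/-- the map -/
noncomputable def Phi (A Ψ : Q ι₁ ι₂ → F) (τ : ℝ → ℝ) (z : Q ι₁ ι₂ × ℝ) : F × ℝ :=
  (X A Ψ τ z.1 z.2, z.2)

omit [Fintype ι₁] [Fintype ι₂] in
theorem measurable_Phi (hA : Measurable A) (hΨ : Measurable Ψ) (hτ : Measurable τ) :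
    Measurable (Phi A Ψ τ) := (measurable_X hA hΨ hτ).prodMk measurable_snd

/-- the close pairs, the second one on the smaller level -/
def Cl (A Ψ : Q ι₁ ι₂ → F) (τ : ℝ → ℝ) (W : Set (Q ι₁ ι₂)) (N ρ δ : ℝ) :
    Set ((Q ι₁ ι₂ × ℝ) × (Q ι₁ ι₂ × ℝ)) :=
  {p | p.1 ∈ Om τ W N ρ ∧ p.2 ∈ Om τ W N ρ ∧ p.2.1.1 < p.1.1.1 ∧
        dist (Phi A Ψ τ p.1) (Phi A Ψ τ p.2) ≤ δ}

omit [Fintype ι₁] [Fintype ι₂] in
theorem measurableSet_Cl (hA : Measurable A) (hΨ : Measurable Ψ) (hτ : Measurable τ)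
    {W : Set (Q ι₁ ι₂)} (hW : MeasurableSet W) (N ρ δ : ℝ) :
    MeasurableSet (Cl A Ψ τ W N ρ δ) := by
  have hΦ := measurable_Phi hA hΨ hτ
  have hOm := measurableSet_Om (τ := τ) hτ hW N ρ
  refine (measurable_fst hOm).inter ((measurable_snd hOm).inter (MeasurableSet.inter ?_ ?_))
  · exact measurableSet_lt (f := fun p : (Q ι₁ ι₂ × ℝ) × (Q ι₁ ι₂ × ℝ) =>
      p.2.1.1) (g := fun p => p.1.1.1) (by fun_prop) (by fun_prop)
  · exact measurableSet_le ((hΦ.comp measurable_fst).dist (hΦ.comp measurable_snd))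
      measurable_const

/-- half of the pairs -/
theorem half_bound (hA : Measurable A) (hΨ : Measurable Ψ) (hτ : Measurable τ)
    {W : Set (Q ι₁ ι₂)} (hW : MeasurableSet W) {N ρ R : ℝ}
    (hWR : ∀ q ∈ W, ‖Ψ q‖ ≤ R) {δ : ℝ} (hδ : 0 < δ) (hδρ : δ ≤ ρ) :
    ((volume : Measure (Q ι₁ ι₂ × ℝ)).prod volume) (Cl A Ψ τ W N (2 * ρ) δ) ≤
      ENNReal.ofReal (2 * δ) * ∫⁻ x : Q ι₁ ι₂ × ℝ, ∫⁻ q : Q ι₁ ι₂,
        gBad A Ψ τ W N ρ ((1 + R) * δ) q x.1 x.2 := by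
  classical
  have hS := measurableSet_Cl hA hΨ hτ hW N (2 * ρ) δ
  rw [Measure.prod_apply_symm hS]
  have key : ∀ z' : Q ι₁ ι₂ × ℝ,
      volume ((fun z => (z, z')) ⁻¹' (Cl A Ψ τ W N (2 * ρ) δ)) ≤
      ∫⁻ q : Q ι₁ ι₂, ENNReal.ofReal (2 * δ) *
        gBad A Ψ τ W N ρ ((1 + R) * δ) q z'.1 z'.2 := by
    intro z'
    have hm1 : MeasurableSet ((fun z => (z, z')) ⁻¹' (Cl A Ψ τ W N (2 * ρ) δ)) := (by fun_prop :
      Measurable (fun z : Q ι₁ ι₂ × ℝ => (z, z'))) hS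
    rw [Measure.volume_eq_prod (Q ι₁ ι₂) ℝ, Measure.prod_apply hm1]
    apply lintegral_mono
    intro q
    change volume (Prod.mk q ⁻¹' ((fun z => (z, z')) ⁻¹' (Cl A Ψ τ W N (2 * ρ) δ))) ≤
      ENNReal.ofReal (2 * δ) * gBad A Ψ τ W N ρ ((1 + R) * δ) q z'.1 z'.2
    by_cases hne : ∃ t, (q, t) ∈ (fun z => (z, z')) ⁻¹' (Cl A Ψ τ W N (2 * ρ) δ)
    · obtain ⟨t, h1, h2, h3, h4⟩ := hne
      have hd : dist (Phi A Ψ τ (q, t)) (Phi A Ψ τ z') ≤ δ := h4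
      rw [Prod.dist_eq, max_le_iff] at hd
      have e2 : |t - z'.2| ≤ δ := by
        have := hd.2
        rwa [Real.dist_eq] at this
      have hbad : Bad A Ψ τ W N ρ ((1 + R) * δ) q z'.1 z'.2 := by
        have h12 : τ q.1 + 2 * ρ ≤ t := h1.2.2
        have h22 : τ z'.1.1 + 2 * ρ ≤ z'.2 := h2.2.2
        refine ⟨h1.1, h2.1, h2.2.1, ?_, ?_, h3, ?_⟩
        · have := (abs_le.1 e2).2
          linarith
        · linarith
        have e1 : ‖X A Ψ τ q t - X A Ψ τ z'.1 z'.2‖ ≤ δ := by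
          have := hd.1
          rwa [dist_eq_norm] at this
        have e3 : X A Ψ τ q z'.2 - X A Ψ τ z'.1 z'.2 =
            (X A Ψ τ q t - X A Ψ τ z'.1 z'.2) - (t - z'.2) • Ψ q := by
          unfold X
          module
        have e4 : ‖(t - z'.2) • Ψ q‖ ≤ δ * R := by
          rw [norm_smul, Real.norm_eq_abs]
          exact mul_le_mul e2 (hWR q h1.1) (norm_nonneg _) hδ.le
        change ‖X A Ψ τ q z'.2 - X A Ψ τ z'.1 z'.2‖ ≤ (1 + R) * δ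
        rw [e3]
        calc _ ≤ ‖X A Ψ τ q t - X A Ψ τ z'.1 z'.2‖ + ‖(t - z'.2) • Ψ q‖ := norm_sub_le _ _
          _ ≤ δ + δ * R := add_le_add e1 e4
          _ = (1 + R) * δ := by ring
      unfold gBad
      rw [if_pos hbad, mul_one]
      calc volume (Prod.mk q ⁻¹' _) ≤ volume (Icc (z'.2 - δ) (z'.2 + δ)) := by
            apply measure_mono
            rintro u ⟨_, _, _, hu⟩
            have hu' : dist (Phi A Ψ τ (q, u)) (Phi A Ψ τ z') ≤ δ := hu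
            rw [Prod.dist_eq, max_le_iff] at hu'
            have hu2 : |u - z'.2| ≤ δ := by
              have := hu'.2
              rwa [Real.dist_eq] at this
            rw [abs_le] at hu2
            exact ⟨by linarith, by linarith⟩
        _ = ENNReal.ofReal (2 * δ) := by
            rw [Real.volume_Icc]
            congr 1
            ring
    · push Not at hne
      have : Prod.mk q ⁻¹' ((fun z => (z, z')) ⁻¹' (Cl A Ψ τ W N (2 * ρ) δ)) = ∅ := by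
        rw [eq_empty_iff_forall_notMem]
        intro t ht
        exact hne t ht
      rw [this, measure_empty]
      exact zero_le
  refine (lintegral_mono key).trans (le_of_eq ?_)
  have e1 : ∀ z' : Q ι₁ ι₂ × ℝ, ∫⁻ q : Q ι₁ ι₂, ENNReal.ofReal (2 * δ) *
        gBad A Ψ τ W N ρ ((1 + R) * δ) q z'.1 z'.2 =
      ENNReal.ofReal (2 * δ) * ∫⁻ q : Q ι₁ ι₂,
        gBad A Ψ τ W N ρ ((1 + R) * δ) q z'.1 z'.2 := by
    intro z'
    rw [lintegral_const_mul' _ _ ENNReal.ofReal_ne_top]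
  simp_rw [e1]
  rw [lintegral_const_mul' _ _ ENNReal.ofReal_ne_top]

/-- The region has finite measure. -/
theorem Om_lt_top {W : Set (Q ι₁ ι₂)} {N ρ : ℝ}
    (hWN : ∀ q ∈ W, |q.1| ≤ N ∧ (∀ i, |q.2.1 i| ≤ N) ∧ ∀ i, |q.2.2 i| ≤ N) :
    volume (Om τ W N ρ) < ∞ := by
  have hsub : Om τ W N ρ ⊆ ((Icc (-N) N) ×ˢ ((univ.pi fun _ : ι₁ => Icc (-N) N) ×ˢ
      (univ.pi fun _ : ι₂ => Icc (-N) N))) ×ˢ (Icc (-N) N) := by
    rintro z ⟨h1, h2, _⟩
    obtain ⟨h3, h4, h5⟩ := hWN _ h1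
    refine ⟨⟨abs_le.1 h3, ?_, ?_⟩, abs_le.1 h2⟩
    · rw [mem_univ_pi]
      intro i
      exact abs_le.1 (h4 i)
    · rw [mem_univ_pi]
      intro i
      exact abs_le.1 (h5 i)
  refine (measure_mono hsub).trans_lt ?_
  rw [Measure.volume_eq_prod, Measure.prod_prod, Measure.volume_eq_prod, Measure.prod_prod,
    Measure.volume_eq_prod, Measure.prod_prod, volume_pi, Measure.pi_pi, volume_pi, Measure.pi_pi]
  refine ENNReal.mul_lt_top (ENNReal.mul_lt_top measure_Icc_lt_top (ENNReal.mul_lt_top ?_ ?_))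
    measure_Icc_lt_top
  · exact (ENNReal.prod_ne_top (fun _ _ => measure_Icc_lt_top.ne)).lt_top
  · exact (ENNReal.prod_ne_top (fun _ _ => measure_Icc_lt_top.ne)).lt_top

/-- **The measure of the close pairs.** -/
theorem pair_bound (hA : Measurable A) (hΨ : Measurable Ψ) (hτ : Measurable τ)
    {W : Set (Q ι₁ ι₂)} (hW : MeasurableSet W) {N ρ c C1 R p : ℝ} (hN : 0 < N) (hρ : 0 < ρ)
    (hc : 0 < c) (hC1 : 0 < C1) (hR : 0 ≤ R) (hp0 : 0 < p) (hp : p < 1)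
    (hWN : ∀ q ∈ W, |q.1| ≤ N ∧ (∀ i, |q.2.1 i| ≤ N) ∧ ∀ i, |q.2.2 i| ≤ N)
    (hWR : ∀ q ∈ W, ‖Ψ q‖ ≤ R) (hcr : Crossing A Ψ τ W N ρ c C1) :
    ∃ C : ℝ≥0∞, C ≠ ∞ ∧ ∀ δ : ℝ, 0 < δ →
      (((volume : Measure (Q ι₁ ι₂ × ℝ)).restrict (Om τ W N (2 * ρ))).prod
        ((volume : Measure (Q ι₁ ι₂ × ℝ)).restrict (Om τ W N (2 * ρ))))
        {p | dist (Phi A Ψ τ p.1) (Phi A Ψ τ p.2) ≤ δ} ≤
        C * ENNReal.ofReal (δ ^ (((Fintype.card ι₂ + Fintype.card ι₁ : ℕ) : ℝ) + 1 + p)) := by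
  obtain ⟨C, hC, h1⟩ := outer_bound hN hc hC1 hp0 hp hWN hcr
  have hΦ := measurable_Phi hA hΨ hτ
  have hOm := measurableSet_Om (τ := τ) hτ hW N (2 * ρ)
  have hOmt : volume (Om τ W N (2 * ρ)) < ∞ := Om_lt_top hWN
  set k : ℕ := Fintype.card ι₂ + Fintype.card ι₁ with hk
  set v0 : ℝ≥0∞ := volume (Om τ W N (2 * ρ)) with hv0
  set C' : ℝ≥0∞ := 2 * (ENNReal.ofReal (2 * (1 + R) ^ ((k : ℝ) + p)) * C) +
    v0 * v0 * ENNReal.ofReal ((1 / ρ) ^ ((k : ℝ) + 1 + p)) with hC'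
  have hpm : ∀ δ : ℝ, MeasurableSet {p : (Q ι₁ ι₂ × ℝ) × (Q ι₁ ι₂ × ℝ) |
      dist (Phi A Ψ τ p.1) (Phi A Ψ τ p.2) ≤ δ} := fun δ =>
    measurableSet_le ((hΦ.comp measurable_fst).dist (hΦ.comp measurable_snd)) measurable_const
  refine ⟨C', ?_, ?_⟩
  · refine ENNReal.add_ne_top.2 ⟨?_, ?_⟩
    · exact ENNReal.mul_ne_top (by norm_num) (ENNReal.mul_ne_top ENNReal.ofReal_ne_top hC)
    · exact ENNReal.mul_ne_top (ENNReal.mul_ne_top hOmt.ne hOmt.ne) ENNReal.ofReal_ne_top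
  intro δ hδ
  rcases le_or_gt δ ρ with hδρ | hδρ
  · set S : Set ((Q ι₁ ι₂ × ℝ) × (Q ι₁ ι₂ × ℝ)) := Cl A Ψ τ W N (2 * ρ) δ with hSdef
    have hS : MeasurableSet S := measurableSet_Cl hA hΨ hτ hW N (2 * ρ) δ
    have hb : ((volume : Measure (Q ι₁ ι₂ × ℝ)).prod volume) S ≤
        (ENNReal.ofReal (2 * (1 + R) ^ ((k : ℝ) + p)) * C) *
          ENNReal.ofReal (δ ^ ((k : ℝ) + 1 + p)) := by
      refine (half_bound hA hΨ hτ hW hWR hδ hδρ).trans ?_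
      rw [reorder hA hΨ hτ hW]
      calc ENNReal.ofReal (2 * δ) * ∫⁻ β : ℝ × (ι₂ → ℝ), ∫⁻ α : ℝ × (ι₁ → ℝ), ∫⁻ t : ℝ,
            ∫⁻ ζ : (ι₂ → ℝ) × (ι₁ → ℝ),
            gBad A Ψ τ W N ρ ((1 + R) * δ) (α.1, (α.2, ζ.1)) (β.1, (ζ.2, β.2)) t
          ≤ ENNReal.ofReal (2 * δ) * (C * ENNReal.ofReal (((1 + R) * δ) ^ ((k : ℝ) + p))) := by
            gcongr
            exact h1 _ (by positivity)
        _ = C * (ENNReal.ofReal (2 * δ) * ENNReal.ofReal (((1 + R) * δ) ^ ((k : ℝ) + p))) := by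
            ring
        _ = C * (ENNReal.ofReal (2 * (1 + R) ^ ((k : ℝ) + p)) *
              ENNReal.ofReal (δ ^ ((k : ℝ) + 1 + p))) := by
            rw [← ENNReal.ofReal_mul (by positivity), ← ENNReal.ofReal_mul (by positivity)]
            congr 2
            rw [Real.mul_rpow (by positivity) hδ.le,
              show (k : ℝ) + 1 + p = ((k : ℝ) + p) + 1 by ring,
              Real.rpow_add hδ ((k : ℝ) + p) 1, Real.rpow_one]
            ring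
        _ = _ := by ring
    rw [Measure.prod_restrict, Measure.restrict_apply (hpm δ)]
    have hsub : {p : (Q ι₁ ι₂ × ℝ) × (Q ι₁ ι₂ × ℝ) |
        dist (Phi A Ψ τ p.1) (Phi A Ψ τ p.2) ≤ δ} ∩ (Om τ W N (2 * ρ) ×ˢ Om τ W N (2 * ρ)) ⊆
        S ∪ (Prod.swap ⁻¹' S ∪ {p : (Q ι₁ ι₂ × ℝ) × (Q ι₁ ι₂ × ℝ) | p.1.1.1 = p.2.1.1}) := by
      rintro p ⟨h2, h3, h4⟩
      rcases lt_trichotomy p.2.1.1 p.1.1.1 with h | h | h
      · left
        exact ⟨h3, h4, h, h2⟩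
      · right; right
        exact h.symm
      · right; left
        refine ⟨h4, h3, h, ?_⟩
        change dist (Phi A Ψ τ p.2) (Phi A Ψ τ p.1) ≤ δ
        rw [dist_comm]
        exact h2
    have hswap : ((volume : Measure (Q ι₁ ι₂ × ℝ)).prod volume) (Prod.swap ⁻¹' S) =
        ((volume : Measure (Q ι₁ ι₂ × ℝ)).prod volume) S :=
      Measure.measurePreserving_swap.measure_preimage hS.nullMeasurableSet
    have hzero : ((volume : Measure (Q ι₁ ι₂ × ℝ)).prod volume)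
        {p : (Q ι₁ ι₂ × ℝ) × (Q ι₁ ι₂ × ℝ) | p.1.1.1 = p.2.1.1} = 0 := by
      have hm : MeasurableSet {p : (Q ι₁ ι₂ × ℝ) × (Q ι₁ ι₂ × ℝ) |
          p.1.1.1 = p.2.1.1} := measurableSet_eq_fun
            (f := fun p : (Q ι₁ ι₂ × ℝ) × (Q ι₁ ι₂ × ℝ) => p.1.1.1)
            (g := fun p => p.2.1.1) (by fun_prop) (by fun_prop)
      rw [Measure.measure_prod_null hm]
      filter_upwards with z
      have h2 : Prod.mk z ⁻¹' {p : (Q ι₁ ι₂ × ℝ) × (Q ι₁ ι₂ × ℝ) |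
          p.1.1.1 = p.2.1.1} = (({z.1.1} : Set ℝ) ×ˢ (univ : Set ((ι₁ → ℝ) × (ι₂ → ℝ)))) ×ˢ
            (univ : Set ℝ) := by
        ext w
        simp [eq_comm]
      rw [h2, Measure.volume_eq_prod, Measure.prod_prod, Measure.volume_eq_prod, Measure.prod_prod]
      simp
    calc ((volume : Measure (Q ι₁ ι₂ × ℝ)).prod volume) _
        ≤ ((volume : Measure (Q ι₁ ι₂ × ℝ)).prod volume)
          (S ∪ (Prod.swap ⁻¹' S ∪ {p : (Q ι₁ ι₂ × ℝ) × (Q ι₁ ι₂ × ℝ) |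
            p.1.1.1 = p.2.1.1})) := measure_mono hsub
      _ ≤ ((volume : Measure (Q ι₁ ι₂ × ℝ)).prod volume) S +
          (((volume : Measure (Q ι₁ ι₂ × ℝ)).prod volume) (Prod.swap ⁻¹' S) +
          ((volume : Measure (Q ι₁ ι₂ × ℝ)).prod volume)
            {p : (Q ι₁ ι₂ × ℝ) × (Q ι₁ ι₂ × ℝ) | p.1.1.1 = p.2.1.1}) :=
          (measure_union_le _ _).trans (add_le_add le_rfl (measure_union_le _ _))
      _ = 2 * ((volume : Measure (Q ι₁ ι₂ × ℝ)).prod volume) S := by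
          rw [hswap, hzero]
          ring
      _ ≤ 2 * ((ENNReal.ofReal (2 * (1 + R) ^ ((k : ℝ) + p)) * C) *
          ENNReal.ofReal (δ ^ ((k : ℝ) + 1 + p))) := by gcongr
      _ = (2 * (ENNReal.ofReal (2 * (1 + R) ^ ((k : ℝ) + p)) * C)) *
          ENNReal.ofReal (δ ^ ((k : ℝ) + 1 + p)) := by ring
      _ ≤ C' * ENNReal.ofReal (δ ^ ((k : ℝ) + 1 + p)) := by
          gcongr
          exact le_self_add
  · have h2 : (1 : ℝ≥0∞) ≤ ENNReal.ofReal ((1 / ρ) ^ ((k : ℝ) + 1 + p)) *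
        ENNReal.ofReal (δ ^ ((k : ℝ) + 1 + p)) := by
      rw [← ENNReal.ofReal_mul (by positivity), ← Real.mul_rpow (by positivity) hδ.le,
        ← ENNReal.ofReal_one]
      apply ENNReal.ofReal_le_ofReal
      apply Real.one_le_rpow
      · rw [one_div, inv_mul_eq_div, le_div_iff₀ hρ]
        linarith
      · positivity
    calc _ ≤ (((volume : Measure (Q ι₁ ι₂ × ℝ)).restrict (Om τ W N (2 * ρ))).prod
        ((volume : Measure (Q ι₁ ι₂ × ℝ)).restrict (Om τ W N (2 * ρ)))) univ :=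
          measure_mono (subset_univ _)
      _ = v0 * v0 := by
          rw [← univ_prod_univ, Measure.prod_prod, Measure.restrict_apply_univ]
      _ = v0 * v0 * 1 := (mul_one _).symm
      _ ≤ v0 * v0 * (ENNReal.ofReal ((1 / ρ) ^ ((k : ℝ) + 1 + p)) *
          ENNReal.ofReal (δ ^ ((k : ℝ) + 1 + p))) := by gcongr
      _ = (v0 * v0 * ENNReal.ofReal ((1 / ρ) ^ ((k : ℝ) + 1 + p))) *
          ENNReal.ofReal (δ ^ ((k : ℝ) + 1 + p)) := by ring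
      _ ≤ _ := by
          gcongr
          exact le_add_self

/-- **The dimension of a family in parameter form.** -/
theorem dim_of_family (hA : Measurable A) (hΨ : Measurable Ψ)
    (hτ : Measurable τ) {W : Set (Q ι₁ ι₂)} (hW : MeasurableSet W) {N0 R : ℝ}
    (hWN : ∀ q ∈ W, |q.1| ≤ N0 ∧ (∀ i, |q.2.1 i| ≤ N0) ∧ ∀ i, |q.2.2 i| ≤ N0)
    (hWR : ∀ q ∈ W, ‖Ψ q‖ ≤ R)
    (hcr : ∀ ρ : ℝ, 0 < ρ → ∃ c C1 : ℝ, 0 < c ∧ 0 < C1 ∧ ∀ N : ℝ, Crossing A Ψ τ W N ρ c C1)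
    {G : Set (Q ι₁ ι₂ × ℝ)} {K : Set (F × ℝ)} (hG : ∀ z ∈ G, z.1 ∈ W ∧ τ z.1.1 < z.2)
    (hGK : ∀ z ∈ G, Phi A Ψ τ z ∈ K) (hpos : 0 < volume G) :
    ((Fintype.card ι₂ + Fintype.card ι₁ + 2 : ℕ) : ℝ≥0∞) ≤ dimH K := by
  set k : ℕ := Fintype.card ι₂ + Fintype.card ι₁ with hk
  -- a piece of the parameter set
  obtain ⟨n, hn0, hn⟩ : ∃ n : ℕ, 0 < n ∧ 0 < volume (G ∩ Om τ W (N0 + n) (2 * (1 / (n : ℝ)))) := by
    by_contra hcon
    push Not at hcon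
    apply hpos.ne'
    refine measure_mono_null (t := ⋃ n : ℕ, G ∩ Om τ W (N0 + ((n + 1 : ℕ) : ℝ))
      (2 * (1 / ((n + 1 : ℕ) : ℝ)))) ?_ (measure_iUnion_null (fun n =>
        le_antisymm (hcon (n + 1) (Nat.succ_pos n)) zero_le))
    intro z hz
    obtain ⟨h1, h2⟩ := hG z hz
    obtain ⟨n1, hn1⟩ := exists_nat_ge |z.2|
    obtain ⟨n2, hn2⟩ := exists_nat_gt (2 / (z.2 - τ z.1.1))
    have hN0 : 0 ≤ N0 := (abs_nonneg _).trans (hWN _ h1).1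
    refine mem_iUnion.2 ⟨max n1 n2, hz, h1, ?_, ?_⟩
    · have h3 : (n1 : ℝ) ≤ ((max n1 n2 + 1 : ℕ) : ℝ) := by
        exact_mod_cast (le_max_left n1 n2).trans (Nat.le_succ _)
      linarith
    · have hd : 0 < z.2 - τ z.1.1 := sub_pos.2 h2
      have h3 : (n2 : ℝ) ≤ ((max n1 n2 + 1 : ℕ) : ℝ) := by
        exact_mod_cast (le_max_right n1 n2).trans (Nat.le_succ _)
      have h4 : 2 / (z.2 - τ z.1.1) < ((max n1 n2 + 1 : ℕ) : ℝ) := hn2.trans_le h3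
      have h5 : (0 : ℝ) < ((max n1 n2 + 1 : ℕ) : ℝ) := by positivity
      have h6 : 2 * (1 / ((max n1 n2 + 1 : ℕ) : ℝ)) ≤ z.2 - τ z.1.1 := by
        rw [div_lt_iff₀ hd] at h4
        rw [mul_one_div, div_le_iff₀ h5]
        linarith
      linarith
  have hn0' : (0 : ℝ) < n := by exact_mod_cast hn0
  obtain ⟨z0, hz0⟩ : (G ∩ Om τ W (N0 + n) (2 * (1 / (n : ℝ)))).Nonempty := by
    by_contra hcon
    rw [not_nonempty_iff_eq_empty] at hcon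
    rw [hcon, measure_empty] at hn
    exact lt_irrefl _ hn
  have hN0 : 0 ≤ N0 := (abs_nonneg _).trans (hWN _ (hG z0 hz0.1).1).1
  have hR0 : 0 ≤ R := (norm_nonneg _).trans (hWR _ (hG z0 hz0.1).1)
  set N : ℝ := N0 + n with hN
  set ρ : ℝ := 1 / (n : ℝ) with hρ
  have hρ0 : 0 < ρ := by positivity
  have hNpos : 0 < N := by positivity
  have hWN' : ∀ q ∈ W, |q.1| ≤ N ∧ (∀ i, |q.2.1 i| ≤ N) ∧ ∀ i, |q.2.2 i| ≤ N := by
    intro q hq
    obtain ⟨h1, h2, h3⟩ := hWN q hq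
    exact ⟨h1.trans (by rw [hN]; linarith), fun i => (h2 i).trans (by rw [hN]; linarith),
      fun i => (h3 i).trans (by rw [hN]; linarith)⟩
  have hOm := measurableSet_Om (τ := τ) hτ hW N (2 * ρ)
  set m : Measure (Q ι₁ ι₂ × ℝ) := volume.restrict (Om τ W N (2 * ρ)) with hm
  have hfm : IsFiniteMeasure m := by
    constructor
    rw [hm, Measure.restrict_apply_univ]
    exact Om_lt_top hWN'
  have hmG : 0 < m (G ∩ Om τ W N (2 * ρ)) := by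
    rw [hm, Measure.restrict_eq_self _ inter_subset_right]
    exact hn
  have hΦ := measurable_Phi hA hΨ hτ
  by_contra hlt
  push Not at hlt
  obtain ⟨s, hs1, hs2⟩ := ENNReal.lt_iff_exists_nnreal_btwn.1 hlt
  have hs2' : (s : ℝ) < (k : ℝ) + 2 := by
    have : s < ((k + 2 : ℕ) : ℝ≥0) := by exact_mod_cast hs2
    exact_mod_cast this
  -- the exponents
  set s1 : ℝ≥0 := max s (k + 1) with hs1def
  have hs1lt : (s1 : ℝ) < (k : ℝ) + 2 := by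
    rw [hs1def]
    push_cast
    exact max_lt hs2' (by linarith)
  have hs1ge : (k : ℝ) + 1 ≤ s1 := by
    rw [hs1def]
    push_cast
    exact le_max_right _ _
  set p : ℝ := ((s1 : ℝ) - (k + 1) + 1) / 2 with hp
  have hp0 : 0 < p := by rw [hp]; linarith
  have hp1 : p < 1 := by rw [hp]; linarith
  have hσ : (s1 : ℝ) < (k : ℝ) + 1 + p := by rw [hp]; linarith
  obtain ⟨c, C1, hc, hC1, hcr'⟩ := hcr ρ hρ0
  obtain ⟨C, hC, hb⟩ := pair_bound hA hΨ hτ hW hNpos hρ0 hc hC1 hR0 hp0 hp1 hWN' hWR (hcr' N)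
  have hne := pair_dim m hΦ (s := (s1 : ℝ)) (σ := (k : ℝ) + 1 + p) (by linarith) hσ hC
    (fun j => hb _ (by positivity)) (G := G ∩ Om τ W N (2 * ρ)) (K := K)
    (fun z hz => hGK z hz.1) hmG
  have h7 := le_dimH_of_hausdorffMeasure_ne_zero hne
  have h8 : (s : ℝ≥0∞) ≤ (s1 : ℝ≥0∞) := ENNReal.coe_le_coe.2 (le_max_left _ _)
  exact absurd hs1 (not_lt.2 (h8.trans h7))

end

end Pool.Agent.V5helper34.KC.Mx
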