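import Pool.Agent.V5helper34.KC.Dim

set_option autoImplicit false

/-!
# Close pairs in families of rays with the crossing property
-/

open MeasureTheory Set Filter Topology ENNReal NNReal Metric

namespace Pool.Agent.V5helper34.KC

/-- The point at height `t` of the ray with the parameter `q`. -/
noncomputable def X {k : ℕ} {F : Type*} [NormedAddCommGroup F] [NormedSpace ℝ F]
    (A Ψ : ℝ × (Fin k → ℝ) → F) (τ : ℝ → ℝ) (q : ℝ × (Fin k → ℝ)) (t : ℝ) : F :=
  A q + (t - τ q.1) • Ψ q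

section

variable {k : ℕ} {F : Type*} [NormedAddCommGroup F] [NormedSpace ℝ F] [MeasurableSpace F]
  [BorelSpace F] [SecondCountableTopology F]
  {A Ψ : ℝ × (Fin k → ℝ) → F} {τ : ℝ → ℝ}

theorem measurable_X (hA : Measurable A) (hΨ : Measurable Ψ) (hτ : Measurable τ) :
    Measurable (fun z : (ℝ × (Fin k → ℝ)) × ℝ => X A Ψ τ z.1 z.2) := by
  unfold X
  exact (hA.comp measurable_fst).add
    ((measurable_snd.sub (hτ.comp (measurable_fst.comp measurable_fst))).smul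
      (hΨ.comp measurable_fst))

theorem min_le_rpow {a b p : ℝ} (ha : 0 ≤ a) (hb : 0 ≤ b) (hp0 : 0 < p) (hp : p < 1) :
    min a b ≤ a ^ p * b ^ (1 - p) := by
  rcases le_total a b with h | h
  · rw [min_eq_left h]
    calc a = a ^ p * a ^ (1 - p) := by
          rcases ha.eq_or_lt with h0 | h0
          · rw [← h0, Real.zero_rpow hp0.ne', zero_mul]
          · rw [← Real.rpow_add h0]; simp
      _ ≤ a ^ p * b ^ (1 - p) := by
          gcongr
  · rw [min_eq_right h]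
    calc b = b ^ p * b ^ (1 - p) := by
          rcases hb.eq_or_lt with h0 | h0
          · rw [← h0, Real.zero_rpow hp0.ne', zero_mul]
          · rw [← Real.rpow_add h0]; simp
      _ ≤ a ^ p * b ^ (1 - p) := by
          gcongr

/-- The set of the pairs `(t', y')` close to the ray `q`, at the level `s'`. -/
def Bad (A Ψ : ℝ × (Fin k → ℝ) → F) (τ : ℝ → ℝ) (W : Set (ℝ × (Fin k → ℝ))) (N ρ η : ℝ)
    (q : ℝ × (Fin k → ℝ)) (s' t' : ℝ) (y' : Fin k → ℝ) : Prop :=
  q ∈ W ∧ (s', y') ∈ W ∧ |t'| ≤ N ∧ τ s' + ρ ≤ t' ∧ q.1 < s' ∧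
    ‖X A Ψ τ q t' - X A Ψ τ (s', y') t'‖ ≤ η

open scoped Classical in
/-- its indicator function -/
noncomputable def gBad (A Ψ : ℝ × (Fin k → ℝ) → F) (τ : ℝ → ℝ) (W : Set (ℝ × (Fin k → ℝ)))
    (N ρ η : ℝ) (q : ℝ × (Fin k → ℝ)) (s' t' : ℝ) (y' : Fin k → ℝ) : ℝ≥0∞ :=
  if Bad A Ψ τ W N ρ η q s' t' y' then 1 else 0

theorem measurableSet_bad (hA : Measurable A) (hΨ : Measurable Ψ) (hτ : Measurable τ)
    {W : Set (ℝ × (Fin k → ℝ))} (hW : MeasurableSet W) (N ρ η : ℝ) :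
    MeasurableSet {p : (ℝ × (Fin k → ℝ)) × ℝ × ℝ × (Fin k → ℝ) |
      Bad A Ψ τ W N ρ η p.1 p.2.1 p.2.2.1 p.2.2.2} := by
  unfold Bad
  have h1 : MeasurableSet {p : (ℝ × (Fin k → ℝ)) × ℝ × ℝ × (Fin k → ℝ) | p.1 ∈ W} :=
    measurable_fst hW
  have h2 : MeasurableSet {p : (ℝ × (Fin k → ℝ)) × ℝ × ℝ × (Fin k → ℝ) |
      ((p.2.1, p.2.2.2) : ℝ × (Fin k → ℝ)) ∈ W} :=
    (Measurable.prodMk (by fun_prop) (by fun_prop) : Measurable
      (fun p : (ℝ × (Fin k → ℝ)) × ℝ × ℝ × (Fin k → ℝ) =>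
        ((p.2.1, p.2.2.2) : ℝ × (Fin k → ℝ)))) hW
  have h3 : MeasurableSet {p : (ℝ × (Fin k → ℝ)) × ℝ × ℝ × (Fin k → ℝ) | |p.2.2.1| ≤ N} :=
    measurableSet_le (by fun_prop) measurable_const
  have h4 : MeasurableSet {p : (ℝ × (Fin k → ℝ)) × ℝ × ℝ × (Fin k → ℝ) |
      τ p.2.1 + ρ ≤ p.2.2.1} :=
    measurableSet_le ((hτ.comp (by fun_prop)).add_const _) (by fun_prop)
  have h5 : MeasurableSet {p : (ℝ × (Fin k → ℝ)) × ℝ × ℝ × (Fin k → ℝ) | p.1.1 < p.2.1} :=
    measurableSet_lt (by fun_prop) (by fun_prop)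
  have h6 : MeasurableSet {p : (ℝ × (Fin k → ℝ)) × ℝ × ℝ × (Fin k → ℝ) |
      ‖X A Ψ τ p.1 p.2.2.1 - X A Ψ τ (p.2.1, p.2.2.2) p.2.2.1‖ ≤ η} := by
    refine measurableSet_le ?_ measurable_const
    have e1 : Measurable (fun p : (ℝ × (Fin k → ℝ)) × ℝ × ℝ × (Fin k → ℝ) =>
        X A Ψ τ p.1 p.2.2.1) :=
      (measurable_X hA hΨ hτ).comp (Measurable.prodMk (by fun_prop) (by fun_prop))
    have e2 : Measurable (fun p : (ℝ × (Fin k → ℝ)) × ℝ × ℝ × (Fin k → ℝ) =>
        X A Ψ τ (p.2.1, p.2.2.2) p.2.2.1) :=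
      (measurable_X hA hΨ hτ).comp
        (Measurable.prodMk (Measurable.prodMk (by fun_prop) (by fun_prop)) (by fun_prop))
    exact (e1.sub e2).norm
  exact h1.inter (h2.inter (h3.inter (h4.inter (h5.inter h6))))

theorem measurable_gBad (hA : Measurable A) (hΨ : Measurable Ψ) (hτ : Measurable τ)
    {W : Set (ℝ × (Fin k → ℝ))} (hW : MeasurableSet W) (N ρ η : ℝ) :
    Measurable (fun p : (ℝ × (Fin k → ℝ)) × ℝ × ℝ × (Fin k → ℝ) =>
      gBad A Ψ τ W N ρ η p.1 p.2.1 p.2.2.1 p.2.2.2) := by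
  classical
  unfold gBad
  exact Measurable.ite (measurableSet_bad hA hΨ hτ hW N ρ η) measurable_const measurable_const

/-- The inner integral. -/
theorem inner_bound {W : Set (ℝ × (Fin k → ℝ))} {N ρ c C1 p : ℝ} (hN : 0 < N) (hρ : 0 < ρ)
    (hc : 0 < c) (hC1 : 0 < C1) (hp0 : 0 < p) (hp : p < 1)
    (hsep : ∀ s y y', (s, y) ∈ W → (s, y') ∈ W → ∀ t, τ s + ρ ≤ t →
      c * ‖y - y'‖ ≤ ‖X A Ψ τ (s, y) t - X A Ψ τ (s, y') t‖)
    (hcross : ∀ q ∈ W, ∀ s', q.1 < s' → ∀ t₁ t₂ y₁ y₂ η, τ s' ≤ t₁ → τ s' ≤ t₂ →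
      (s', y₁) ∈ W → (s', y₂) ∈ W → ‖X A Ψ τ q t₁ - X A Ψ τ (s', y₁) t₁‖ ≤ η →
      ‖X A Ψ τ q t₂ - X A Ψ τ (s', y₂) t₂‖ ≤ η → |t₁ - t₂| * (s' - q.1) ≤ C1 * η)
    {η : ℝ} (hη : 0 < η) (q : ℝ × (Fin k → ℝ)) (s' : ℝ) :
    ∫⁻ t' : ℝ, ∫⁻ y' : Fin k → ℝ, gBad A Ψ τ W N ρ η q s' t' y' ≤
      ENNReal.ofReal ((4 * η / c) ^ k * ((2 * C1 * η) ^ p * (2 * N) ^ (1 - p))) *
        (ENNReal.ofReal |s' - q.1|) ^ (-p) := by
  classical
  -- the volume of the sections
  have hsec : ∀ t' : ℝ, ∫⁻ y' : Fin k → ℝ, gBad A Ψ τ W N ρ η q s' t' y' ≤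
      ENNReal.ofReal ((4 * η / c) ^ k) := by
    intro t'
    by_cases hne : ∃ y₀, Bad A Ψ τ W N ρ η q s' t' y₀
    · obtain ⟨y₀, hy₀⟩ := hne
      have h1 : ∀ y', gBad A Ψ τ W N ρ η q s' t' y' ≤
          (closedBall y₀ (2 * η / c)).indicator (fun _ => (1 : ℝ≥0∞)) y' := by
        intro y'
        unfold gBad
        split_ifs with h
        · rw [indicator_of_mem]
          rw [mem_closedBall, dist_eq_norm]
          have h2 := hsep s' y' y₀ h.2.1 hy₀.2.1 t' h.2.2.2.1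
          have h3 : ‖X A Ψ τ (s', y') t' - X A Ψ τ (s', y₀) t'‖ ≤ 2 * η := by
            calc ‖X A Ψ τ (s', y') t' - X A Ψ τ (s', y₀) t'‖
                = ‖(X A Ψ τ q t' - X A Ψ τ (s', y₀) t') - (X A Ψ τ q t' - X A Ψ τ (s', y') t')‖ := by
                  congr 1; abel
              _ ≤ ‖X A Ψ τ q t' - X A Ψ τ (s', y₀) t'‖ + ‖X A Ψ τ q t' - X A Ψ τ (s', y') t'‖ :=
                  norm_sub_le _ _
              _ ≤ η + η := add_le_add hy₀.2.2.2.2.2 h.2.2.2.2.2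
              _ = 2 * η := by ring
          rw [le_div_iff₀ hc]
          linarith
        · exact zero_le
      calc ∫⁻ y' : Fin k → ℝ, gBad A Ψ τ W N ρ η q s' t' y'
          ≤ ∫⁻ y' : Fin k → ℝ, (closedBall y₀ (2 * η / c)).indicator (fun _ => (1 : ℝ≥0∞)) y' :=
            lintegral_mono h1
        _ = volume (closedBall y₀ (2 * η / c)) := by
            rw [lintegral_indicator measurableSet_closedBall]
            simp
        _ = ENNReal.ofReal ((4 * η / c) ^ k) := by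
            rw [Real.volume_pi_closedBall _ (by positivity)]
            simp only [Fintype.card_fin]
            congr 2
            ring
    · push Not at hne
      have h1 : ∀ y', gBad A Ψ τ W N ρ η q s' t' y' = 0 := by
        intro y'
        unfold gBad
        rw [if_neg (hne y')]
      simp [h1]
  by_cases hne : ∃ t₀ y₀, Bad A Ψ τ W N ρ η q s' t₀ y₀
  · obtain ⟨t₀, y₀, h0⟩ := hne
    have hss : 0 < s' - q.1 := sub_pos.2 h0.2.2.2.2.1
    set D : ℝ := C1 * η / (s' - q.1) with hD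
    have hD0 : 0 < D := by positivity
    have h1 : ∀ t', ∫⁻ y' : Fin k → ℝ, gBad A Ψ τ W N ρ η q s' t' y' ≤
        (Icc (t₀ - D) (t₀ + D) ∩ Icc (-N) N).indicator
          (fun _ => ENNReal.ofReal ((4 * η / c) ^ k)) t' := by
      intro t'
      by_cases ht : ∃ y', Bad A Ψ τ W N ρ η q s' t' y'
      · obtain ⟨y', h⟩ := ht
        rw [indicator_of_mem]
        · exact hsec t'
        · have h2 := hcross q h.1 s' h.2.2.2.2.1 t' t₀ y' y₀ η (by linarith [h.2.2.2.1])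
            (by linarith [h0.2.2.2.1]) h.2.1 h0.2.1 h.2.2.2.2.2 h0.2.2.2.2.2
          have h3 : |t' - t₀| ≤ D := by
            rw [hD, le_div_iff₀ hss]
            exact h2
          rw [abs_le] at h3
          exact ⟨⟨by linarith, by linarith⟩, (abs_le.1 h.2.2.1).1, (abs_le.1 h.2.2.1).2⟩
      · push Not at ht
        have h2 : ∀ y', gBad A Ψ τ W N ρ η q s' t' y' = 0 := by
          intro y'
          unfold gBad
          rw [if_neg (ht y')]
        simp [h2]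
    have h4 : volume (Icc (t₀ - D) (t₀ + D) ∩ Icc (-N) N) ≤ ENNReal.ofReal (min (2 * D) (2 * N)) := by
      rw [ENNReal.ofReal_min]
      refine le_min ?_ ?_
      · refine (measure_mono inter_subset_left).trans ?_
        rw [Real.volume_Icc]
        apply ENNReal.ofReal_le_ofReal
        linarith
      · refine (measure_mono inter_subset_right).trans ?_
        rw [Real.volume_Icc]
        apply ENNReal.ofReal_le_ofReal
        linarith
    calc ∫⁻ t' : ℝ, ∫⁻ y' : Fin k → ℝ, gBad A Ψ τ W N ρ η q s' t' y'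
        ≤ ∫⁻ t' : ℝ, (Icc (t₀ - D) (t₀ + D) ∩ Icc (-N) N).indicator
          (fun _ => ENNReal.ofReal ((4 * η / c) ^ k)) t' := lintegral_mono h1
      _ = ENNReal.ofReal ((4 * η / c) ^ k) * volume (Icc (t₀ - D) (t₀ + D) ∩ Icc (-N) N) := by
          rw [lintegral_indicator (measurableSet_Icc.inter measurableSet_Icc), lintegral_const,
            Measure.restrict_apply_univ]
      _ ≤ ENNReal.ofReal ((4 * η / c) ^ k) * ENNReal.ofReal (min (2 * D) (2 * N)) := by gcongr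
      _ ≤ ENNReal.ofReal ((4 * η / c) ^ k) *
          ENNReal.ofReal ((2 * D) ^ p * (2 * N) ^ (1 - p)) := by
          gcongr
          exact min_le_rpow (by positivity) (by positivity) hp0 hp
      _ = _ := by
          rw [abs_of_pos hss, ENNReal.ofReal_rpow_of_pos hss, ← ENNReal.ofReal_mul (by positivity),
            ← ENNReal.ofReal_mul (by positivity)]
          congr 1
          have h5 : (2 * D) ^ p = (2 * C1 * η) ^ p * (s' - q.1) ^ (-p) := by
            rw [hD, show 2 * (C1 * η / (s' - q.1)) = (2 * C1 * η) / (s' - q.1) by ring,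
              Real.div_rpow (by positivity) hss.le, Real.rpow_neg hss.le]
            rfl
          rw [h5]
          ring
  · push Not at hne
    have h1 : ∀ t' y', gBad A Ψ τ W N ρ η q s' t' y' = 0 := by
      intro t' y'
      unfold gBad
      rw [if_neg (hne t' y')]
    simp [h1]

end

end Pool.Agent.V5helper34.KC
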