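import Pool.Agent.V5helper34.KC.Saddle

set_option autoImplicit false

/-!
# From local data of a function to convex-concave leaves
-/

open MeasureTheory Set Filter Topology ENNReal NNReal Metric

open scoped RealInnerProductSpace

namespace Pool.Agent.V5helper34.KC.Mx

section

variable {ι₁ ι₂ : Type} [Fintype ι₁] [Fintype ι₂] {F : Type*} [NormedAddCommGroup F]
  [InnerProductSpace ℝ F]

/-- Local data: near `v₀` the function `f` is Lipschitz, increases in the direction `b none`, is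
quasi-concave in the first group of coordinates and quasi-convex in the second. -/
structure SaddleData (f : F → ℝ) (v₀ : F) (b : OrthonormalBasis (Option (ι₁ ⊕ ι₂)) ℝ F)
    (R L c : ℝ) : Prop where
  hR : 0 < R
  hL : 0 < L
  hc : 0 < c
  lip : ∀ v ∈ closedBall v₀ R, ∀ w ∈ closedBall v₀ R, |f v - f w| ≤ L * ‖v - w‖
  inc : ∀ v ∈ closedBall v₀ R, ∀ h : ℝ, 0 ≤ h → v + h • b none ∈ closedBall v₀ R →
    c * h ≤ f (v + h • b none) - f v
  qc : ∀ v ∈ closedBall v₀ R, ∀ w ∈ closedBall v₀ R, (∀ j, ⟪b (some (Sum.inr j)), w - v⟫ = 0) →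
    ∀ x y : ℝ, 0 ≤ x → 0 ≤ y → x + y = 1 → min (f v) (f w) ≤ f (x • v + y • w)
  qv : ∀ v ∈ closedBall v₀ R, ∀ w ∈ closedBall v₀ R, (∀ i, ⟪b (some (Sum.inl i)), w - v⟫ = 0) →
    ∀ x y : ℝ, 0 ≤ x → 0 ≤ y → x + y = 1 → f (x • v + y • w) ≤ max (f v) (f w)

theorem Lin_comb (b : OrthonormalBasis (Option (ι₁ ⊕ ι₂)) ℝ F) (x y : ℝ)
    (w w' : (ι₁ → ℝ) × (ι₂ → ℝ)) :
    Lin b (x • w + y • w') = x • Lin b w + y • Lin b w' := by
  unfold Lin
  simp only [Prod.fst_add, Prod.smul_fst, Prod.snd_add, Prod.smul_snd, Pi.add_apply,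
    Pi.smul_apply, smul_eq_mul, add_smul, mul_smul, Finset.sum_add_distrib, smul_add,
    Finset.smul_sum]
  abel

theorem Lin_sub (b : OrthonormalBasis (Option (ι₁ ⊕ ι₂)) ℝ F)
    (w w' : (ι₁ → ℝ) × (ι₂ → ℝ)) : Lin b w - Lin b w' = Lin b (w - w') := by
  have := Lin_comb b 1 (-1) w w'
  simp only [one_smul, neg_smul, ← sub_eq_add_neg] at this
  exact this.symm

theorem norm_Lin_le (b : OrthonormalBasis (Option (ι₁ ⊕ ι₂)) ℝ F) (w : (ι₁ → ℝ) × (ι₂ → ℝ)) :
    ‖Lin b w‖ ≤ ((Fintype.card ι₁ + Fintype.card ι₂ : ℕ) : ℝ) * ‖w‖ := by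
  unfold Lin
  have h1 : ‖∑ i, w.1 i • b (some (Sum.inl i))‖ ≤ Fintype.card ι₁ * ‖w‖ := by
    calc ‖∑ i, w.1 i • b (some (Sum.inl i))‖ ≤ ∑ i, ‖w.1 i • b (some (Sum.inl i))‖ :=
          norm_sum_le _ _
      _ ≤ ∑ _i : ι₁, ‖w‖ := by
          apply Finset.sum_le_sum
          intro i _
          rw [norm_smul, b.norm_eq_one, mul_one]
          exact (norm_le_pi_norm w.1 i).trans (norm_fst_le w)
      _ = _ := by simp
  have h2 : ‖∑ j, w.2 j • b (some (Sum.inr j))‖ ≤ Fintype.card ι₂ * ‖w‖ := by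
    calc ‖∑ j, w.2 j • b (some (Sum.inr j))‖ ≤ ∑ j, ‖w.2 j • b (some (Sum.inr j))‖ :=
          norm_sum_le _ _
      _ ≤ ∑ _j : ι₂, ‖w‖ := by
          apply Finset.sum_le_sum
          intro j _
          rw [norm_smul, b.norm_eq_one, mul_one]
          exact (norm_le_pi_norm w.2 j).trans (norm_snd_le w)
      _ = _ := by simp
  refine (norm_add_le _ _).trans ?_
  push_cast
  linarith

variable [DecidableEq ι₁] [DecidableEq ι₂]

theorem exists_chart {f : F → ℝ} {v₀ : F} {b : OrthonormalBasis (Option (ι₁ ⊕ ι₂)) ℝ F}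
    {R L c : ℝ} (hd : SaddleData f v₀ b R L c) :
    ∃ (ψ : Q ι₁ ι₂ → ℝ) (C : ℝ≥0) (κ r c₀ L' r₁ : ℝ) (y₀ : ι₁ → ℝ) (z₀ : ι₂ → ℝ),
      LipschitzWith C ψ ∧ 0 < c₀ ∧ 0 ≤ L' ∧ 0 < r₁ ∧
      (∀ s z, s ∈ Icc (f v₀ - κ) (f v₀ + κ) → z ∈ closedBall z₀ r →
        ConvexOn ℝ (closedBall y₀ r) (fun y => ψ (s, (y, z)))) ∧
      (∀ s y, s ∈ Icc (f v₀ - κ) (f v₀ + κ) → y ∈ closedBall y₀ r →
        ConcaveOn ℝ (closedBall z₀ r) (fun z => ψ (s, (y, z)))) ∧
      (∀ s s' w, (s, w) ∈ Box (f v₀) κ y₀ z₀ r → (s', w) ∈ Box (f v₀) κ y₀ z₀ r → s' ≤ s →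
        c₀ * (s - s') ≤ ψ (s, w) - ψ (s', w)) ∧
      (∀ s w w', (s, w) ∈ Box (f v₀) κ y₀ z₀ r → (s, w') ∈ Box (f v₀) κ y₀ z₀ r →
        |ψ (s, w) - ψ (s, w')| ≤ L' * ‖w - w'‖) ∧
      (∀ q ∈ Box (f v₀) κ y₀ z₀ r, Psi b ψ q ∈ closedBall v₀ R ∧ f (Psi b ψ q) = q.1) ∧
      ∀ v ∈ closedBall v₀ r₁, (f v, co b v) ∈ Box (f v₀) κ y₀ z₀ r ∧ Psi b ψ (f v, co b v) = v := by
  classical
  obtain ⟨hR, hL, hc, hlip, hinc, hqc, hqv⟩ := hd
  set e : F := b none with he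
  set m : ℝ := ((Fintype.card ι₁ + Fintype.card ι₂ : ℕ) : ℝ) with hm
  have hm0 : 0 ≤ m := Nat.cast_nonneg _
  set h₀ : ℝ := ⟪e, v₀⟫ with hh₀
  set w₀ : (ι₁ → ℝ) × (ι₂ → ℝ) := co b v₀ with hw₀
  set r : ℝ := min (R / (2 * (m + 1))) (c * R / (4 * L * (m + 1))) with hr
  have hr0 : 0 < r := lt_min (by positivity) (by positivity)
  have hr1 : m * r ≤ R / 2 := by
    calc m * r ≤ (m + 1) * (R / (2 * (m + 1))) :=
          mul_le_mul (by linarith) (min_le_left _ _) hr0.le (by positivity)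
      _ = R / 2 := by field_simp
  have hr2 : L * (m * r) ≤ c * R / 4 := by
    calc L * (m * r) ≤ L * ((m + 1) * (c * R / (4 * L * (m + 1)))) := by
          apply mul_le_mul_of_nonneg_left _ hL.le
          exact mul_le_mul (by linarith) (min_le_right _ _) hr0.le (by positivity)
      _ = c * R / 4 := by field_simp
  set κ : ℝ := c * R / 4 with hκ
  have hκ0 : 0 < κ := by positivity
  have hv₀ : h₀ • e + Lin b w₀ = v₀ := decomp b v₀
  have hnorme : ‖e‖ = 1 := b.norm_eq_one _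
  -- points of the cylinder are in the ball
  have hball : ∀ h ∈ Icc (h₀ - R / 2) (h₀ + R / 2), ∀ w ∈ closedBall w₀ r,
      h • e + Lin b w ∈ closedBall v₀ R := by
    intro h hh w hw
    rw [mem_closedBall, dist_eq_norm]
    have e1 : h • e + Lin b w - v₀ = (h - h₀) • e + Lin b (w - w₀) := by
      rw [← Lin_sub]
      nth_rewrite 1 [← hv₀]
      module
    rw [e1]
    have e2 : ‖(h - h₀) • e‖ ≤ R / 2 := by
      rw [norm_smul, hnorme, mul_one, Real.norm_eq_abs, abs_le]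
      exact ⟨by linarith [hh.1], by linarith [hh.2]⟩
    have e3 : ‖Lin b (w - w₀)‖ ≤ R / 2 := by
      refine (norm_Lin_le b _).trans ((mul_le_mul_of_nonneg_left ?_ hm0).trans hr1)
      rw [← dist_eq_norm]
      exact hw
    linarith [norm_add_le ((h - h₀) • e) (Lin b (w - w₀))]
  -- monotonicity on vertical lines
  have hmono : ∀ h ∈ Icc (h₀ - R / 2) (h₀ + R / 2), ∀ h' ∈ Icc (h₀ - R / 2) (h₀ + R / 2),
      ∀ w ∈ closedBall w₀ r, h ≤ h' →
      c * (h' - h) ≤ f (h' • e + Lin b w) - f (h • e + Lin b w) := by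
    intro h hh h' hh' w hw hle
    have e1 : h' • e + Lin b w = (h • e + Lin b w) + (h' - h) • e := by module
    have e2 := hinc (h • e + Lin b w) (hball h hh w hw) (h' - h) (by linarith)
      (by rw [← e1]; exact hball h' hh' w hw)
    rw [← e1] at e2
    exact e2
  have hvar : ∀ h ∈ Icc (h₀ - R / 2) (h₀ + R / 2), ∀ w ∈ closedBall w₀ r, ∀ w' ∈ closedBall w₀ r,
      |f (h • e + Lin b w) - f (h • e + Lin b w')| ≤ L * (m * ‖w - w'‖) := by
    intro h hh w hw w' hw'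
    refine (hlip _ (hball h hh w hw) _ (hball h hh w' hw')).trans ?_
    apply mul_le_mul_of_nonneg_left _ hL.le
    rw [add_sub_add_left_eq_sub, Lin_sub]
    exact norm_Lin_le b _
  have hw₀m : w₀ ∈ closedBall w₀ r := mem_closedBall_self hr0.le
  have hh₀m : h₀ ∈ Icc (h₀ - R / 2) (h₀ + R / 2) := ⟨by linarith, by linarith⟩
  have hhl : h₀ - R / 2 ∈ Icc (h₀ - R / 2) (h₀ + R / 2) := ⟨le_rfl, by linarith⟩
  have hhr : h₀ + R / 2 ∈ Icc (h₀ - R / 2) (h₀ + R / 2) := ⟨by linarith, le_rfl⟩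
  -- existence
  have hBw : ∀ q ∈ Box (f v₀) κ w₀.1 w₀.2 r, q.2 ∈ closedBall w₀ r := by
    rintro q ⟨_, h1, h2⟩
    rw [mem_closedBall, Prod.dist_eq]
    exact max_le h1 h2
  have hex : ∀ q ∈ Box (f v₀) κ w₀.1 w₀.2 r, ∃ h ∈ Icc (h₀ - R / 2) (h₀ + R / 2),
      f (h • e + Lin b q.2) = q.1 := by
    intro q hq
    have hw := hBw q hq
    have hs : q.1 ∈ Icc (f v₀ - κ) (f v₀ + κ) := hq.1
    have e0 : |f (h₀ • e + Lin b q.2) - f v₀| ≤ c * R / 4 := by
      have e1 := hvar h₀ hh₀m q.2 hw w₀ hw₀m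
      rw [hv₀] at e1
      refine e1.trans (le_trans ?_ hr2)
      apply mul_le_mul_of_nonneg_left _ hL.le
      apply mul_le_mul_of_nonneg_left _ hm0
      rw [← dist_eq_norm]
      exact hw
    rw [abs_le] at e0
    have e2 := hmono h₀ hh₀m (h₀ + R / 2) hhr q.2 hw (by linarith)
    have e3 := hmono (h₀ - R / 2) hhl h₀ hh₀m q.2 hw (by linarith)
    have hcont : ContinuousOn (fun h : ℝ => f (h • e + Lin b q.2))
        (Icc (h₀ - R / 2) (h₀ + R / 2)) := by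
      have hfc : ContinuousOn f (closedBall v₀ R) := by
        have hf' : LipschitzOnWith ⟨L, hL.le⟩ f (closedBall v₀ R) := by
          apply LipschitzOnWith.of_dist_le_mul
          intro x hx y hy
          rw [Real.dist_eq, dist_eq_norm]
          exact hlip x hx y hy
        exact hf'.continuousOn
      exact hfc.comp (by fun_prop) (fun h hh => hball h hh q.2 hw)
    have himg := intermediate_value_Icc (by linarith : h₀ - R / 2 ≤ h₀ + R / 2) hcont
    have hmem : q.1 ∈ Icc (f ((h₀ - R / 2) • e + Lin b q.2)) (f ((h₀ + R / 2) • e + Lin b q.2)) := by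
      rw [hκ] at hs
      constructor
      · linarith [hs.1]
      · linarith [hs.2]
    obtain ⟨h, hh, hfh⟩ := himg hmem
    exact ⟨h, hh, hfh⟩
  set ψ₀ : Q ι₁ ι₂ → ℝ := fun q => if hq : q ∈ Box (f v₀) κ w₀.1 w₀.2 r then
    Classical.choose (hex q hq) else 0 with hψ₀
  have hψm : ∀ q ∈ Box (f v₀) κ w₀.1 w₀.2 r, ψ₀ q ∈ Icc (h₀ - R / 2) (h₀ + R / 2) ∧
      f (ψ₀ q • e + Lin b q.2) = q.1 := by
    intro q hq
    have := Classical.choose_spec (hex q hq)
    simp only [hψ₀, dif_pos hq]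
    exact this
  -- comparison of heights on one vertical line
  have hcmp : ∀ h ∈ Icc (h₀ - R / 2) (h₀ + R / 2), ∀ h' ∈ Icc (h₀ - R / 2) (h₀ + R / 2),
      ∀ w ∈ closedBall w₀ r, f (h • e + Lin b w) ≤ f (h' • e + Lin b w) → h ≤ h' := by
    intro h hh h' hh' w hw hle
    by_contra hcon
    push Not at hcon
    have := hmono h' hh' h hh w hw hcon.le
    nlinarith
  have habs : ∀ h ∈ Icc (h₀ - R / 2) (h₀ + R / 2), ∀ h' ∈ Icc (h₀ - R / 2) (h₀ + R / 2),
      ∀ w ∈ closedBall w₀ r, c * |h - h'| ≤ |f (h • e + Lin b w) - f (h' • e + Lin b w)| := by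
    intro h hh h' hh' w hw
    rcases le_total h h' with hle | hle
    · rw [abs_sub_comm, abs_of_nonneg (by linarith : (0 : ℝ) ≤ h' - h), abs_sub_comm]
      exact (hmono h hh h' hh' w hw hle).trans (le_abs_self _)
    · rw [abs_of_nonneg (by linarith : (0 : ℝ) ≤ h - h')]
      exact (hmono h' hh' h hh w hw hle).trans (le_abs_self _)
  have hLipψ : ∀ q ∈ Box (f v₀) κ w₀.1 w₀.2 r, ∀ q' ∈ Box (f v₀) κ w₀.1 w₀.2 r,
      |ψ₀ q - ψ₀ q'| ≤ (|q.1 - q'.1| + L * (m * ‖q.2 - q'.2‖)) / c := by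
    intro q hq q' hq'
    rw [le_div_iff₀ hc, mul_comm]
    obtain ⟨hm1, hf1⟩ := hψm q hq
    obtain ⟨hm2, hf2⟩ := hψm q' hq'
    refine (habs _ hm1 _ hm2 q.2 (hBw q hq)).trans ?_
    rw [hf1]
    have e1 := hvar (ψ₀ q') hm2 q.2 (hBw q hq) q'.2 (hBw q' hq')
    rw [hf2] at e1
    have e2 : |q.1 - f (ψ₀ q' • e + Lin b q.2)| ≤
        |q.1 - q'.1| + |q'.1 - f (ψ₀ q' • e + Lin b q.2)| := abs_sub_le _ _ _
    rw [abs_sub_comm q'.1] at e2
    linarith
  set C : ℝ := (1 + L * m) / c with hC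
  have hC0 : 0 ≤ C := by positivity
  have hLW : LipschitzOnWith ⟨C, hC0⟩ ψ₀ (Box (f v₀) κ w₀.1 w₀.2 r) := by
    apply LipschitzOnWith.of_dist_le_mul
    intro q hq q' hq'
    rw [Real.dist_eq]
    refine (hLipψ q hq q' hq').trans ?_
    change _ ≤ C * dist q q'
    rw [hC, div_mul_eq_mul_div]
    apply div_le_div_of_nonneg_right _ hc.le
    have e1 : |q.1 - q'.1| ≤ dist q q' := by
      rw [← Real.dist_eq, Prod.dist_eq]
      exact le_max_left _ _
    have e2 : ‖q.2 - q'.2‖ ≤ dist q q' := by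
      rw [← dist_eq_norm, Prod.dist_eq]
      exact le_max_right _ _
    have e3 : L * (m * ‖q.2 - q'.2‖) ≤ L * (m * dist q q') :=
      mul_le_mul_of_nonneg_left (mul_le_mul_of_nonneg_left e2 hm0) hL.le
    linarith
  obtain ⟨ψ, hψL, hψe⟩ := hLW.extend_real
  have hψB : ∀ q ∈ Box (f v₀) κ w₀.1 w₀.2 r, ψ q ∈ Icc (h₀ - R / 2) (h₀ + R / 2) ∧
      f (ψ q • e + Lin b q.2) = q.1 := by
    intro q hq
    rw [← hψe hq]
    exact hψm q hq
  set r₁ : ℝ := min (r) (min (R / 2) (κ / L)) with hr₁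
  refine ⟨ψ, _, κ, r, 1 / L, L * m / c, r₁, w₀.1, w₀.2, hψL, by positivity, by positivity,
    lt_min hr0 (lt_min (by positivity) (by positivity)), ?_, ?_, ?_, ?_, ?_, ?_⟩
  · -- convexity
    intro s z hs hz
    refine ⟨convex_closedBall _ _, ?_⟩
    intro y hy y' hy' x x' hx hx' hxx
    simp only [smul_eq_mul]
    have hq : ((s, (y, z)) : Q ι₁ ι₂) ∈ Box (f v₀) κ w₀.1 w₀.2 r := ⟨hs, hy, hz⟩
    have hq' : ((s, (y', z)) : Q ι₁ ι₂) ∈ Box (f v₀) κ w₀.1 w₀.2 r := ⟨hs, hy', hz⟩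
    have hyy : x • y + x' • y' ∈ closedBall w₀.1 r := (convex_closedBall _ _) hy hy' hx hx' hxx
    have hq'' : ((s, (x • y + x' • y', z)) : Q ι₁ ι₂) ∈ Box (f v₀) κ w₀.1 w₀.2 r := ⟨hs, hyy, hz⟩
    obtain ⟨m1, f1⟩ := hψB _ hq
    obtain ⟨m2, f2⟩ := hψB _ hq'
    obtain ⟨m3, f3⟩ := hψB _ hq''
    simp only at f1 f2 f3
    have hperp : ∀ j, ⟪b (some (Sum.inr j)), (ψ (s, (y', z)) • e + Lin b (y', z)) -
        (ψ (s, (y, z)) • e + Lin b (y, z))⟫ = 0 := by
      intro j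
      rw [inner_sub_right, inner_inr, inner_inr]
      ring
    have hqq := hqc _ (hball _ m1 _ (hBw _ hq)) _ (hball _ m2 _ (hBw _ hq')) hperp x x' hx hx' hxx
    have hcomb : x • (ψ (s, (y, z)) • e + Lin b (y, z)) +
        x' • (ψ (s, (y', z)) • e + Lin b (y', z)) =
        (x * ψ (s, (y, z)) + x' * ψ (s, (y', z))) • e + Lin b (x • y + x' • y', z) := by
      have e1 : ((x • y + x' • y', z) : (ι₁ → ℝ) × (ι₂ → ℝ)) = x • (y, z) + x' • (y', z) := by
        ext i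
        · simp
        · simp only [Prod.snd_add, Prod.smul_snd, Pi.add_apply, Pi.smul_apply, smul_eq_mul]
          rw [← add_mul, hxx, one_mul]
      rw [e1, Lin_comb]
      module
    have f1' : f (ψ (s, (y, z)) • e + Lin b (y, z)) = s := f1
    have f2' : f (ψ (s, (y', z)) • e + Lin b (y', z)) = s := f2
    rw [hcomb, f1', f2', min_self] at hqq
    apply hcmp _ m3 _ _ _ (hBw _ hq'')
    · rw [f3]
      exact hqq
    · have := convex_Icc (h₀ - R / 2) (h₀ + R / 2) m1 m2 hx hx' hxx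
      simpa only [smul_eq_mul] using this
  · -- concavity
    intro s y hs hy
    refine ⟨convex_closedBall _ _, ?_⟩
    intro z hz z' hz' x x' hx hx' hxx
    simp only [smul_eq_mul]
    have hq : ((s, (y, z)) : Q ι₁ ι₂) ∈ Box (f v₀) κ w₀.1 w₀.2 r := ⟨hs, hy, hz⟩
    have hq' : ((s, (y, z')) : Q ι₁ ι₂) ∈ Box (f v₀) κ w₀.1 w₀.2 r := ⟨hs, hy, hz'⟩
    have hzz : x • z + x' • z' ∈ closedBall w₀.2 r := (convex_closedBall _ _) hz hz' hx hx' hxx
    have hq'' : ((s, (y, x • z + x' • z')) : Q ι₁ ι₂) ∈ Box (f v₀) κ w₀.1 w₀.2 r := ⟨hs, hy, hzz⟩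
    obtain ⟨m1, f1⟩ := hψB _ hq
    obtain ⟨m2, f2⟩ := hψB _ hq'
    obtain ⟨m3, f3⟩ := hψB _ hq''
    simp only at f1 f2 f3
    have hperp : ∀ i, ⟪b (some (Sum.inl i)), (ψ (s, (y, z')) • e + Lin b (y, z')) -
        (ψ (s, (y, z)) • e + Lin b (y, z))⟫ = 0 := by
      intro i
      rw [inner_sub_right, inner_inl, inner_inl]
      ring
    have hqq := hqv _ (hball _ m1 _ (hBw _ hq)) _ (hball _ m2 _ (hBw _ hq')) hperp x x' hx hx' hxx
    have hcomb : x • (ψ (s, (y, z)) • e + Lin b (y, z)) +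
        x' • (ψ (s, (y, z')) • e + Lin b (y, z')) =
        (x * ψ (s, (y, z)) + x' * ψ (s, (y, z'))) • e + Lin b (y, x • z + x' • z') := by
      have e1 : ((y, x • z + x' • z') : (ι₁ → ℝ) × (ι₂ → ℝ)) = x • (y, z) + x' • (y, z') := by
        ext i
        · simp only [Prod.fst_add, Prod.smul_fst, Pi.add_apply, Pi.smul_apply, smul_eq_mul]
          rw [← add_mul, hxx, one_mul]
        · simp
      rw [e1, Lin_comb]
      module
    have f1' : f (ψ (s, (y, z)) • e + Lin b (y, z)) = s := f1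
    have f2' : f (ψ (s, (y, z')) • e + Lin b (y, z')) = s := f2
    rw [hcomb, f1', f2', max_self] at hqq
    apply hcmp _ _ _ m3 _ (hBw _ hq'')
    · rw [f3]
      exact hqq
    · have := convex_Icc (h₀ - R / 2) (h₀ + R / 2) m1 m2 hx hx' hxx
      simpa only [smul_eq_mul] using this
  · -- monotonicity in the level
    intro s s' w hq hq' hle
    obtain ⟨m1, f1⟩ := hψB _ hq
    obtain ⟨m2, f2⟩ := hψB _ hq'
    simp only at f1 f2
    have hle' : ψ (s', w) ≤ ψ (s, w) := by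
      apply hcmp _ m2 _ m1 _ (hBw _ hq)
      rw [f1, f2]
      exact hle
    have e1 := hlip _ (hball _ m1 _ (hBw _ hq)) _ (hball _ m2 _ (hBw _ hq'))
    rw [f1, f2, add_sub_add_right_eq_sub, ← sub_smul, norm_smul, hnorme, mul_one,
      Real.norm_eq_abs, abs_of_nonneg (by linarith : (0 : ℝ) ≤ s - s'),
      abs_of_nonneg (by linarith : (0 : ℝ) ≤ ψ (s, w) - ψ (s', w))] at e1
    rw [one_div, inv_mul_le_iff₀ hL]
    exact e1
  · -- Lipschitz
    intro s w w' hq hq'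
    have := hLipψ _ hq _ hq'
    rw [hψe hq, hψe hq'] at this
    simp only [sub_self, abs_zero, zero_add] at this
    rw [div_mul_eq_mul_div, mul_assoc]
    exact this
  · intro q hq
    obtain ⟨m1, f1⟩ := hψB q hq
    exact ⟨hball _ m1 _ (hBw q hq), f1⟩
  · intro v hv
    have hvd : ‖v - v₀‖ ≤ r₁ := by
      rw [← dist_eq_norm]
      exact hv
    have hvr : ‖v - v₀‖ ≤ r := hvd.trans (min_le_left _ _)
    have hvR : ‖v - v₀‖ ≤ R / 2 := hvd.trans ((min_le_right _ _).trans (min_le_left _ _))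
    have hvκ : ‖v - v₀‖ ≤ κ / L := hvd.trans ((min_le_right _ _).trans (min_le_right _ _))
    have hvB : v ∈ closedBall v₀ R := by
      rw [mem_closedBall, dist_eq_norm]
      linarith
    have hin : ∀ x : Option (ι₁ ⊕ ι₂), |⟪b x, v - v₀⟫| ≤ ‖v - v₀‖ := by
      intro x
      have := abs_real_inner_le_norm (b x) (v - v₀)
      rwa [b.norm_eq_one, one_mul] at this
    have hq : ((f v, co b v) : Q ι₁ ι₂) ∈ Box (f v₀) κ w₀.1 w₀.2 r := by
      refine ⟨?_, ?_, ?_⟩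
      · have e1 := hlip v hvB v₀ (mem_closedBall_self hR.le)
        have e2 : L * ‖v - v₀‖ ≤ κ := by
          calc L * ‖v - v₀‖ ≤ L * (κ / L) := mul_le_mul_of_nonneg_left hvκ hL.le
            _ = κ := by field_simp
        have e3 := abs_le.1 (e1.trans e2)
        exact ⟨by linarith [e3.1], by linarith [e3.2]⟩
      · rw [mem_closedBall, dist_pi_le_iff hr0.le]
        intro i
        rw [Real.dist_eq]
        have : (co b v).1 i - w₀.1 i = ⟪b (some (Sum.inl i)), v - v₀⟫ := by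
          rw [inner_sub_right]
          rfl
        rw [this]
        exact (hin _).trans hvr
      · rw [mem_closedBall, dist_pi_le_iff hr0.le]
        intro i
        rw [Real.dist_eq]
        have : (co b v).2 i - w₀.2 i = ⟪b (some (Sum.inr i)), v - v₀⟫ := by
          rw [inner_sub_right]
          rfl
        rw [this]
        exact (hin _).trans hvr
    refine ⟨hq, ?_⟩
    obtain ⟨m1, f1⟩ := hψB _ hq
    have hhv : ⟪e, v⟫ ∈ Icc (h₀ - R / 2) (h₀ + R / 2) := by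
      have e1 := (hin none).trans hvR
      rw [inner_sub_right, abs_le] at e1
      exact ⟨by linarith [e1.1], by linarith [e1.2]⟩
    have hdv : ⟪e, v⟫ • e + Lin b (co b v) = v := decomp b v
    have heq : ψ (f v, co b v) = ⟪e, v⟫ := by
      apply le_antisymm
      · apply hcmp _ m1 _ hhv _ (hBw _ hq)
        simp only at f1 ⊢
        rw [f1, hdv]
      · apply hcmp _ hhv _ m1 _ (hBw _ hq)
        simp only at f1 ⊢
        rw [f1, hdv]
    unfold Psi
    rw [heq]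
    exact hdv

end

end Pool.Agent.V5helper34.KC.Mx
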