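import Pool.Agent.V5helper34.KC.Final

set_option autoImplicit false

/-!
# Kakeya sets with leafwise convex families of half lines
-/

open MeasureTheory Set Filter Topology ENNReal NNReal Metric

open scoped RealInnerProductSpace

namespace Pool.Agent.V5helper34.KC

/-- The part of the slopes at which `f` is minimal, upper rays. -/
theorem flat {d : ℕ} {U : Set (E d)} (hU : IsOpen U) {f : E d → ℝ}
    (hf : ConvexOn ℝ U f) {a : E d → E d} (ha : Measurable a) {τ : ℝ → ℝ}
    (h1 : ∀ v ∈ U, ∀ w ∈ U, f v = f w → 0 ≤ ⟪a v - a w, v - w⟫)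
    {V : Set (E d)} (hVU : V ⊆ U) (hVm : ∀ v ∈ V, ∀ u ∈ U, f v ≤ f u) (hV : 0 < volume V)
    {K : Set (E (d + 1))}
    (hK : ∀ v ∈ V, 0 < volume {r : ℝ | 0 < r ∧ pt (a v + r • v) (τ (f v) + r) ∈ K}) :
    ((d + 1 : ℕ) : ℝ≥0∞) ≤ dimH K := by
  obtain ⟨v0, hv0⟩ : V.Nonempty := by
    by_contra hcon
    rw [not_nonempty_iff_eq_empty] at hcon
    rw [hcon, measure_empty] at hV
    exact lt_irrefl _ hV
  set m0 : ℝ := f v0 with hm0
  have hmin : ∀ v ∈ V, f v = m0 := fun v hv =>
    le_antisymm (hVm v hv v0 (hVU hv0)) (hVm v0 hv0 v (hVU hv))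
  set τ0 : ℝ := τ m0 with hτ0
  set M : Set (E d) := {v | v ∈ U ∧ f v ≤ m0} with hM
  have hMm : MeasurableSet M := by
    have h2 : M = U \ (U ∩ f ⁻¹' (Ioi m0)) := by
      ext v
      simp only [hM, mem_setOf_eq, mem_diff, mem_inter_iff, mem_preimage, mem_Ioi, not_and, not_lt]
      constructor
      · rintro ⟨h3, h4⟩
        exact ⟨h3, fun _ => h4⟩
      · rintro ⟨h3, h4⟩
        exact ⟨h3, h4 h3⟩
    rw [h2]
    exact hU.measurableSet.diff
      ((hf.continuousOn hU).isOpen_inter_preimage hU isOpen_Ioi).measurableSet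
  have hMf : ∀ v ∈ M, f v = m0 := fun v hv => le_antisymm hv.2 (hVm v0 hv0 v hv.1)
  set Φ : E d × ℝ → E d × ℝ := fun z => (a z.1 + (z.2 - τ0) • z.1, z.2) with hΦdef
  have hΦ : Measurable Φ := by
    have h2 : Measurable (fun z : E d × ℝ => a z.1) := ha.comp measurable_fst
    exact (h2.add (by fun_prop)).prodMk measurable_snd
  set G : Set (E d × ℝ) := {z | z.1 ∈ V ∧ τ0 < z.2 ∧ Φ z ∈ proj '' K} with hG
  have hsec : ∀ v ∈ V, 0 < volume (Prod.mk v ⁻¹' G) := by
    intro v hv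
    have h3 : {r : ℝ | 0 < r ∧ pt (a v + r • v) (τ (f v) + r) ∈ K} ⊆
        (fun r => r + τ0) ⁻¹' (Prod.mk v ⁻¹' G) := by
      rintro r ⟨hr, hrK⟩
      rw [hmin v hv, ← hτ0] at hrK
      refine ⟨hv, ?_, ?_⟩
      · change τ0 < r + τ0
        linarith
      · refine ⟨_, hrK, ?_⟩
        rw [proj_pt]
        change _ = (a v + (r + τ0 - τ0) • v, r + τ0)
        rw [add_sub_cancel_right, add_comm r]
    have h4 := (hK v hv).trans_le (measure_mono h3)
    rwa [measure_preimage_add_right] at h4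
  have hGpos : 0 < volume G := by
    rw [pos_iff_ne_zero]
    intro h0
    rw [Measure.volume_eq_prod] at h0
    have h3 := Measure.measure_ae_null_of_prod_null h0
    rw [Filter.EventuallyEq, ae_iff] at h3
    apply hV.ne'
    refine measure_mono_null ?_ h3
    intro q hq
    exact (hsec q hq).ne'
  obtain ⟨n, hn0, hn⟩ : ∃ n : ℕ, 0 < n ∧
      0 < volume (G ∩ {z | z.1 ∈ M ∧ ‖z.1‖ ≤ n ∧ τ0 + 1 / (n : ℝ) ≤ z.2}) := by
    by_contra hcon
    push Not at hcon
    apply hGpos.ne'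
    refine measure_mono_null (t := ⋃ n : ℕ, G ∩ {z | z.1 ∈ M ∧ ‖z.1‖ ≤ ((n + 1 : ℕ) : ℝ) ∧
      τ0 + 1 / ((n + 1 : ℕ) : ℝ) ≤ z.2}) ?_ (measure_iUnion_null (fun n =>
        le_antisymm (hcon (n + 1) (Nat.succ_pos n)) zero_le))
    intro z hz
    obtain ⟨n1, hn1⟩ := exists_nat_ge ‖z.1‖
    obtain ⟨n2, hn2⟩ := exists_nat_gt (1 / (z.2 - τ0))
    refine mem_iUnion.2 ⟨max n1 n2, hz, ⟨hVU hz.1, (hmin _ hz.1).le⟩, ?_, ?_⟩
    · have h3 : (n1 : ℝ) ≤ ((max n1 n2 + 1 : ℕ) : ℝ) := by
        exact_mod_cast (le_max_left n1 n2).trans (Nat.le_succ _)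
      linarith
    · have hd : 0 < z.2 - τ0 := sub_pos.2 hz.2.1
      have h3 : (n2 : ℝ) ≤ ((max n1 n2 + 1 : ℕ) : ℝ) := by
        exact_mod_cast (le_max_right n1 n2).trans (Nat.le_succ _)
      have h4 : 1 / (z.2 - τ0) < ((max n1 n2 + 1 : ℕ) : ℝ) := hn2.trans_le h3
      have h5 : (0 : ℝ) < ((max n1 n2 + 1 : ℕ) : ℝ) := by positivity
      have h6 : 1 / ((max n1 n2 + 1 : ℕ) : ℝ) ≤ z.2 - τ0 := by
        rw [div_lt_iff₀ hd] at h4
        rw [div_le_iff₀ h5]
        linarith
      linarith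
  have hn0' : (0 : ℝ) < n := by exact_mod_cast hn0
  set ρ : ℝ := 1 / (n : ℝ) with hρ
  have hρ0 : 0 < ρ := by positivity
  set Ω : Set (E d × ℝ) := {z | z.1 ∈ M ∧ ‖z.1‖ ≤ n ∧ τ0 + ρ ≤ z.2} with hΩ
  have hΩm : MeasurableSet Ω := by
    refine (measurable_fst hMm).inter (MeasurableSet.inter ?_ ?_)
    · exact measurableSet_le (f := fun z : E d × ℝ => ‖z.1‖) (by fun_prop) measurable_const
    · exact measurableSet_le (g := fun z : E d × ℝ => z.2) measurable_const measurable_snd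
  set m : Measure (E d × ℝ) := volume.restrict Ω with hm
  have hmG : 0 < m (G ∩ Ω) := by
    rw [hm, Measure.restrict_eq_self _ inter_subset_right]
    exact hn
  set c0 : ℝ := (1 + n) / ρ with hc0
  have hc00 : 0 < c0 := by positivity
  have hne := frost m (Φ := Φ) (s := ((d + 1 : ℕ) : ℝ)) (by positivity)
    (M := ENNReal.ofReal (2 * c0 ^ d) * volume (ball (0 : E d) 1))
    (ENNReal.mul_ne_top ENNReal.ofReal_ne_top measure_ball_lt_top.ne)
    (G := G ∩ Ω) (K := proj '' K) ?_ (fun z hz => hz.1.2.2) hmG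
  · have h7 := le_dimH_of_hausdorffMeasure_ne_zero (d := ((d + 1 : ℕ) : ℝ≥0))
      (by simpa using hne)
    refine le_trans ?_ (h7.trans (lipschitz_proj.dimH_image_le K))
    simp
  · rintro z ⟨hzG, hzΩ⟩ r hr
    calc m {y | dist (Φ z) (Φ y) ≤ r} = volume ({y | dist (Φ z) (Φ y) ≤ r} ∩ Ω) := by
          rw [hm, Measure.restrict_apply' hΩm]
      _ ≤ volume ((closedBall z.1 (c0 * r)) ×ˢ (Icc (z.2 - r) (z.2 + r))) := by
          apply measure_mono
          rintro y ⟨hy, hyΩ⟩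
          have hy' : dist (Φ z) (Φ y) ≤ r := hy
          rw [Prod.dist_eq, max_le_iff] at hy'
          have e2 : |z.2 - y.2| ≤ r := by
            have := hy'.2
            rwa [Real.dist_eq] at this
          have e1 : ‖(a z.1 + (z.2 - τ0) • z.1) - (a y.1 + (y.2 - τ0) • y.1)‖ ≤ r := by
            have := hy'.1
            rwa [dist_eq_norm] at this
          have e3 : (a z.1 + (y.2 - τ0) • z.1) - (a y.1 + (y.2 - τ0) • y.1) =
              ((a z.1 + (z.2 - τ0) • z.1) - (a y.1 + (y.2 - τ0) • y.1)) - (z.2 - y.2) • z.1 := by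
            module
          have e4 : ‖(z.2 - y.2) • z.1‖ ≤ r * n := by
            rw [norm_smul, Real.norm_eq_abs]
            exact mul_le_mul e2 hzΩ.2.1 (norm_nonneg _) hr.le
          have e5 := sep (h1 z.1 hzΩ.1.1 y.1 hyΩ.1.1 ((hMf _ hzΩ.1).trans (hMf _ hyΩ.1).symm))
            hρ0.le (show ρ ≤ y.2 - τ0 by linarith [hyΩ.2.2])
          rw [e3] at e5
          have e6 := norm_sub_le ((a z.1 + (z.2 - τ0) • z.1) - (a y.1 + (y.2 - τ0) • y.1))
            ((z.2 - y.2) • z.1)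
          refine ⟨?_, ?_⟩
          · rw [mem_closedBall, dist_comm, dist_eq_norm, hc0, div_mul_eq_mul_div, le_div_iff₀ hρ0]
            nlinarith
          · rw [abs_le] at e2
            exact ⟨by linarith, by linarith⟩
      _ = _ := by
          rw [Measure.volume_eq_prod, Measure.prod_prod, Real.volume_Icc,
            Measure.addHaar_closedBall _ _ (by positivity), finrank_euclideanSpace_fin]
          rw [mul_right_comm, ← ENNReal.ofReal_mul (by positivity), mul_right_comm,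
            ← ENNReal.ofReal_mul (by positivity)]
          congr 2
          rw [Real.rpow_natCast, mul_pow, pow_succ]
          ring

/-- The selection `a` is leafwise convex in the direction `σ` (`1`: upwards, `-1`: downwards). -/
def LeafConvex {d : ℕ} (σ : ℝ) (U : Set (E d)) (f : E d → ℝ) (a : E d → E d) : Prop :=
  (∀ v ∈ U, ∀ w ∈ U, f v = f w → 0 ≤ σ * ⟪a v - a w, v - w⟫) ∧
  ∀ v ∈ U, (∃ u ∈ U, f u < f v) → ∃ ν : E d, ν ≠ 0 ∧
    (∀ u ∈ U, f u ≤ f v → ⟪ν, u⟫ ≤ ⟪ν, v⟫) ∧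
    ∀ w ∈ U, f w = f v → σ * ⟪ν, a w⟫ ≤ σ * ⟪ν, a v⟫

theorem upward {d : ℕ} {U : Set (E d)} (hU : IsOpen U) {f : E d → ℝ}
    (hf : ConvexOn ℝ U f) {a : E d → E d} (ha : Measurable a) {τ : ℝ → ℝ} (hτ : Measurable τ)
    (hc : LeafConvex 1 U f a) {V : Set (E d)} (hVU : V ⊆ U) (hV : 0 < volume V)
    {K : Set (E (d + 1))}
    (hK : ∀ v ∈ V, 0 < volume {r : ℝ | 0 < r ∧ pt (a v + r • v) (τ (f v) + r) ∈ K}) :
    ((d + 1 : ℕ) : ℝ≥0∞) ≤ dimH K := by
  have h1 : ∀ v ∈ U, ∀ w ∈ U, f v = f w → 0 ≤ ⟪a v - a w, v - w⟫ := by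
    intro v hv w hw h
    have := hc.1 v hv w hw h
    rwa [one_mul] at this
  have h2 : ∀ v ∈ U, (∃ u ∈ U, f u < f v) → ∃ ν : E d, ν ≠ 0 ∧
      (∀ u ∈ U, f u ≤ f v → ⟪ν, u⟫ ≤ ⟪ν, v⟫) ∧ ∀ w ∈ U, f w = f v → ⟪ν, a w⟫ ≤ ⟪ν, a v⟫ := by
    intro v hv h
    have := hc.2 v hv h
    simpa only [one_mul] using this
  set V1 : Set (E d) := {v ∈ V | ∃ u ∈ U, f u < f v} with hV1
  set V2 : Set (E d) := {v ∈ V | ∀ u ∈ U, f v ≤ f u} with hV2
  have hcov : V ⊆ V1 ∪ V2 := by
    intro v hv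
    by_cases h : ∃ u ∈ U, f u < f v
    · left; exact ⟨hv, h⟩
    · right
      push Not at h
      exact ⟨hv, h⟩
  have hor : 0 < volume V1 ∨ 0 < volume V2 := by
    by_contra hcon
    push Not at hcon
    apply hV.ne'
    exact measure_mono_null hcov (measure_union_null (le_antisymm hcon.1 zero_le)
      (le_antisymm hcon.2 zero_le))
  rcases hor with h | h
  · rcases d with _ | k
    · exfalso
      obtain ⟨v, hv⟩ : V1.Nonempty := by
        by_contra hcon
        rw [not_nonempty_iff_eq_empty] at hcon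
        rw [hcon, measure_empty] at h
        exact lt_irrefl _ h
      obtain ⟨u, _, hu⟩ := hv.2
      rw [Subsingleton.elim u v] at hu
      exact lt_irrefl _ hu
    · exact upper hU hf ha hτ h1 h2 (fun v hv => hVU hv.1) (fun v hv => hv.2) h
        (fun v hv => hK v hv.1)
  · exact flat hU hf ha h1 (fun v hv => hVU hv.1) (fun v hv => hv.2) h (fun v hv => hK v hv.1)

theorem neg_pt {d : ℕ} (x : E d) (t : ℝ) : -pt x t = pt (-x) (-t) := by
  unfold pt
  ext i
  refine Fin.lastCases ?_ (fun j => ?_) i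
  · simp
  · simp

theorem both {d : ℕ} {U : Set (E d)} (hU : IsOpen U) {f : E d → ℝ}
    (hf : ConvexOn ℝ U f) {a : E d → E d} (ha : Measurable a) {τ : ℝ → ℝ} (hτ : Measurable τ)
    {V : Set (E d)} (hVU : V ⊆ U) (hV : 0 < volume V) {K : Set (E (d + 1))}
    (hK : ∀ v ∈ V, ∃ σ : ℝ, (σ = 1 ∨ σ = -1) ∧ LeafConvex σ U f a ∧
      0 < volume {r : ℝ | 0 < σ * r ∧ pt (a v + r • v) (τ (f v) + r) ∈ K}) :
    dimH K = (d + 1 : ℕ) := by
  apply le_antisymm
  · have h := dimH_mono (subset_univ K)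
    rw [Real.dimH_univ_eq_finrank] at h
    simpa using h
  set V1 : Set (E d) := {v ∈ V | LeafConvex 1 U f a ∧
    0 < volume {r : ℝ | 0 < (1 : ℝ) * r ∧ pt (a v + r • v) (τ (f v) + r) ∈ K}} with hV1
  set V2 : Set (E d) := {v ∈ V | LeafConvex (-1) U f a ∧
    0 < volume {r : ℝ | 0 < (-1 : ℝ) * r ∧ pt (a v + r • v) (τ (f v) + r) ∈ K}} with hV2
  have hcov : V ⊆ V1 ∪ V2 := by
    intro v hv
    obtain ⟨σ, h1 | h1, h2⟩ := hK v hv
    · left
      rw [h1] at h2
      exact ⟨hv, h2⟩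
    · right
      rw [h1] at h2
      exact ⟨hv, h2⟩
  have hne : ∀ S : Set (E d), 0 < volume S → S.Nonempty := by
    intro S hS
    by_contra hcon
    rw [not_nonempty_iff_eq_empty] at hcon
    rw [hcon, measure_empty] at hS
    exact lt_irrefl _ hS
  have hor : 0 < volume V1 ∨ 0 < volume V2 := by
    by_contra hcon
    push Not at hcon
    apply hV.ne'
    exact measure_mono_null hcov (measure_union_null (le_antisymm hcon.1 zero_le)
      (le_antisymm hcon.2 zero_le))
  rcases hor with h | h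
  · obtain ⟨v0, hv0⟩ := hne V1 h
    refine upward hU hf ha hτ hv0.2.1 (fun v hv => hVU hv.1) h (fun v hv => ?_)
    have := hv.2.2
    simpa only [one_mul] using this
  · obtain ⟨v0, hv0⟩ := hne V2 h
    have hc : LeafConvex 1 U f (fun v => -a v) := by
      obtain ⟨h3, h4⟩ := hv0.2.1
      refine ⟨?_, ?_⟩
      · intro v hv w hw hfw
        have := h3 v hv w hw hfw
        have e : -a v - -a w = -(a v - a w) := by abel
        rw [e, inner_neg_left]
        linarith
      · intro v hv hu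
        obtain ⟨ν, h5, h6, h7⟩ := h4 v hv hu
        refine ⟨ν, h5, h6, fun w hw hfw => ?_⟩
        have := h7 w hw hfw
        rw [inner_neg_right, inner_neg_right]
        linarith
    have h5 : ((d + 1 : ℕ) : ℝ≥0∞) ≤ dimH (Neg.neg '' K) := by
      refine upward hU hf ha.neg (τ := fun s => -τ s) hτ.neg hc (fun v hv => hVU hv.1) h
        (fun v hv => ?_)
      have h6 := hv.2.2
      have h7 : {r : ℝ | 0 < (-1 : ℝ) * r ∧ pt (a v + r • v) (τ (f v) + r) ∈ K} =
          Neg.neg ⁻¹' {r : ℝ | 0 < r ∧ pt (-a v + r • v) (-τ (f v) + r) ∈ Neg.neg '' K} := by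
        ext r
        simp only [mem_setOf_eq, mem_preimage, neg_mul, one_mul]
        apply and_congr Iff.rfl
        have e : pt (-a v + -r • v) (-τ (f v) + -r) = -pt (a v + r • v) (τ (f v) + r) := by
          rw [neg_pt]
          congr 1
          · module
          · ring
        rw [e]
        constructor
        · intro hx
          exact ⟨_, hx, rfl⟩
        · rintro ⟨y, hy, hye⟩
          rwa [neg_inj.1 hye] at hy
      rw [h7, Measure.measure_preimage_neg] at h6
      exact h6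
    refine h5.trans ?_
    exact ((isometry_neg (G := E (d + 1))).lipschitz).dimH_image_le K

/-- Concurrent leaves are leafwise convex in both directions. -/
theorem leafConvex_of_concurrent {d : ℕ} (σ : ℝ) {U : Set (E d)} (hU : IsOpen U) {f : E d → ℝ}
    (hf : ConvexOn ℝ U f) (g : ℝ → E d) : LeafConvex σ U f (fun v => g (f v)) := by
  refine ⟨?_, ?_⟩
  · intro v _ w _ h
    simp [h]
  · rintro v hv ⟨u0, hu0, hlt⟩
    -- the open convex set of the smaller values
    set S : Set (E d) := {u ∈ U | f u < f v} with hS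
    have hSc : Convex ℝ S := hf.convex_lt (f v)
    have hSo : IsOpen S := (hf.continuousOn hU).isOpen_inter_preimage hU isOpen_Iio
    have hvS : v ∉ S := fun h => lt_irrefl _ h.2
    obtain ⟨l, hl⟩ := geometric_hahn_banach_open_point hSc hSo hvS
    set ν : E d := (InnerProductSpace.toDual ℝ (E d)).symm l with hν
    have hνl : ∀ u, ⟪ν, u⟫ = l u := fun u => by
      rw [hν, InnerProductSpace.toDual_symm_apply]
    refine ⟨ν, ?_, ?_, ?_⟩
    · intro h0
      have h3 := hl u0 ⟨hu0, hlt⟩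
      rw [← hνl, ← hνl, h0] at h3
      simp at h3
    · intro u hu hfu
      rw [hνl, hνl]
      by_contra hcon
      push Not at hcon
      -- a point of `S` near `u`
      set δ : ℝ := l u - l v with hδ
      have hδ0 : 0 < δ := by rw [hδ]; linarith
      have hm : ∀ ε : ℝ, 0 < ε → ε < 1 → (1 - ε) • u + ε • u0 ∈ S := by
        intro ε h0 h1
        refine ⟨hf.1 hu hu0 (by linarith) h0.le (by ring), ?_⟩
        have h3 := hf.2 hu hu0 (show 0 ≤ 1 - ε by linarith) h0.le (by ring)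
        simp only [smul_eq_mul] at h3
        nlinarith
      set A : ℝ := |l u0 - l u| + 1 with hA
      have hA0 : 0 < A := by positivity
      set ε : ℝ := min (1 / 2) (δ / (2 * A)) with hε
      have hε0 : 0 < ε := lt_min (by norm_num) (by positivity)
      have hε1 : ε < 1 := (min_le_left _ _).trans_lt (by norm_num)
      have h3 := hl _ (hm ε hε0 hε1)
      rw [map_add, map_smul, map_smul, smul_eq_mul, smul_eq_mul] at h3
      have h4 : ε * A ≤ δ / 2 := by
        have : ε ≤ δ / (2 * A) := min_le_right _ _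
        calc ε * A ≤ δ / (2 * A) * A := mul_le_mul_of_nonneg_right this hA0.le
          _ = δ / 2 := by field_simp
      have h5 : -A ≤ l u0 - l u := by
        have := neg_abs_le (l u0 - l u)
        rw [hA]
        linarith
      nlinarith
    · intro w _ hw
      simp only [hw]
      exact le_rfl

/-- Lines through a point which depends on the level only. -/
theorem concurrent {d : ℕ} {U : Set (E d)} (hU : IsOpen U) {f : E d → ℝ}
    (hf : ConvexOn ℝ U f) {g : ℝ → E d} (hg : Measurable g) {τ : ℝ → ℝ} (hτ : Measurable τ)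
    (hfm : Measurable f) {V : Set (E d)} (hVU : V ⊆ U) (hV : 0 < volume V) {K : Set (E (d + 1))}
    (hK : ∀ v ∈ V, 0 < volume {r : ℝ | pt (g (f v) + r • v) (τ (f v) + r) ∈ K}) :
    dimH K = (d + 1 : ℕ) := by
  refine both hU hf (hg.comp hfm) hτ hVU hV (fun v hv => ?_)
  have h1 : {r : ℝ | pt (g (f v) + r • v) (τ (f v) + r) ∈ K} ⊆
      {r : ℝ | 0 < (1 : ℝ) * r ∧ pt (g (f v) + r • v) (τ (f v) + r) ∈ K} ∪
      ({r : ℝ | 0 < (-1 : ℝ) * r ∧ pt (g (f v) + r • v) (τ (f v) + r) ∈ K} ∪ {0}) := by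
    intro r hr
    rcases lt_trichotomy r 0 with h | h | h
    · right; left
      exact ⟨by linarith, hr⟩
    · right; right
      exact h
    · left
      exact ⟨by linarith, hr⟩
  by_contra hcon
  push Not at hcon
  have h2 := hcon 1 (Or.inl rfl) (leafConvex_of_concurrent 1 hU hf g)
  have h3 := hcon (-1) (Or.inr rfl) (leafConvex_of_concurrent (-1) hU hf g)
  exact (hK v hv).ne' (measure_mono_null h1 (measure_union_null (le_antisymm h2 zero_le)
    (measure_union_null (le_antisymm h3 zero_le) (by simp))))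

end Pool.Agent.V5helper34.KC
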