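import Pool.Agent.V5helper34.KC.SChart
import Pool.Agent.V5helper34.KC.Thm

set_option autoImplicit false

/-!
# Sets containing parts of lines which are concurrent along convex-concave leaves
-/

open MeasureTheory Set Filter Topology ENNReal NNReal Metric

open scoped RealInnerProductSpace

namespace Pool.Agent.V5helper34.KC.Mx

/-- Local data at `v` for some choice of the two groups of coordinates. -/
def HasSaddle {d : ℕ} (f : E d → ℝ) (v : E d) : Prop :=
  ∃ (ι₁ ι₂ : Type) (_ : Fintype ι₁) (_ : Fintype ι₂) (_ : DecidableEq ι₁) (_ : DecidableEq ι₂)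
    (b : OrthonormalBasis (Option (ι₁ ⊕ ι₂)) ℝ (E d)) (R L c : ℝ), SaddleData f v b R L c

theorem lipschitz_Psi {ι₁ ι₂ : Type} [Fintype ι₁] [Fintype ι₂] {F : Type*} [NormedAddCommGroup F]
    [InnerProductSpace ℝ F] (b : OrthonormalBasis (Option (ι₁ ⊕ ι₂)) ℝ F) {ψ : Q ι₁ ι₂ → ℝ}
    {C : ℝ≥0} (hψ : LipschitzWith C ψ) :
    LipschitzWith (C + ((Fintype.card ι₁ + Fintype.card ι₂ : ℕ) : ℝ≥0)) (Psi b ψ) := by
  apply LipschitzWith.of_dist_le_mul
  intro q q'
  have h1 : |ψ q - ψ q'| ≤ C * dist q q' := by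
    have := hψ.dist_le_mul q q'
    rwa [Real.dist_eq] at this
  have h2 : Psi b ψ q - Psi b ψ q' = (ψ q - ψ q') • b none + Lin b (q.2 - q'.2) := by
    unfold Psi
    rw [← Lin_sub]
    module
  rw [dist_eq_norm, h2]
  have h3 := norm_add_le ((ψ q - ψ q') • b none) (Lin b (q.2 - q'.2))
  rw [norm_smul, b.norm_eq_one, mul_one, Real.norm_eq_abs] at h3
  have h4 := norm_Lin_le b (q.2 - q'.2)
  have h5 : ‖q.2 - q'.2‖ ≤ dist q q' := by
    rw [← dist_eq_norm, Prod.dist_eq]
    exact le_max_right _ _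
  have h6 : (0 : ℝ) ≤ ((Fintype.card ι₁ + Fintype.card ι₂ : ℕ) : ℝ) := Nat.cast_nonneg _
  have h7 := mul_le_mul_of_nonneg_left h5 h6
  have h8 : ((C + ((Fintype.card ι₁ + Fintype.card ι₂ : ℕ) : ℝ≥0) : ℝ≥0) : ℝ) * dist q q' =
      C * dist q q' + ((Fintype.card ι₁ + Fintype.card ι₂ : ℕ) : ℝ) * dist q q' := by
    push_cast
    ring
  rw [h8]
  linarith

/-- Upper half lines. -/
theorem upperS {d : ℕ} {f : E d → ℝ} {g : ℝ → E d} (hg : Measurable g) {τ : ℝ → ℝ}
    (hτ : Measurable τ) {V : Set (E d)} (hV : 0 < volume V) (hd : ∀ v ∈ V, HasSaddle f v)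
    {K : Set (E (d + 1))}
    (hK : ∀ v ∈ V, 0 < volume {r : ℝ | 0 < r ∧ pt (g (f v) + r • v) (τ (f v) + r) ∈ K}) :
    ((d + 1 : ℕ) : ℝ≥0∞) ≤ dimH K := by
  obtain ⟨v0, hv0, hnear⟩ := exists_mem_forall_mem_nhdsWithin_pos_measure hV.ne'
  obtain ⟨ι₁, ι₂, i1, i2, i3, i4, b, R, L, c, hdat⟩ := hd v0 hv0
  obtain ⟨ψ, C, κ, r, c₀, L', r₁, y₀, z₀, hψL, hc₀, hL', hr₁, hcx, hcc, hmon, hlip, hbox, hch⟩ :=
    exists_chart hdat
  have hcard : Module.finrank ℝ (E d) = Fintype.card (Option (ι₁ ⊕ ι₂)) :=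
    Module.finrank_eq_card_basis b.toBasis
  rw [finrank_euclideanSpace_fin, Fintype.card_option, Fintype.card_sum] at hcard
  set W : Set (Q ι₁ ι₂) := Box (f v0) κ y₀ z₀ r with hWdef
  have hW : MeasurableSet W := by
    rw [hWdef]
    unfold Box
    exact measurableSet_Icc.prod (isClosed_closedBall.measurableSet.prod
      isClosed_closedBall.measurableSet)
  have hΨL := lipschitz_Psi b hψL
  have hΨm : Measurable (Psi b ψ) := hΨL.continuous.measurable
  set A : Q ι₁ ι₂ → E d := fun q => g q.1 with hAdef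
  have hA : Measurable A := hg.comp measurable_fst
  set N0 : ℝ := |f v0| + |κ| + ‖y₀‖ + ‖z₀‖ + |r| with hN0
  have hWN : ∀ q ∈ W, |q.1| ≤ N0 ∧ (∀ i, |q.2.1 i| ≤ N0) ∧ ∀ i, |q.2.2 i| ≤ N0 := by
    rintro q ⟨h1, h2, h3⟩
    have hn1 := norm_nonneg y₀
    have hn2 := norm_nonneg z₀
    have hn3 := abs_nonneg (f v0)
    have hn4 := abs_nonneg κ
    have hn5 := abs_nonneg r
    refine ⟨?_, ?_, ?_⟩
    · have e1 := le_abs_self (f v0)
      have e2 := neg_abs_le (f v0)
      have e3 := le_abs_self κ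
      rw [abs_le]
      constructor
      · linarith [h1.1]
      · linarith [h1.2]
    · intro i
      have e1 : |q.2.1 i| ≤ ‖q.2.1‖ := norm_le_pi_norm q.2.1 i
      have e2 : ‖q.2.1 - y₀‖ ≤ r := by
        rw [← dist_eq_norm]
        exact h2
      have e3 : ‖q.2.1‖ ≤ ‖q.2.1 - y₀‖ + ‖y₀‖ := by
        have := norm_add_le (q.2.1 - y₀) y₀
        rwa [sub_add_cancel] at this
      have e4 := le_abs_self r
      linarith
    · intro i
      have e1 : |q.2.2 i| ≤ ‖q.2.2‖ := norm_le_pi_norm q.2.2 i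
      have e2 : ‖q.2.2 - z₀‖ ≤ r := by
        rw [← dist_eq_norm]
        exact h3
      have e3 : ‖q.2.2‖ ≤ ‖q.2.2 - z₀‖ + ‖z₀‖ := by
        have := norm_add_le (q.2.2 - z₀) z₀
        rwa [sub_add_cancel] at this
      have e4 := le_abs_self r
      linarith
  have hWR : ∀ q ∈ W, ‖Psi b ψ q‖ ≤ ‖v0‖ + R := by
    intro q hq
    have h1 : dist (Psi b ψ q) v0 ≤ R := (hbox q hq).1
    rw [dist_eq_norm] at h1
    have h2 : ‖Psi b ψ q‖ ≤ ‖Psi b ψ q - v0‖ + ‖v0‖ := by
      have := norm_add_le (Psi b ψ q - v0) v0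
      rwa [sub_add_cancel] at this
    linarith
  have hcr : ∀ ρ : ℝ, 0 < ρ → ∃ c C1 : ℝ, 0 < c ∧ 0 < C1 ∧
      ∀ N : ℝ, Crossing A (Psi b ψ) τ W N ρ c C1 := by
    intro ρ hρ
    exact ⟨ρ, (2 + 4 * L') / c₀, hρ, by positivity, fun N =>
      saddle_crossing hL' hc₀ hcx hcc hmon hlip b hρ N⟩
  -- the set of parameters
  set V1 : Set (E d) := V ∩ closedBall v0 r₁ with hV1
  have hV1pos : 0 < volume V1 := by
    apply hnear
    rw [hV1]
    exact inter_mem self_mem_nhdsWithin (mem_nhdsWithin_of_mem_nhds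
      (closedBall_mem_nhds v0 hr₁))
  set Θ : E d → Q ι₁ ι₂ := fun v => (f v, co b v) with hΘ
  set G : Set (Q ι₁ ι₂ × ℝ) :=
    {z | z.1 ∈ Θ '' V1 ∧ τ z.1.1 < z.2 ∧ Phi A (Psi b ψ) τ z ∈ proj '' K} with hGdef
  have hG : ∀ z ∈ G, z.1 ∈ W ∧ τ z.1.1 < z.2 := by
    rintro z ⟨⟨v, hv, hvz⟩, h4, _⟩
    refine ⟨?_, h4⟩
    rw [← hvz]
    exact (hch v hv.2).1
  have hsec : ∀ q ∈ Θ '' V1, 0 < volume (Prod.mk q ⁻¹' G) := by
    rintro _ ⟨v, ⟨hvV, hvB⟩, rfl⟩
    have h3 : {r : ℝ | 0 < r ∧ pt (g (f v) + r • v) (τ (f v) + r) ∈ K} ⊆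
        (fun r => r + τ (f v)) ⁻¹' (Prod.mk (Θ v) ⁻¹' G) := by
      rintro r ⟨hr, hrK⟩
      refine ⟨mem_image_of_mem _ ⟨hvV, hvB⟩, ?_, ?_⟩
      · change τ (f v) < r + τ (f v)
        linarith
      · refine ⟨_, hrK, ?_⟩
        rw [proj_pt]
        have e1 : Phi A (Psi b ψ) τ (Θ v, r + τ (f v)) =
            (g (f v) + (r + τ (f v) - τ (f v)) • Psi b ψ (f v, co b v), r + τ (f v)) := rfl
        rw [e1, (hch v hvB).2, add_sub_cancel_right, add_comm r]
    have h4 := (hK v hvV).trans_le (measure_mono h3)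
    rwa [measure_preimage_add_right] at h4
  have hGpos : 0 < volume G := by
    rw [pos_iff_ne_zero]
    intro h0
    rw [Measure.volume_eq_prod] at h0
    have h3 := Measure.measure_ae_null_of_prod_null h0
    rw [Filter.EventuallyEq, ae_iff] at h3
    have h4 : volume (Θ '' V1) = 0 := by
      refine measure_mono_null ?_ h3
      intro q hq
      exact (hsec q hq).ne'
    have hH0 : (volume : Measure ((ι₁ → ℝ) × (ι₂ → ℝ))).IsAddHaarMeasure :=
      Measure.prod.instIsAddHaarMeasure (volume : Measure (ι₁ → ℝ)) (volume : Measure (ι₂ → ℝ))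
    have hH : (volume : Measure (Q ι₁ ι₂)).IsAddHaarMeasure :=
      Measure.prod.instIsAddHaarMeasure (volume : Measure ℝ)
        (volume : Measure ((ι₁ → ℝ) × (ι₂ → ℝ)))
    have h5 : volume (Psi b ψ '' (Θ '' V1)) = 0 := by
      refine null_image volume volume ?_ hΨL h4
      rw [finrank_euclideanSpace_fin, hcard, Module.finrank_prod, Module.finrank_prod,
        Module.finrank_self, Module.finrank_fintype_fun_eq_card,
        Module.finrank_fintype_fun_eq_card]
      ring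
    have h6 : Psi b ψ '' (Θ '' V1) = V1 := by
      rw [image_image]
      ext v
      constructor
      · rintro ⟨w, hw, rfl⟩
        change Psi b ψ (f w, co b w) ∈ V1
        rw [(hch w hw.2).2]
        exact hw
      · intro hv
        exact ⟨v, hv, (hch v hv.2).2⟩
    rw [h6] at h5
    exact hV1pos.ne' h5
  have hfin := dim_of_family hA hΨm hτ hW hWN hWR hcr
    (G := G) (K := proj '' K) hG (fun z hz => hz.2.2) hGpos
  refine le_trans ?_ (hfin.trans (lipschitz_proj.dimH_image_le K))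
  rw [hcard]
  have : Fintype.card ι₁ + Fintype.card ι₂ + 1 + 1 = Fintype.card ι₂ + Fintype.card ι₁ + 2 := by
    ring
  rw [this]

/-- **Lines which are concurrent along convex-concave leaves.** -/
theorem bothS {d : ℕ} {f : E d → ℝ} {g : ℝ → E d} (hg : Measurable g) {τ : ℝ → ℝ}
    (hτ : Measurable τ) {V : Set (E d)} (hV : 0 < volume V) (hd : ∀ v ∈ V, HasSaddle f v)
    {K : Set (E (d + 1))}
    (hK : ∀ v ∈ V, 0 < volume {r : ℝ | pt (g (f v) + r • v) (τ (f v) + r) ∈ K}) :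
    dimH K = (d + 1 : ℕ) := by
  apply le_antisymm
  · have h := dimH_mono (subset_univ K)
    rw [Real.dimH_univ_eq_finrank] at h
    simpa using h
  set V1 : Set (E d) := {v ∈ V | 0 < volume {r : ℝ | 0 < r ∧
    pt (g (f v) + r • v) (τ (f v) + r) ∈ K}} with hV1
  set V2 : Set (E d) := {v ∈ V | 0 < volume {r : ℝ | r < 0 ∧
    pt (g (f v) + r • v) (τ (f v) + r) ∈ K}} with hV2
  have hcov : V ⊆ V1 ∪ V2 := by
    intro v hv
    have h1 : {r : ℝ | pt (g (f v) + r • v) (τ (f v) + r) ∈ K} ⊆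
        {r : ℝ | 0 < r ∧ pt (g (f v) + r • v) (τ (f v) + r) ∈ K} ∪
        ({r : ℝ | r < 0 ∧ pt (g (f v) + r • v) (τ (f v) + r) ∈ K} ∪ {0}) := by
      intro r hr
      rcases lt_trichotomy r 0 with h | h | h
      · right; left
        exact ⟨h, hr⟩
      · right; right
        exact h
      · left
        exact ⟨h, hr⟩
    by_contra hcon
    rw [mem_union, not_or] at hcon
    have h2 : volume {r : ℝ | 0 < r ∧ pt (g (f v) + r • v) (τ (f v) + r) ∈ K} = 0 := by
      by_contra h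
      exact hcon.1 ⟨hv, pos_iff_ne_zero.2 h⟩
    have h3 : volume {r : ℝ | r < 0 ∧ pt (g (f v) + r • v) (τ (f v) + r) ∈ K} = 0 := by
      by_contra h
      exact hcon.2 ⟨hv, pos_iff_ne_zero.2 h⟩
    exact (hK v hv).ne' (measure_mono_null h1 (measure_union_null h2
      (measure_union_null h3 (by simp))))
  have hor : 0 < volume V1 ∨ 0 < volume V2 := by
    by_contra hcon
    push Not at hcon
    apply hV.ne'
    exact measure_mono_null hcov (measure_union_null (le_antisymm hcon.1 zero_le)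
      (le_antisymm hcon.2 zero_le))
  rcases hor with h | h
  · exact upperS hg hτ h (fun v hv => hd v hv.1) (fun v hv => hv.2)
  · have h5 : ((d + 1 : ℕ) : ℝ≥0∞) ≤ dimH (Neg.neg '' K) := by
      refine upperS (g := fun s => -g s) hg.neg (τ := fun s => -τ s) hτ.neg h
        (fun v hv => hd v hv.1) (fun v hv => ?_)
      have h6 := hv.2
      have h7 : {r : ℝ | r < 0 ∧ pt (g (f v) + r • v) (τ (f v) + r) ∈ K} =
          Neg.neg ⁻¹' {r : ℝ | 0 < r ∧ pt (-g (f v) + r • v) (-τ (f v) + r) ∈ Neg.neg '' K} := by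
        ext r
        simp only [mem_setOf_eq, mem_preimage]
        rw [Left.neg_pos_iff]
        apply and_congr Iff.rfl
        have e : pt (-g (f v) + -r • v) (-τ (f v) + -r) = -pt (g (f v) + r • v) (τ (f v) + r) := by
          rw [neg_pt]
          congr 1
          · module
          · ring
        rw [e]
        constructor
        · intro hx
          exact ⟨_, hx, rfl⟩
        · rintro ⟨y, hy, hye⟩
          rwa [neg_inj.1 hye] at hy
      rw [h7, Measure.measure_preimage_neg] at h6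
      exact h6
    refine h5.trans ?_
    exact ((isometry_neg (G := E (d + 1))).lipschitz).dimH_image_le K

end Pool.Agent.V5helper34.KC.Mx
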