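import Pool.Agent.V5helper34.KC.MixPair
import Pool.Agent.V5helper34.KC.Final

set_option autoImplicit false

/-!
# Leaves which are graphs of convex-concave functions: the mixed crossing property
-/

open MeasureTheory Set Filter Topology ENNReal NNReal Metric

open scoped RealInnerProductSpace

namespace Pool.Agent.V5helper34.KC.Mx

section

variable {ι₁ ι₂ : Type} [Fintype ι₁] [Fintype ι₂] {F : Type*} [NormedAddCommGroup F]
  [InnerProductSpace ℝ F]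

/-- the linear part of the coordinates -/
noncomputable def Lin (b : OrthonormalBasis (Option (ι₁ ⊕ ι₂)) ℝ F)
    (w : (ι₁ → ℝ) × (ι₂ → ℝ)) : F :=
  (∑ i, w.1 i • b (some (Sum.inl i))) + ∑ j, w.2 j • b (some (Sum.inr j))

/-- the coordinates -/
noncomputable def co (b : OrthonormalBasis (Option (ι₁ ⊕ ι₂)) ℝ F) (v : F) :
    (ι₁ → ℝ) × (ι₂ → ℝ) :=
  (fun i => ⟪b (some (Sum.inl i)), v⟫, fun j => ⟪b (some (Sum.inr j)), v⟫)

theorem decomp (b : OrthonormalBasis (Option (ι₁ ⊕ ι₂)) ℝ F) (v : F) :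
    ⟪b none, v⟫ • b none + Lin b (co b v) = v := by
  have := b.sum_repr' v
  rw [Fintype.sum_option, Fintype.sum_sum_type] at this
  exact this

variable [DecidableEq ι₁] [DecidableEq ι₂]

theorem inner_none (b : OrthonormalBasis (Option (ι₁ ⊕ ι₂)) ℝ F) (h : ℝ)
    (w : (ι₁ → ℝ) × (ι₂ → ℝ)) : ⟪b none, h • b none + Lin b w⟫ = h := by
  have hb := b.orthonormal
  rw [orthonormal_iff_ite] at hb
  unfold Lin
  simp only [inner_add_right, real_inner_smul_right, inner_sum, hb]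
  simp

theorem inner_inl (b : OrthonormalBasis (Option (ι₁ ⊕ ι₂)) ℝ F) (h : ℝ)
    (w : (ι₁ → ℝ) × (ι₂ → ℝ)) (i : ι₁) :
    ⟪b (some (Sum.inl i)), h • b none + Lin b w⟫ = w.1 i := by
  have hb := b.orthonormal
  rw [orthonormal_iff_ite] at hb
  unfold Lin
  simp only [inner_add_right, real_inner_smul_right, inner_sum, hb]
  simp

theorem inner_inr (b : OrthonormalBasis (Option (ι₁ ⊕ ι₂)) ℝ F) (h : ℝ)
    (w : (ι₁ → ℝ) × (ι₂ → ℝ)) (j : ι₂) :
    ⟪b (some (Sum.inr j)), h • b none + Lin b w⟫ = w.2 j := by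
  have hb := b.orthonormal
  rw [orthonormal_iff_ite] at hb
  unfold Lin
  simp only [inner_add_right, real_inner_smul_right, inner_sum, hb]
  simp

/-- The slope with the parameter `q`. -/
noncomputable def Psi (b : OrthonormalBasis (Option (ι₁ ⊕ ι₂)) ℝ F) (ψ : Q ι₁ ι₂ → ℝ)
    (q : Q ι₁ ι₂) : F := ψ q • b none + Lin b q.2

omit [DecidableEq ι₁] [DecidableEq ι₂] in
/-- a product box of parameters -/
def Box (s₀ κ : ℝ) (y₀ : ι₁ → ℝ) (z₀ : ι₂ → ℝ) (r : ℝ) : Set (Q ι₁ ι₂) :=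
  Icc (s₀ - κ) (s₀ + κ) ×ˢ (closedBall y₀ r ×ˢ closedBall z₀ r)

theorem saddle_aux {ψ : Q ι₁ ι₂ → ℝ} {s₀ κ : ℝ} {y₀ : ι₁ → ℝ} {z₀ : ι₂ → ℝ} {r c₀ L : ℝ}
    (hL : 0 ≤ L)
    (h1 : ∀ s z, s ∈ Icc (s₀ - κ) (s₀ + κ) → z ∈ closedBall z₀ r →
      ConvexOn ℝ (closedBall y₀ r) (fun y => ψ (s, (y, z))))
    (h2 : ∀ s y, s ∈ Icc (s₀ - κ) (s₀ + κ) → y ∈ closedBall y₀ r →
      ConcaveOn ℝ (closedBall z₀ r) (fun z => ψ (s, (y, z))))
    (h3 : ∀ s s' w, (s, w) ∈ Box s₀ κ y₀ z₀ r → (s', w) ∈ Box s₀ κ y₀ z₀ r → s' ≤ s →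
      c₀ * (s - s') ≤ ψ (s, w) - ψ (s', w))
    (h4 : ∀ s w w', (s, w) ∈ Box s₀ κ y₀ z₀ r → (s, w') ∈ Box s₀ κ y₀ z₀ r →
      |ψ (s, w) - ψ (s, w')| ≤ L * ‖w - w'‖)
    (b : OrthonormalBasis (Option (ι₁ ⊕ ι₂)) ℝ F) {g : ℝ → F} {τ : ℝ → ℝ} {N ρ η : ℝ}
    (hρ : 0 < ρ) {s y z₁ z₂ s' y₁ y₂ z' t₁ t₂} (ht : t₁ ≤ t₂)
    (hb1 : Bad (fun q => g q.1) (Psi b ψ) τ (Box s₀ κ y₀ z₀ r) N ρ η (s, (y, z₁)) (s', (y₁, z')) t₁)
    (hb2 : Bad (fun q => g q.1) (Psi b ψ) τ (Box s₀ κ y₀ z₀ r) N ρ η (s, (y, z₂)) (s', (y₂, z')) t₂) :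
    (t₂ - t₁) * (c₀ * (s - s')) ≤ (2 + 4 * L) * η ∧
      (t₁ = t₂ → ρ * ‖z₁ - z₂‖ ≤ 2 * η ∧ ρ * ‖y₁ - y₂‖ ≤ 2 * η) := by
  obtain ⟨⟨hs, hy, hz1⟩, ⟨hs', hy1, hz'⟩, _, hr1, hr1', hss, hc1⟩ := hb1
  obtain ⟨⟨_, _, hz2⟩, ⟨_, hy2, _⟩, _, hr2, hr2', _, hc2⟩ := hb2
  simp only at hs hy hz1 hs' hy1 hz' hz2 hy2 hr1 hr1' hr2 hr2' hss
  have hη : 0 ≤ η := (norm_nonneg _).trans hc1
  set T1 : ℝ := t₁ - τ s with hT1
  set T2 : ℝ := t₂ - τ s with hT2
  set S1 : ℝ := t₁ - τ s' with hS1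
  set S2 : ℝ := t₂ - τ s' with hS2
  have hT1p : ρ ≤ T1 := by rw [hT1]; linarith
  have hT2p : ρ ≤ T2 := by rw [hT2]; linarith
  have hS1p : ρ ≤ S1 := by rw [hS1]; linarith
  have hS2p : ρ ≤ S2 := by rw [hS2]; linarith
  -- the difference of the two configurations
  set D1 : F := X (fun q => g q.1) (Psi b ψ) τ (s, (y, z₁)) t₁ -
    X (fun q => g q.1) (Psi b ψ) τ (s', (y₁, z')) t₁ with hD1
  set D2 : F := X (fun q => g q.1) (Psi b ψ) τ (s, (y, z₂)) t₂ -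
    X (fun q => g q.1) (Psi b ψ) τ (s', (y₂, z')) t₂ with hD2
  have hDn : ∀ x : Option (ι₁ ⊕ ι₂), |⟪b x, D2 - D1⟫| ≤ 2 * η := by
    intro x
    have e1 := abs_real_inner_le_norm (b x) (D2 - D1)
    rw [b.norm_eq_one, one_mul] at e1
    have e2 := norm_sub_le D2 D1
    linarith
  have hDe : D2 - D1 = (T2 • Psi b ψ (s, (y, z₂)) - T1 • Psi b ψ (s, (y, z₁))) -
      (S2 • Psi b ψ (s', (y₂, z')) - S1 • Psi b ψ (s', (y₁, z'))) := by
    rw [hD1, hD2]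
    unfold X
    simp only
    rw [← hT1, ← hT2, ← hS1, ← hS2]
    abel
  have c1 : |(T2 * ψ (s, (y, z₂)) - T1 * ψ (s, (y, z₁))) -
      (S2 * ψ (s', (y₂, z')) - S1 * ψ (s', (y₁, z')))| ≤ 2 * η := by
    have := hDn none
    rw [hDe] at this
    simp only [inner_sub_right, real_inner_smul_right, Psi, inner_none] at this
    exact this
  have c2 : ∀ i, |(T2 * y i - T1 * y i) - (S2 * y₂ i - S1 * y₁ i)| ≤ 2 * η := by
    intro i
    have := hDn (some (Sum.inl i))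
    rw [hDe] at this
    simp only [inner_sub_right, real_inner_smul_right, Psi, inner_inl] at this
    exact this
  have c3 : ∀ j, |(T2 * z₂ j - T1 * z₁ j) - (S2 * z' j - S1 * z' j)| ≤ 2 * η := by
    intro j
    have := hDn (some (Sum.inr j))
    rw [hDe] at this
    simp only [inner_sub_right, real_inner_smul_right, Psi, inner_inr] at this
    exact this
  constructor
  · set Δ : ℝ := t₂ - t₁ with hΔ
    have hΔ0 : 0 ≤ Δ := by rw [hΔ]; linarith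
    have hTT : T2 = T1 + Δ := by rw [hT2, hT1, hΔ]; ring
    have hSS : S2 = S1 + Δ := by rw [hS2, hS1, hΔ]; ring
    have hT2' : 0 < T2 := hρ.trans_le hT2p
    have hS2' : 0 < S2 := hρ.trans_le hS2p
    have hT1' : 0 < T1 := hρ.trans_le hT1p
    have hS1' : 0 < S1 := hρ.trans_le hS1p
    -- concavity
    set zt : ι₂ → ℝ := (T1 / T2) • z₁ + (Δ / T2) • z' with hzt
    have hsum1 : T1 / T2 + Δ / T2 = 1 := by
      rw [← add_div, ← hTT, div_self hT2'.ne']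
    have hztm : zt ∈ closedBall z₀ r :=
      (convex_closedBall z₀ r) hz1 hz' (by positivity) (by positivity) hsum1
    have hconc := (h2 s y hs hy).2 hz1 hz' (show 0 ≤ T1 / T2 by positivity)
      (show 0 ≤ Δ / T2 by positivity) hsum1
    simp only [smul_eq_mul] at hconc
    have k1 : T1 * ψ (s, (y, z₁)) + Δ * ψ (s, (y, z')) ≤ T2 * ψ (s, (y, zt)) := by
      have := mul_le_mul_of_nonneg_left hconc hT2'.le
      have e : T2 * (T1 / T2 * ψ (s, (y, z₁)) + Δ / T2 * ψ (s, (y, z'))) =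
          T1 * ψ (s, (y, z₁)) + Δ * ψ (s, (y, z')) := by field_simp
      rw [e] at this
      exact this
    have k2 : ‖z₂ - zt‖ ≤ 2 * η / T2 := by
      rw [pi_norm_le_iff_of_nonneg (by positivity)]
      intro j
      rw [Real.norm_eq_abs, le_div_iff₀ hT2']
      have e : (z₂ - zt) j = ((T2 * z₂ j - T1 * z₁ j) - (S2 * z' j - S1 * z' j)) / T2 := by
        rw [hzt]
        simp only [Pi.sub_apply, Pi.add_apply, Pi.smul_apply, smul_eq_mul]
        rw [hSS]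
        field_simp
        ring
      rw [e, abs_div, abs_of_pos hT2', div_mul_cancel₀ _ hT2'.ne']
      exact c3 j
    have k3 : T2 * ψ (s, (y, zt)) - 2 * L * η ≤ T2 * ψ (s, (y, z₂)) := by
      have e1 := h4 s (y, z₂) (y, zt) ⟨hs, hy, hz2⟩ ⟨hs, hy, hztm⟩
      have e2 : ‖((y, z₂) : (ι₁ → ℝ) × (ι₂ → ℝ)) - (y, zt)‖ = ‖z₂ - zt‖ := by
        rw [Prod.mk_sub_mk, sub_self, Prod.norm_mk, norm_zero]
        exact max_eq_right (norm_nonneg _)
      rw [e2] at e1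
      have e3 := (abs_le.1 (e1.trans (mul_le_mul_of_nonneg_left k2 hL))).1
      have e4 := mul_le_mul_of_nonneg_left e3 hT2'.le
      have e5 : T2 * -(L * (2 * η / T2)) = -(2 * L * η) := by field_simp
      rw [e5] at e4
      linarith
    -- convexity
    set yt : ι₁ → ℝ := (S1 / S2) • y₁ + (Δ / S2) • y with hyt
    have hsum2 : S1 / S2 + Δ / S2 = 1 := by
      rw [← add_div, ← hSS, div_self hS2'.ne']
    have hytm : yt ∈ closedBall y₀ r :=
      (convex_closedBall y₀ r) hy1 hy (by positivity) (by positivity) hsum2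
    have hconv := (h1 s' z' hs' hz').2 hy1 hy (show 0 ≤ S1 / S2 by positivity)
      (show 0 ≤ Δ / S2 by positivity) hsum2
    simp only [smul_eq_mul] at hconv
    have l1 : S2 * ψ (s', (yt, z')) ≤ S1 * ψ (s', (y₁, z')) + Δ * ψ (s', (y, z')) := by
      have := mul_le_mul_of_nonneg_left hconv hS2'.le
      have e : S2 * (S1 / S2 * ψ (s', (y₁, z')) + Δ / S2 * ψ (s', (y, z'))) =
          S1 * ψ (s', (y₁, z')) + Δ * ψ (s', (y, z')) := by field_simp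
      rw [e] at this
      exact this
    have l2 : ‖y₂ - yt‖ ≤ 2 * η / S2 := by
      rw [pi_norm_le_iff_of_nonneg (by positivity)]
      intro i
      rw [Real.norm_eq_abs, le_div_iff₀ hS2']
      have e : (y₂ - yt) i = -(((T2 * y i - T1 * y i) - (S2 * y₂ i - S1 * y₁ i)) / S2) := by
        rw [hyt]
        simp only [Pi.sub_apply, Pi.add_apply, Pi.smul_apply, smul_eq_mul]
        rw [hTT]
        field_simp
        ring
      rw [e, abs_neg, abs_div, abs_of_pos hS2', div_mul_cancel₀ _ hS2'.ne']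
      exact c2 i
    have l3 : S2 * ψ (s', (y₂, z')) ≤ S2 * ψ (s', (yt, z')) + 2 * L * η := by
      have e1 := h4 s' (y₂, z') (yt, z') ⟨hs', hy2, hz'⟩ ⟨hs', hytm, hz'⟩
      have e2 : ‖((y₂, z') : (ι₁ → ℝ) × (ι₂ → ℝ)) - (yt, z')‖ = ‖y₂ - yt‖ := by
        rw [Prod.mk_sub_mk, sub_self, Prod.norm_mk, norm_zero]
        exact max_eq_left (norm_nonneg _)
      rw [e2] at e1
      have e3 := (abs_le.1 (e1.trans (mul_le_mul_of_nonneg_left l2 hL))).2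
      have e4 := mul_le_mul_of_nonneg_left e3 hS2'.le
      have e5 : S2 * (L * (2 * η / S2)) = 2 * L * η := by field_simp
      rw [e5] at e4
      linarith
    have m1 := h3 s s' (y, z') ⟨hs, hy, hz'⟩ ⟨hs', hy, hz'⟩ hss.le
    have m2 := mul_le_mul_of_nonneg_left m1 hΔ0
    have m3 := (abs_le.1 c1).2
    linarith
  · intro htt
    have hTT : T1 = T2 := by rw [hT1, hT2, htt]
    have hSS : S1 = S2 := by rw [hS1, hS2, htt]
    have hT2' : 0 < T2 := hρ.trans_le hT2p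
    have hS2' : 0 < S2 := hρ.trans_le hS2p
    constructor
    · have e1 : ‖z₁ - z₂‖ ≤ 2 * η / T2 := by
        rw [pi_norm_le_iff_of_nonneg (by positivity)]
        intro j
        rw [Real.norm_eq_abs, le_div_iff₀ hT2']
        have := c3 j
        rw [hTT, hSS] at this
        have e : (T2 * z₂ j - T2 * z₁ j) - (S2 * z' j - S2 * z' j) = -((z₁ - z₂) j * T2) := by
          simp only [Pi.sub_apply]
          ring
        rw [e, abs_neg, abs_mul, abs_of_pos hT2'] at this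
        exact this
      rw [le_div_iff₀ hT2'] at e1
      nlinarith [norm_nonneg (z₁ - z₂)]
    · have e1 : ‖y₁ - y₂‖ ≤ 2 * η / S2 := by
        rw [pi_norm_le_iff_of_nonneg (by positivity)]
        intro i
        rw [Real.norm_eq_abs, le_div_iff₀ hS2']
        have := c2 i
        rw [hTT, hSS] at this
        have e : (T2 * y i - T2 * y i) - (S2 * y₂ i - S2 * y₁ i) = (y₁ - y₂) i * S2 := by
          simp only [Pi.sub_apply]
          ring
        rw [e, abs_mul, abs_of_pos hS2'] at this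
        exact this
      rw [le_div_iff₀ hS2'] at e1
      nlinarith [norm_nonneg (y₁ - y₂)]

/-- **The mixed crossing property of convex-concave leaves.** -/
theorem saddle_crossing {ψ : Q ι₁ ι₂ → ℝ} {s₀ κ : ℝ} {y₀ : ι₁ → ℝ} {z₀ : ι₂ → ℝ} {r c₀ L : ℝ}
    (hL : 0 ≤ L) (hc₀ : 0 < c₀)
    (h1 : ∀ s z, s ∈ Icc (s₀ - κ) (s₀ + κ) → z ∈ closedBall z₀ r →
      ConvexOn ℝ (closedBall y₀ r) (fun y => ψ (s, (y, z))))
    (h2 : ∀ s y, s ∈ Icc (s₀ - κ) (s₀ + κ) → y ∈ closedBall y₀ r →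
      ConcaveOn ℝ (closedBall z₀ r) (fun z => ψ (s, (y, z))))
    (h3 : ∀ s s' w, (s, w) ∈ Box s₀ κ y₀ z₀ r → (s', w) ∈ Box s₀ κ y₀ z₀ r → s' ≤ s →
      c₀ * (s - s') ≤ ψ (s, w) - ψ (s', w))
    (h4 : ∀ s w w', (s, w) ∈ Box s₀ κ y₀ z₀ r → (s, w') ∈ Box s₀ κ y₀ z₀ r →
      |ψ (s, w) - ψ (s, w')| ≤ L * ‖w - w'‖)
    (b : OrthonormalBasis (Option (ι₁ ⊕ ι₂)) ℝ F) {g : ℝ → F} {τ : ℝ → ℝ} {ρ : ℝ} (hρ : 0 < ρ)
    (N : ℝ) :
    Crossing (fun q => g q.1) (Psi b ψ) τ (Box s₀ κ y₀ z₀ r) N ρ ρ ((2 + 4 * L) / c₀) := by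
  intro η _ s y z₁ z₂ s' y₁ y₂ z' t₁ t₂ hb1 hb2
  rcases le_total t₁ t₂ with h | h
  · obtain ⟨e1, e2⟩ := saddle_aux hL h1 h2 h3 h4 b hρ h hb1 hb2
    refine ⟨?_, e2⟩
    rw [abs_sub_comm, abs_of_nonneg (by linarith), div_mul_eq_mul_div, le_div_iff₀ hc₀]
    linarith
  · obtain ⟨e1, e2⟩ := saddle_aux hL h1 h2 h3 h4 b hρ h hb2 hb1
    refine ⟨?_, fun htt => ?_⟩
    · rw [abs_of_nonneg (by linarith), div_mul_eq_mul_div, le_div_iff₀ hc₀]
      linarith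
    · obtain ⟨e3, e4⟩ := e2 htt.symm
      rw [norm_sub_rev z₁, norm_sub_rev y₁]
      exact ⟨e3, e4⟩

end

end Pool.Agent.V5helper34.KC.Mx
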